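import Mathlib

/-!
# The first-order theory of finite Boolean algebras and deterministic time

Terms and formulas of the first-order language of Boolean algebras with equality, their coding by
words over a fixed finite alphabet (prefix notation, variables written in binary), the theory
`TFin` of finite Boolean algebras and the classes `DTIME`.
-/

set_option autoImplicit false

namespace Pool.Agent.FBA

open Turing Computability

/-- Terms in the signature `∧, ∨, ¬, 0, 1`; the variables are `x_0, x_1, ...`. -/
inductive Term : Type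
  | var (i : ℕ) : Term
  | zero : Term
  | one : Term
  | compl (t : Term) : Term
  | inf (s t : Term) : Term
  | sup (s t : Term) : Term

/-- First-order formulas with equality. -/
inductive Fml : Type
  | eq (s t : Term) : Fml
  | not (φ : Fml) : Fml
  | and (φ ψ : Fml) : Fml
  | or (φ ψ : Fml) : Fml
  | imp (φ ψ : Fml) : Fml
  | iff (φ ψ : Fml) : Fml
  | all (i : ℕ) (φ : Fml) : Fml
  | ex (i : ℕ) (φ : Fml) : Fml

/-- The alphabet: two binary digits, and one letter for each symbol. -/
inductive Sym : Type
  | bit (b : Bool) : Sym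
  | var : Sym
  | zero : Sym
  | one : Sym
  | compl : Sym
  | inf : Sym
  | sup : Sym
  | eq : Sym
  | not : Sym
  | and : Sym
  | or : Sym
  | imp : Sym
  | iff : Sym
  | all : Sym
  | ex : Sym
  deriving DecidableEq, Fintype

/-- The binary expansion of `i` (least significant digit first, no leading zeros). -/
def bin (i : ℕ) : List Sym := (Nat.bits i).map Sym.bit

/-- The code of a term: prefix notation, the variable `x_i` is the letter `var` followed by the
binary expansion of `i`. -/
def Term.code : Term → List Sym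
  | .var i => Sym.var :: bin i
  | .zero => [Sym.zero]
  | .one => [Sym.one]
  | .compl t => Sym.compl :: t.code
  | .inf s t => Sym.inf :: (s.code ++ t.code)
  | .sup s t => Sym.sup :: (s.code ++ t.code)

/-- The code of a formula: prefix notation, a quantifier is followed by the binary expansion of the
index of its variable. -/
def Fml.code : Fml → List Sym
  | .eq s t => Sym.eq :: (s.code ++ t.code)
  | .not φ => Sym.not :: φ.code
  | .and φ ψ => Sym.and :: (φ.code ++ ψ.code)
  | .or φ ψ => Sym.or :: (φ.code ++ ψ.code)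
  | .imp φ ψ => Sym.imp :: (φ.code ++ ψ.code)
  | .iff φ ψ => Sym.iff :: (φ.code ++ ψ.code)
  | .all i φ => Sym.all :: (bin i ++ φ.code)
  | .ex i φ => Sym.ex :: (bin i ++ φ.code)

/-- The variable `x_i` occurs in the term. -/
def Term.Occurs (i : ℕ) : Term → Prop
  | .var j => i = j
  | .zero => False
  | .one => False
  | .compl t => t.Occurs i
  | .inf s t => s.Occurs i ∨ t.Occurs i
  | .sup s t => s.Occurs i ∨ t.Occurs i

/-- The variable `x_i` is free in the formula. -/
def Fml.Free (i : ℕ) : Fml → Prop
  | .eq s t => s.Occurs i ∨ t.Occurs i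
  | .not φ => φ.Free i
  | .and φ ψ => φ.Free i ∨ ψ.Free i
  | .or φ ψ => φ.Free i ∨ ψ.Free i
  | .imp φ ψ => φ.Free i ∨ ψ.Free i
  | .iff φ ψ => φ.Free i ∨ ψ.Free i
  | .all j φ => i ≠ j ∧ φ.Free i
  | .ex j φ => i ≠ j ∧ φ.Free i

/-- The variable `x_i` occurs in the formula, possibly only after a quantifier. -/
def Fml.Occurs (i : ℕ) : Fml → Prop
  | .eq s t => s.Occurs i ∨ t.Occurs i
  | .not φ => φ.Occurs i
  | .and φ ψ => φ.Occurs i ∨ ψ.Occurs i
  | .or φ ψ => φ.Occurs i ∨ ψ.Occurs i
  | .imp φ ψ => φ.Occurs i ∨ ψ.Occurs i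
  | .iff φ ψ => φ.Occurs i ∨ ψ.Occurs i
  | .all j φ => i = j ∨ φ.Occurs i
  | .ex j φ => i = j ∨ φ.Occurs i

/-- The number of different variables occurring in the formula. -/
noncomputable def Fml.numVars (φ : Fml) : ℕ := Set.ncard {i | φ.Occurs i}

/-- A sentence is a formula without free variables. -/
def Fml.IsSentence (φ : Fml) : Prop := ∀ i, ¬ φ.Free i

/-- The value of a term in a Boolean algebra. -/
def Term.eval {B : Type} [BooleanAlgebra B] (v : ℕ → B) : Term → B
  | .var i => v i
  | .zero => ⊥
  | .one => ⊤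
  | .compl t => (t.eval v)ᶜ
  | .inf s t => s.eval v ⊓ t.eval v
  | .sup s t => s.eval v ⊔ t.eval v

/-- Truth of a formula in a Boolean algebra under an assignment. -/
def Fml.Holds {B : Type} [BooleanAlgebra B] : Fml → (ℕ → B) → Prop
  | .eq s t, v => s.eval v = t.eval v
  | .not φ, v => ¬ φ.Holds v
  | .and φ ψ, v => φ.Holds v ∧ ψ.Holds v
  | .or φ ψ, v => φ.Holds v ∨ ψ.Holds v
  | .imp φ ψ, v => φ.Holds v → ψ.Holds v
  | .iff φ ψ, v => φ.Holds v ↔ ψ.Holds v
  | .all i φ, v => ∀ b : B, φ.Holds (Function.update v i b)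
  | .ex i φ, v => ∃ b : B, φ.Holds (Function.update v i b)

/-- The theory of finite Boolean algebras: the codes of the sentences which hold in every finite
Boolean algebra (the one-element algebra included). -/
def TFin : Set (List Sym) :=
  {w | ∃ φ : Fml, φ.IsSentence ∧ w = φ.code ∧
    ∀ (B : Type) [BooleanAlgebra B] [Finite B] (v : ℕ → B), φ.Holds v}

/-- The theory of finite Boolean algebras with `0 ≠ 1`. -/
def TFin' : Set (List Sym) :=
  {w | ∃ φ : Fml, φ.IsSentence ∧ w = φ.code ∧
    ∀ (B : Type) [BooleanAlgebra B] [Finite B] [Nontrivial B] (v : ℕ → B), φ.Holds v}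

/-- The class `DTIME (f n)`: the language `L` is decided by a deterministic machine (Mathlib's
`FinTM2`: finite control, finitely many stacks; two stacks are a tape, so this is the deterministic
multitape Turing machine up to a constant factor) within `C * f n` steps on words of length `n`. -/
def InDTIME {Γ : Type} (L : Set (List Γ)) (f : ℕ → ℝ) : Prop :=
  ∃ (d : List Γ → Bool) (M : TM2ComputableInTime (fun w : List Γ => w) encodeBool d) (C : ℝ),
    (∀ w, d w = true ↔ w ∈ L) ∧ ∀ n, (M.time n : ℝ) ≤ C * f n

/-- One machine decides `T`, within `2 ^ 2 ^ (K (n + 1) / log (n + 2))` steps on words of length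
`n`, and within `2 ^ (K n 2 ^ m)` steps on the code (of length `n`) of a formula with `m` different
variables. -/
def FastDecision (T : Set (List Sym)) : Prop :=
  ∃ (d : List Sym → Bool) (M : TM2ComputableInTime (fun w : List Sym => w) encodeBool d) (K : ℕ),
    (∀ w, d w = true ↔ w ∈ T) ∧
    (∀ n : ℕ, (M.time n : ℝ) ≤ 2 ^ ((2 : ℝ) ^ (K * (n + 1) / Real.log (n + 2)))) ∧
    ∀ φ : Fml, ∃ t ≤ 2 ^ (K * φ.code.length * 2 ^ φ.numVars),
      Nonempty (TM2OutputsInTime M.tm (φ.code.map M.inputAlphabet.invFun)
        (some ((encodeBool (d φ.code)).map M.outputAlphabet.invFun)) t)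

end Pool.Agent.FBA
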