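import Mathlib
import Pool.Agent.FBA.Defs

/-!
# Parsing from right to left
-/

set_option autoImplicit false

namespace Pool.Agent.FBA

/-- A term or a formula. -/
inductive Item : Type
  | tm (t : Term) : Item
  | fm (φ : Fml) : Item

/-- The code of a term or formula. -/
def Item.code : Item → List Sym
  | .tm t => t.code
  | .fm φ => φ.code

/-- The type: `true` for formulas. -/
def Item.ty : Item → Bool
  | .tm _ => false
  | .fm _ => true

/-- A default value. -/
def dft : Item := .tm .zero

/-- Leading digits. -/
def digs : List Sym → List Bool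
  | Sym.bit b :: x => b :: digs x
  | _ => []

/-- The number with given binary digits. -/
def val : List Bool → ℕ
  | [] => 0
  | b :: ds => Nat.bit b (val ds)

/-- The digits are a binary expansion (no leading zeros). -/
def Canon (ds : List Bool) : Prop := Nat.bits (val ds) = ds

instance (ds : List Bool) : Decidable (Canon ds) := inferInstanceAs (Decidable (_ = _))

theorem val_bits (i : ℕ) : val (Nat.bits i) = i := by
  induction i using Nat.binaryRec' with
  | zero => simp [val]
  | bit b n h ih => rw [Nat.bits_append_bit n b h, val, ih]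

theorem canon_bits (i : ℕ) : Canon (Nat.bits i) := by
  unfold Canon
  rw [val_bits]

theorem canon_iff (ds : List Bool) : Canon ds ↔ ds = [] ∨ ds.getLast? = some true := by
  induction ds with
  | nil => simp [Canon, val]
  | cons b ds ih =>
    have hval : ∀ ds : List Bool, Canon ds → val ds = 0 → ds = [] := by
      intro ds h h0
      unfold Canon at h
      rw [h0] at h
      simpa using h.symm
    constructor
    · intro h
      right
      by_cases h1 : val ds = 0 → b = true
      · have h2 := Nat.bits_append_bit (val ds) b h1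
        unfold Canon at h
        rw [val, h2] at h
        have h3 : Canon ds := (List.cons.inj h).2
        rcases ih.1 h3 with h4 | h4
        · subst h4
          simp [val] at h1
          simp [h1]
        · rw [List.getLast?_cons, h4]; rfl
      · push Not at h1
        obtain ⟨h1, h2⟩ := h1
        have h2' : b = false := by simpa using h2
        subst h2'
        unfold Canon at h
        rw [val, h1] at h
        simp at h
    · rintro (h | h)
      · simp at h
      · have h3 : ds = [] ∧ b = true ∨ Canon ds ∧ ds ≠ [] := by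
          rcases ds with _ | ⟨c, ds⟩
          · left; simpa using h
          · right
            refine ⟨ih.2 (Or.inr ?_), by simp⟩
            rwa [List.getLast?_cons_cons] at h
        rcases h3 with ⟨rfl, rfl⟩ | ⟨h3, h4⟩
        · simp [Canon, val]
        · unfold Canon at h3 ⊢
          rw [val, Nat.bits_append_bit (val ds) b (fun h0 => absurd (hval ds h3 h0) h4), h3]

/-- The symbol is a digit. -/
def Sym.isBit : Sym → Bool
  | .bit _ => true
  | _ => false

/-- The symbol is followed by a variable name. -/
def Sym.dg : Sym → Bool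
  | .var => true
  | .all => true
  | .ex => true
  | _ => false

/-- The number of arguments. -/
def Sym.ar : Sym → ℕ
  | .compl => 1
  | .not => 1
  | .all => 1
  | .ex => 1
  | .inf => 2
  | .sup => 2
  | .eq => 2
  | .and => 2
  | .or => 2
  | .imp => 2
  | .iff => 2
  | _ => 0

/-- The type of the arguments. -/
def Sym.argTy : Sym → Bool
  | .not => true
  | .all => true
  | .ex => true
  | .and => true
  | .or => true
  | .imp => true
  | .iff => true
  | _ => false

/-- The type of the result. -/
def Sym.resTy : Sym → Bool
  | .not => true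
  | .all => true
  | .ex => true
  | .and => true
  | .or => true
  | .imp => true
  | .iff => true
  | .eq => true
  | _ => false

/-- Combining the arguments. -/
def comb : Sym → ℕ → Item → Item → Item
  | .var, i, _, _ => .tm (.var i)
  | .zero, _, _, _ => .tm .zero
  | .one, _, _, _ => .tm .one
  | .compl, _, .tm t, _ => .tm (.compl t)
  | .inf, _, .tm s, .tm t => .tm (.inf s t)
  | .sup, _, .tm s, .tm t => .tm (.sup s t)
  | .eq, _, .tm s, .tm t => .fm (.eq s t)
  | .not, _, .fm φ, _ => .fm (.not φ)
  | .and, _, .fm φ, .fm ψ => .fm (.and φ ψ)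
  | .or, _, .fm φ, .fm ψ => .fm (.or φ ψ)
  | .imp, _, .fm φ, .fm ψ => .fm (.imp φ ψ)
  | .iff, _, .fm φ, .fm ψ => .fm (.iff φ ψ)
  | .all, i, .fm φ, _ => .fm (.all i φ)
  | .ex, i, .fm φ, _ => .fm (.ex i φ)
  | _, _, _, _ => dft

/-- The symbol can be processed. -/
def Okay (a : Sym) (ds : List Bool) (st : List Item) : Prop :=
  (if a.dg then Canon ds else ds = []) ∧ a.ar ≤ st.length ∧
    (0 < a.ar → (st.getD 0 dft).ty = a.argTy) ∧ (1 < a.ar → (st.getD 1 dft).ty = a.argTy)

instance (a : Sym) (ds : List Bool) (st : List Item) : Decidable (Okay a ds st) := by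
  unfold Okay; infer_instance

/-- Processing a symbol. -/
def stepR (a : Sym) (ds : List Bool) (st : List Item) : Option (List Item) :=
  if a.isBit then some st
  else if Okay a ds st then
    some (comb a (val ds) (st.getD 0 dft) (st.getD 1 dft) :: st.drop a.ar)
  else none

/-- Processing a word from right to left. -/
def run : List Sym → Option (List Item)
  | [] => some []
  | a :: x => (run x).bind (stepR a (digs x))

theorem digs_bin (ds : List Bool) (x : List Sym) : digs (ds.map Sym.bit ++ x) = ds ++ digs x := by
  induction ds with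
  | nil => rfl
  | cons b ds ih => simp [digs, ih]

theorem run_bin (ds : List Bool) (x : List Sym) : run (ds.map Sym.bit ++ x) = run x := by
  induction ds with
  | nil => rfl
  | cons b ds ih =>
    simp only [List.map_cons, List.cons_append, run, ih]
    cases h : run x <;> simp [stepR, Sym.isBit]

theorem digs_term (t : Term) (x : List Sym) : digs (t.code ++ x) = [] := by
  cases t <;> rfl

theorem digs_fml (φ : Fml) (x : List Sym) : digs (φ.code ++ x) = [] := by
  cases φ <;> rfl

theorem run_term : ∀ (t : Term) (x : List Sym) (st : List Item), run x = some st → digs x = [] →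
    run (t.code ++ x) = some (.tm t :: st)
  | .var i, x, st, h, hd => by
    simp only [Term.code, List.cons_append, bin, run, run_bin, h, digs_bin, hd, List.append_nil]
    simp [stepR, Sym.isBit, Okay, Sym.dg, Sym.ar, comb, val_bits, canon_bits]
  | .zero, x, st, h, hd => by
    simp only [Term.code, List.cons_append, List.nil_append, run, h, hd]
    simp [stepR, Sym.isBit, Okay, Sym.dg, Sym.ar, comb]
  | .one, x, st, h, hd => by
    simp only [Term.code, List.cons_append, List.nil_append, run, h, hd]
    simp [stepR, Sym.isBit, Okay, Sym.dg, Sym.ar, comb]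
  | .compl t, x, st, h, hd => by
    simp only [Term.code, List.cons_append, run, run_term t x st h hd, digs_term]
    simp [stepR, Sym.isBit, Okay, Sym.dg, Sym.ar, comb, Sym.argTy, Item.ty]
  | .inf s t, x, st, h, hd => by
    have h1 := run_term t x st h hd
    have h2 := run_term s (t.code ++ x) _ h1 (digs_term t x)
    simp only [Term.code, List.cons_append, List.append_assoc, run, h2, digs_term]
    simp [stepR, Sym.isBit, Okay, Sym.dg, Sym.ar, comb, Sym.argTy, Item.ty]
  | .sup s t, x, st, h, hd => by
    have h1 := run_term t x st h hd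
    have h2 := run_term s (t.code ++ x) _ h1 (digs_term t x)
    simp only [Term.code, List.cons_append, List.append_assoc, run, h2, digs_term]
    simp [stepR, Sym.isBit, Okay, Sym.dg, Sym.ar, comb, Sym.argTy, Item.ty]

theorem run_fml : ∀ (φ : Fml) (x : List Sym) (st : List Item), run x = some st → digs x = [] →
    run (φ.code ++ x) = some (.fm φ :: st)
  | .eq s t, x, st, h, hd => by
    have h1 := run_term t x st h hd
    have h2 := run_term s (t.code ++ x) _ h1 (digs_term t x)
    simp only [Fml.code, List.cons_append, List.append_assoc, run, h2, digs_term]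
    simp [stepR, Sym.isBit, Okay, Sym.dg, Sym.ar, comb, Sym.argTy, Item.ty]
  | .not φ, x, st, h, hd => by
    simp only [Fml.code, List.cons_append, run, run_fml φ x st h hd, digs_fml]
    simp [stepR, Sym.isBit, Okay, Sym.dg, Sym.ar, comb, Sym.argTy, Item.ty]
  | .and φ ψ, x, st, h, hd => by
    have h1 := run_fml ψ x st h hd
    have h2 := run_fml φ (ψ.code ++ x) _ h1 (digs_fml ψ x)
    simp only [Fml.code, List.cons_append, List.append_assoc, run, h2, digs_fml]
    simp [stepR, Sym.isBit, Okay, Sym.dg, Sym.ar, comb, Sym.argTy, Item.ty]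
  | .or φ ψ, x, st, h, hd => by
    have h1 := run_fml ψ x st h hd
    have h2 := run_fml φ (ψ.code ++ x) _ h1 (digs_fml ψ x)
    simp only [Fml.code, List.cons_append, List.append_assoc, run, h2, digs_fml]
    simp [stepR, Sym.isBit, Okay, Sym.dg, Sym.ar, comb, Sym.argTy, Item.ty]
  | .imp φ ψ, x, st, h, hd => by
    have h1 := run_fml ψ x st h hd
    have h2 := run_fml φ (ψ.code ++ x) _ h1 (digs_fml ψ x)
    simp only [Fml.code, List.cons_append, List.append_assoc, run, h2, digs_fml]
    simp [stepR, Sym.isBit, Okay, Sym.dg, Sym.ar, comb, Sym.argTy, Item.ty]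
  | .iff φ ψ, x, st, h, hd => by
    have h1 := run_fml ψ x st h hd
    have h2 := run_fml φ (ψ.code ++ x) _ h1 (digs_fml ψ x)
    simp only [Fml.code, List.cons_append, List.append_assoc, run, h2, digs_fml]
    simp [stepR, Sym.isBit, Okay, Sym.dg, Sym.ar, comb, Sym.argTy, Item.ty]
  | .all i φ, x, st, h, hd => by
    have h1 := run_fml φ x st h hd
    simp only [Fml.code, List.cons_append, List.append_assoc, bin, run, run_bin, h1, digs_bin,
      digs_fml, List.append_nil]
    simp [stepR, Sym.isBit, Okay, Sym.dg, Sym.ar, comb, val_bits, canon_bits, Sym.argTy, Item.ty]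
  | .ex i φ, x, st, h, hd => by
    have h1 := run_fml φ x st h hd
    simp only [Fml.code, List.cons_append, List.append_assoc, bin, run, run_bin, h1, digs_bin,
      digs_fml, List.append_nil]
    simp [stepR, Sym.isBit, Okay, Sym.dg, Sym.ar, comb, val_bits, canon_bits, Sym.argTy, Item.ty]

theorem code_comb {a : Sym} {ds : List Bool} {st : List Item} (ha : a.isBit = false)
    (h : Okay a ds st) : a :: (ds.map Sym.bit ++ (st.map Item.code).flatten) =
      (comb a (val ds) (st.getD 0 dft) (st.getD 1 dft)).code ++
        ((st.drop a.ar).map Item.code).flatten := by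
  obtain ⟨h1, h2, h3, h4⟩ := h
  cases a with
  | bit b => simp [Sym.isBit] at ha
  | var =>
    simp only [Sym.dg, if_true, Canon] at h1
    simp [comb, Item.code, Term.code, bin, h1, Sym.ar]
  | zero => simp [Sym.dg] at h1; subst h1; simp [comb, Item.code, Term.code, Sym.ar]
  | one => simp [Sym.dg] at h1; subst h1; simp [comb, Item.code, Term.code, Sym.ar]
  | compl =>
    simp only [Sym.dg, Sym.ar, Sym.argTy] at h1 h2 h3 h4
    rcases st with _ | ⟨_ | _, st⟩
    · simp at h2
    · simp at h1; subst h1; simp [comb, Item.code, Term.code, Sym.ar]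
    · simp [Item.ty] at h3
  | not =>
    simp only [Sym.dg, Sym.ar, Sym.argTy] at h1 h2 h3 h4
    rcases st with _ | ⟨_ | _, st⟩
    · simp at h2
    · simp [Item.ty] at h3
    · simp at h1; subst h1; simp [comb, Item.code, Fml.code, Sym.ar]
  | all =>
    simp only [Sym.dg, Sym.ar, Sym.argTy, if_true, Canon] at h1 h2 h3 h4
    rcases st with _ | ⟨_ | _, st⟩
    · simp at h2
    · simp [Item.ty] at h3
    · simp [comb, Item.code, Fml.code, bin, h1, Sym.ar]
  | ex =>
    simp only [Sym.dg, Sym.ar, Sym.argTy, if_true, Canon] at h1 h2 h3 h4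
    rcases st with _ | ⟨_ | _, st⟩
    · simp at h2
    · simp [Item.ty] at h3
    · simp [comb, Item.code, Fml.code, bin, h1, Sym.ar]
  | inf =>
    simp only [Sym.dg, Sym.ar, Sym.argTy] at h1 h2 h3 h4
    rcases st with _ | ⟨_ | _, _ | ⟨_ | _, st⟩⟩ <;> simp [Item.ty] at h2 h3 h4
    simp at h1; subst h1; simp [comb, Item.code, Term.code, Sym.ar]
  | sup =>
    simp only [Sym.dg, Sym.ar, Sym.argTy] at h1 h2 h3 h4
    rcases st with _ | ⟨_ | _, _ | ⟨_ | _, st⟩⟩ <;> simp [Item.ty] at h2 h3 h4
    simp at h1; subst h1; simp [comb, Item.code, Term.code, Sym.ar]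
  | eq =>
    simp only [Sym.dg, Sym.ar, Sym.argTy] at h1 h2 h3 h4
    rcases st with _ | ⟨_ | _, _ | ⟨_ | _, st⟩⟩ <;> simp [Item.ty] at h2 h3 h4
    simp at h1; subst h1; simp [comb, Item.code, Fml.code, Sym.ar]
  | and =>
    simp only [Sym.dg, Sym.ar, Sym.argTy] at h1 h2 h3 h4
    rcases st with _ | ⟨_ | _, _ | ⟨_ | _, st⟩⟩ <;> simp [Item.ty] at h2 h3 h4
    simp at h1; subst h1; simp [comb, Item.code, Fml.code, Sym.ar]
  | or =>
    simp only [Sym.dg, Sym.ar, Sym.argTy] at h1 h2 h3 h4
    rcases st with _ | ⟨_ | _, _ | ⟨_ | _, st⟩⟩ <;> simp [Item.ty] at h2 h3 h4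
    simp at h1; subst h1; simp [comb, Item.code, Fml.code, Sym.ar]
  | imp =>
    simp only [Sym.dg, Sym.ar, Sym.argTy] at h1 h2 h3 h4
    rcases st with _ | ⟨_ | _, _ | ⟨_ | _, st⟩⟩ <;> simp [Item.ty] at h2 h3 h4
    simp at h1; subst h1; simp [comb, Item.code, Fml.code, Sym.ar]
  | iff =>
    simp only [Sym.dg, Sym.ar, Sym.argTy] at h1 h2 h3 h4
    rcases st with _ | ⟨_ | _, _ | ⟨_ | _, st⟩⟩ <;> simp [Item.ty] at h2 h3 h4
    simp at h1; subst h1; simp [comb, Item.code, Fml.code, Sym.ar]

theorem digs_not_bit {a : Sym} (ha : a.isBit = false) (x : List Sym) : digs (a :: x) = [] := by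
  cases a <;> first | rfl | simp [Sym.isBit] at ha

/-- What is read is what the stack says. -/
theorem eq_of_run : ∀ (x : List Sym) (st : List Item), run x = some st →
    x = (digs x).map Sym.bit ++ (st.map Item.code).flatten
  | [], st, h => by
    simp only [run, Option.some.injEq] at h
    subst h
    simp [digs]
  | a :: x, st, h => by
    simp only [run, Option.bind_eq_some_iff] at h
    obtain ⟨st', h1, h2⟩ := h
    have ih := eq_of_run x st' h1
    unfold stepR at h2
    cases ha : a.isBit with
    | true =>
      cases a <;> simp [Sym.isBit] at ha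
      simp only [Sym.isBit, if_true, Option.some.injEq] at h2
      subst h2
      simp only [digs, List.map_cons, List.cons_append]
      rw [← ih]
    | false =>
      rw [if_neg (by simp [ha])] at h2
      split_ifs at h2 with hok
      simp only [Option.some.injEq] at h2
      subst h2
      rw [digs_not_bit ha]
      simp only [List.map_nil, List.nil_append, List.map_cons, List.flatten_cons]
      rw [← code_comb ha hok, ← ih]

/-- **Codes of formulas are recognised.** -/
theorem run_eq_iff (x : List Sym) (φ : Fml) : run x = some [.fm φ] ∧ digs x = [] ↔ x = φ.code := by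
  constructor
  · rintro ⟨h1, h2⟩
    have := eq_of_run x _ h1
    rw [h2] at this
    simpa [Item.code] using this
  · rintro rfl
    have h := run_fml φ [] [] rfl rfl
    have h2 := digs_fml φ []
    rw [List.append_nil] at h h2
    exact ⟨h, h2⟩

end Pool.Agent.FBA
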