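import Mathlib
import Pool.Agent.FBA.Defs

/-!
# Truth of formulas at truncated cell counts

`ρ` maps variables to bit positions; a cell is a number `c < 2 ^ m` (the bit `ρ i` of `c` tells
whether the cell is below `x_i`); a state is a number `s < Q ^ 2 ^ m` whose base-`Q` digits are the
truncated sizes of the cells.
-/

set_option autoImplicit false

namespace Pool.Agent.FBA

/-- The size of the cell `c` in the state `s`. -/
def dig (Q s c : ℕ) : ℕ := s / Q ^ c % Q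

/-- Two states agree after forgetting the variable with bit position `j`. -/
def Compat (m Q j s s' : ℕ) : Prop :=
  ∀ c < 2 ^ m, min (Q - 1) (dig Q s c + dig Q s (c ^^^ 2 ^ j)) =
    min (Q - 1) (dig Q s' c + dig Q s' (c ^^^ 2 ^ j))

/-- The value of a term on a cell. -/
def Term.cell (ρ : ℕ → ℕ) (c : ℕ) : Term → Bool
  | .var i => c.testBit (ρ i)
  | .zero => false
  | .one => true
  | .compl t => !(t.cell ρ c)
  | .inf s t => s.cell ρ c && t.cell ρ c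
  | .sup s t => s.cell ρ c || t.cell ρ c

/-- Truth of a formula in a state. -/
def Fml.tr (ρ : ℕ → ℕ) (m Q : ℕ) : Fml → ℕ → Prop
  | .eq s t, x => ∀ c < 2 ^ m, dig Q x c ≠ 0 → s.cell ρ c = t.cell ρ c
  | .not φ, x => ¬ φ.tr ρ m Q x
  | .and φ ψ, x => φ.tr ρ m Q x ∧ ψ.tr ρ m Q x
  | .or φ ψ, x => φ.tr ρ m Q x ∨ ψ.tr ρ m Q x
  | .imp φ ψ, x => φ.tr ρ m Q x → ψ.tr ρ m Q x
  | .iff φ ψ, x => φ.tr ρ m Q x ↔ ψ.tr ρ m Q x
  | .all i φ, x => ∀ x' < Q ^ 2 ^ m, Compat m Q (ρ i) x x' → φ.tr ρ m Q x'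
  | .ex i φ, x => ∃ x' < Q ^ 2 ^ m, Compat m Q (ρ i) x x' ∧ φ.tr ρ m Q x'

/-- Bit positions of the variables of a term. -/
def Term.fvr (ρ : ℕ → ℕ) (j : ℕ) : Term → Prop
  | .var i => j = ρ i
  | .zero => False
  | .one => False
  | .compl t => t.fvr ρ j
  | .inf s t => s.fvr ρ j ∨ t.fvr ρ j
  | .sup s t => s.fvr ρ j ∨ t.fvr ρ j

/-- Bit positions of the free variables of a formula. -/
def Fml.fvr (ρ : ℕ → ℕ) (j : ℕ) : Fml → Prop
  | .eq s t => s.fvr ρ j ∨ t.fvr ρ j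
  | .not φ => φ.fvr ρ j
  | .and φ ψ => φ.fvr ρ j ∨ ψ.fvr ρ j
  | .or φ ψ => φ.fvr ρ j ∨ ψ.fvr ρ j
  | .imp φ ψ => φ.fvr ρ j ∨ ψ.fvr ρ j
  | .iff φ ψ => φ.fvr ρ j ∨ ψ.fvr ρ j
  | .all i φ => j ≠ ρ i ∧ φ.fvr ρ j
  | .ex i φ => j ≠ ρ i ∧ φ.fvr ρ j

/-- Quantifier depth. -/
def Fml.qd : Fml → ℕ
  | .eq _ _ => 0
  | .not φ => φ.qd
  | .and φ ψ => max φ.qd ψ.qd
  | .or φ ψ => max φ.qd ψ.qd
  | .imp φ ψ => max φ.qd ψ.qd
  | .iff φ ψ => max φ.qd ψ.qd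
  | .all _ φ => φ.qd + 1
  | .ex _ φ => φ.qd + 1

end Pool.Agent.FBA
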