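import Mathlib
import Pool.Agent.FBA.Parse
import Pool.Agent.FBA.Tab

/-!
# Names of variables in a word, their ranks
-/

set_option autoImplicit false

namespace Pool.Agent.FBA

section L

variable (L : Sym → ℕ → Prop) (n : ℕ)

/-- A digit. -/
def isDig (p : ℕ) : Prop := L (.bit true) p ∨ L (.bit false) p

/-- A symbol which is followed by a name. -/
def occ (p : ℕ) : Prop := L .var p ∨ L .all p ∨ L .ex p

/-- There are at least `i` digits after position `q`. -/
def runs (q i : ℕ) : Prop := ∀ j < i, isDig L (q + 1 + j)

/-- The names following the positions `q` and `q'` are equal. -/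
def same (q q' : ℕ) : Prop := ∀ i < n, runs L q i → runs L q' i →
  ((L (.bit true) (q + 1 + i) ↔ L (.bit true) (q' + 1 + i)) ∧
    (L (.bit false) (q + 1 + i) ↔ L (.bit false) (q' + 1 + i)))

/-- First occurrence of a name. -/
def first (q : ℕ) : Prop := occ L q ∧ ∀ q' < q, occ L q' → ¬ same L n q' q

open Classical in
/-- The number of names. -/
noncomputable def numN : ℕ := ∑ q ∈ Finset.range n, if first L n q then 1 else 0

open Classical in
/-- The rank of the name following position `p`. -/
noncomputable def rkL (p : ℕ) : ℕ :=
  ∑ q ∈ Finset.range n, if first L n q ∧ ∀ q' < q + 1, occ L q' → ¬ same L n q' p then 1 else 0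

/-- The name following `p` is a binary expansion. -/
def canonL (p : ℕ) : Prop := ∀ i < n, runs L p (i + 1) → ¬ isDig L (p + 1 + (i + 1)) →
  L (.bit true) (p + 1 + i)

end L

/-- The letters of a word. -/
def Lx (x : List Sym) (a : Sym) (p : ℕ) : Prop := x[p]? = some a

/-- The name following position `q`. -/
def nm (x : List Sym) (q : ℕ) : List Bool := digs (x.drop (q + 1))

theorem digs_getElem? (b : Bool) : ∀ (y : List Sym) (i : ℕ), (digs y)[i]? = some b ↔
    (∀ j < i, isDig (Lx y) j) ∧ Lx y (.bit b) i
  | [], i => by simp [digs, Lx]
  | a :: y, i => by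
    cases ha : a.isBit with
    | false =>
      have h1 : digs (a :: y) = [] := digs_not_bit ha y
      rw [h1]
      constructor
      · intro h; simp at h
      · rintro ⟨h2, h3⟩
        exfalso
        rcases i with _ | i
        · simp only [Lx, List.getElem?_cons_zero, Option.some.injEq] at h3
          rw [h3] at ha; simp [Sym.isBit] at ha
        · have := h2 0 (Nat.succ_pos _)
          simp only [isDig, Lx, List.getElem?_cons_zero, Option.some.injEq] at this
          rcases this with h | h <;> · rw [h] at ha; simp [Sym.isBit] at ha
    | true =>
      cases a <;> simp [Sym.isBit] at ha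
      rename_i c
      rcases i with _ | i
      · simp [digs, Lx]
      · have ih := digs_getElem? b y i
        simp only [digs, List.getElem?_cons_succ, ih, Lx]
        constructor
        · rintro ⟨h1, h2⟩
          refine ⟨fun j hj => ?_, h2⟩
          rcases j with _ | j
          · cases c
            · right; simp [Lx]
            · left; simp [Lx]
          · have := h1 j (by omega)
            simpa [isDig, Lx] using this
        · rintro ⟨h1, h2⟩
          refine ⟨fun j hj => ?_, h2⟩
          have := h1 (j + 1) (by omega)
          simpa [isDig, Lx] using this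

theorem nm_getElem? (x : List Sym) (q i : ℕ) (b : Bool) : (nm x q)[i]? = some b ↔
    runs (Lx x) q i ∧ Lx x (.bit b) (q + 1 + i) := by
  unfold nm
  rw [digs_getElem?]
  simp only [runs, isDig, Lx, List.getElem?_drop]

theorem runs_iff (x : List Sym) (q i : ℕ) : runs (Lx x) q i ↔ i ≤ (nm x q).length := by
  induction i with
  | zero => simp [runs]
  | succ i ih =>
    have h1 : runs (Lx x) q (i + 1) ↔ runs (Lx x) q i ∧ isDig (Lx x) (q + 1 + i) := by
      constructor
      · intro h
        exact ⟨fun j hj => h j (by omega), h i (by omega)⟩
      · rintro ⟨h1, h2⟩ j hj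
        rcases Nat.lt_succ_iff_lt_or_eq.1 hj with h | h
        · exact h1 j h
        · subst h; exact h2
    rw [h1]
    constructor
    · rintro ⟨h2, h3 | h3⟩
      · have := (nm_getElem? x q i true).2 ⟨h2, h3⟩
        have := (List.getElem?_eq_some_iff.1 this).1
        omega
      · have := (nm_getElem? x q i false).2 ⟨h2, h3⟩
        have := (List.getElem?_eq_some_iff.1 this).1
        omega
    · intro h
      refine ⟨ih.2 (by omega), ?_⟩
      have h2 : (nm x q)[i]? = some (nm x q)[i] := List.getElem?_eq_getElem (by omega)
      cases hb : (nm x q)[i] with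
      | true => rw [hb] at h2; exact Or.inl ((nm_getElem? x q i true).1 h2).2
      | false => rw [hb] at h2; exact Or.inr ((nm_getElem? x q i false).1 h2).2

theorem nm_length_le (x : List Sym) (q : ℕ) : q + (nm x q).length ≤ max q (x.length - 1) := by
  have h := (runs_iff x q (nm x q).length).2 le_rfl
  by_cases h0 : (nm x q).length = 0
  · omega
  · have h1 := h ((nm x q).length - 1) (by omega)
    have h2 : q + 1 + ((nm x q).length - 1) < x.length := by
      rcases h1 with h1 | h1
      · exact (List.getElem?_eq_some_iff.1 h1).1
      · exact (List.getElem?_eq_some_iff.1 h1).1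
    omega

theorem nm_length_lt {x : List Sym} {q : ℕ} (hq : q < x.length) : (nm x q).length < x.length := by
  have := nm_length_le x q
  omega

theorem same_iff {x : List Sym} {q q' : ℕ} (hq : q < x.length) (hq' : q' < x.length) :
    same (Lx x) x.length q q' ↔ nm x q = nm x q' := by
  have key : ∀ q : ℕ, q < x.length → ∀ i b, (nm x q)[i]? = some b ↔
      i ≤ (nm x q).length ∧ Lx x (.bit b) (q + 1 + i) := by
    intro q _ i b
    rw [nm_getElem?, runs_iff]
  constructor
  · intro h
    have hstep : ∀ i, i ≤ (nm x q).length ↔ i ≤ (nm x q').length := by
      intro i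
      induction i with
      | zero => simp
      | succ i ih =>
        by_cases hi : i ≤ (nm x q).length
        · have hi' := ih.1 hi
          have hin : i < x.length := lt_of_le_of_lt hi (nm_length_lt hq)
          obtain ⟨h1, h2⟩ := h i hin ((runs_iff x q i).2 hi) ((runs_iff x q' i).2 hi')
          have e1 : (i + 1 ≤ (nm x q).length) ↔ isDig (Lx x) (q + 1 + i) := by
            rw [← runs_iff]
            constructor
            · intro h; exact h i (by omega)
            · intro h j hj
              rcases Nat.lt_succ_iff_lt_or_eq.1 hj with h' | h'
              · exact (runs_iff x q i).2 hi j h'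
              · subst h'; exact h
          have e2 : (i + 1 ≤ (nm x q').length) ↔ isDig (Lx x) (q' + 1 + i) := by
            rw [← runs_iff]
            constructor
            · intro h; exact h i (by omega)
            · intro h j hj
              rcases Nat.lt_succ_iff_lt_or_eq.1 hj with h' | h'
              · exact (runs_iff x q' i).2 hi' j h'
              · subst h'; exact h
          rw [e1, e2]
          unfold isDig
          rw [h1, h2]
        · have hi' : ¬ i ≤ (nm x q').length := fun h' => hi (ih.2 h')
          omega
    have hlen : (nm x q).length = (nm x q').length := by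
      have h1 := (hstep (nm x q).length).1 le_rfl
      have h2 := (hstep (nm x q').length).2 le_rfl
      omega
    apply List.ext_getElem hlen
    intro i hi hi'
    have hin : i < x.length := lt_of_lt_of_le hi (nm_length_lt hq).le
    obtain ⟨h1, h2⟩ := h i hin ((runs_iff x q i).2 hi.le) ((runs_iff x q' i).2 hi'.le)
    have e1 : (nm x q)[i]? = some (nm x q)[i] := List.getElem?_eq_getElem hi
    have e3 : (nm x q')[i]? = some (nm x q)[i] := by
      rw [key q' hq']
      refine ⟨hi'.le, ?_⟩
      have e4 := ((key q hq i _).1 e1).2
      cases hb : (nm x q)[i] with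
      | true => rw [hb] at e4; exact h1.1 e4
      | false => rw [hb] at e4; exact h2.1 e4
    have e2 : (nm x q')[i]? = some (nm x q')[i] := List.getElem?_eq_getElem hi'
    rw [e2] at e3
    exact (Option.some.inj e3).symm
  · intro h i _ h1 h2
    have e : ∀ b, (Lx x (.bit b) (q + 1 + i) ↔ Lx x (.bit b) (q' + 1 + i)) := by
      intro b
      have k1 := nm_getElem? x q i b
      have k2 := nm_getElem? x q' i b
      rw [h] at k1
      constructor
      · intro h3; exact (k2.1 (k1.2 ⟨h1, h3⟩)).2
      · intro h3; exact (k1.1 (k2.2 ⟨h2, h3⟩)).2
    exact ⟨e true, e false⟩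

theorem isDig_iff (x : List Sym) (q : ℕ) : isDig (Lx x) (q + 1) ↔ nm x q ≠ [] := by
  have h := runs_iff x q 1
  rw [← List.length_pos_iff]
  constructor
  · intro h1
    have : runs (Lx x) q 1 := by
      intro j hj
      obtain rfl : j = 0 := by omega
      exact h1
    have := h.1 this
    omega
  · intro h1
    exact h.2 (by omega) 0 (by omega)

theorem canonL_iff {x : List Sym} {q : ℕ} (hq : q < x.length) :
    canonL (Lx x) x.length q ↔ Canon (nm x q) := by
  rw [canon_iff]
  by_cases h0 : nm x q = []
  · simp only [h0, true_or, iff_true]
    intro i _ h1 _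
    rw [runs_iff, h0] at h1
    simp at h1
  · simp only [h0, false_or]
    have hpos : 0 < (nm x q).length := List.length_pos_iff.2 h0
    set l := (nm x q).length with hl
    have hlast : (nm x q).getLast? = (nm x q)[l - 1]? := by
      rw [List.getLast?_eq_getElem?]
    rw [hlast, nm_getElem?]
    constructor
    · intro h
      refine ⟨(runs_iff x q _).2 (by omega), ?_⟩
      have h1 := h (l - 1) (by have := nm_length_lt hq; omega) ((runs_iff x q _).2 (by omega)) (by
        intro h2
        have h3 : runs (Lx x) q (l + 1) := by
          intro j hj
          rcases Nat.lt_succ_iff_lt_or_eq.1 hj with h' | h'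
          · exact (runs_iff x q l).2 le_rfl j h'
          · have e : q + 1 + j = q + 1 + (l - 1 + 1) := by omega
            rw [e]
            exact h2
        have := (runs_iff x q _).1 h3
        omega)
      exact h1
    · rintro ⟨_, h2⟩ i hi h3 h4
      have h5 := (runs_iff x q _).1 h3
      have h6 : i = l - 1 := by
        by_contra hne
        apply h4
        exact (runs_iff x q l).2 le_rfl (i + 1) (by omega)
      rw [h6]; exact h2

end Pool.Agent.FBA
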