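import Mathlib
import Pool.Agent.FBA.Names

/-!
# Ranks of names
-/

set_option autoImplicit false

namespace Pool.Agent.FBA

open Classical in
/-- The rank of the name `w` in the word `x`. -/
noncomputable def rkN (x : List Sym) (w : List Bool) : ℕ :=
  ((Finset.range x.length).filter (fun q => first (Lx x) x.length q ∧
    ∀ q' < q + 1, occ (Lx x) q' → nm x q' ≠ w)).card

/-- The number of names of the word `x`. -/
noncomputable def mX (x : List Sym) : ℕ := numN (Lx x) x.length

/-- The rank of the variable `x_i`. -/
noncomputable def rhoX (x : List Sym) (i : ℕ) : ℕ := rkN x (Nat.bits i)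

theorem rkL_eq {x : List Sym} {p : ℕ} (hp : p < x.length) :
    rkL (Lx x) x.length p = rkN x (nm x p) := by
  classical
  unfold rkL rkN
  rw [Finset.card_filter]
  refine Finset.sum_congr rfl fun q hq => ?_
  have hq := Finset.mem_range.1 hq
  have e : (first (Lx x) x.length q ∧ ∀ q' < q + 1, occ (Lx x) q' → ¬ same (Lx x) x.length q' p) ↔
      (first (Lx x) x.length q ∧ ∀ q' < q + 1, occ (Lx x) q' → nm x q' ≠ nm x p) := by
    refine and_congr Iff.rfl (forall_congr' fun q' => ?_)
    refine imp_congr_right fun hq' => imp_congr_right fun _ => ?_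
    rw [same_iff (by omega) hp]
  simp only [e]

theorem mX_eq (x : List Sym) [DecidablePred (first (Lx x) x.length)] :
    mX x = ((Finset.range x.length).filter (first (Lx x) x.length)).card := by
  classical
  unfold mX numN
  rw [Finset.card_filter]
  refine Finset.sum_congr rfl fun q _ => ?_
  congr

/-- The name `w` occurs in `x`. -/
def HasN (x : List Sym) (w : List Bool) : Prop := ∃ q, occ (Lx x) q ∧ nm x q = w

theorem occ_lt {x : List Sym} {q : ℕ} (h : occ (Lx x) q) : q < x.length := by
  rcases h with h | h | h <;> exact (List.getElem?_eq_some_iff.1 h).1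

theorem exists_first {x : List Sym} {w : List Bool} (h : HasN x w) :
    ∃ q, q < x.length ∧ first (Lx x) x.length q ∧ nm x q = w ∧
      ∀ q' < q, occ (Lx x) q' → nm x q' ≠ w := by
  classical
  have hf := Nat.find_spec h
  have hmin : ∀ q' < Nat.find h, occ (Lx x) q' → nm x q' ≠ w := fun q' hq' ho hn =>
    Nat.find_min h hq' ⟨ho, hn⟩
  have hlt := occ_lt hf.1
  refine ⟨Nat.find h, hlt, ⟨hf.1, fun q' hq' ho hs => ?_⟩, hf.2, hmin⟩
  rw [same_iff (by omega) hlt, hf.2] at hs
  exact hmin q' hq' ho hs

open Classical in
theorem rkN_eq {x : List Sym} {w : List Bool} {qw : ℕ} (ho : occ (Lx x) qw) (hn : nm x qw = w)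
    (hmin : ∀ q' < qw, occ (Lx x) q' → nm x q' ≠ w) :
    rkN x w = (((Finset.range x.length).filter (first (Lx x) x.length)).filter (· < qw)).card := by
  unfold rkN
  congr 1
  ext q
  simp only [Finset.mem_filter, Finset.mem_range]
  constructor
  · rintro ⟨h1, h2, h3⟩
    refine ⟨⟨h1, h2⟩, ?_⟩
    by_contra hcon
    exact h3 qw (by omega) ho hn
  · rintro ⟨⟨h1, h2⟩, h3⟩
    exact ⟨h1, h2, fun q' hq' ho' => hmin q' (by omega) ho'⟩

theorem rkN_lt {x : List Sym} {w : List Bool} (h : HasN x w) : rkN x w < mX x := by
  classical
  obtain ⟨qw, h1, h2, h3, h4⟩ := exists_first h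
  rw [rkN_eq h2.1 h3 h4, mX_eq]
  apply Finset.card_lt_card
  rw [Finset.ssubset_iff_of_subset (Finset.filter_subset _ _)]
  exact ⟨qw, Finset.mem_filter.2 ⟨Finset.mem_range.2 h1, h2⟩, by simp⟩

theorem rkN_inj {x : List Sym} {w w' : List Bool} (h : HasN x w) (h' : HasN x w')
    (he : rkN x w = rkN x w') : w = w' := by
  classical
  obtain ⟨q, h1, h2, h3, h4⟩ := exists_first h
  obtain ⟨q', h1', h2', h3', h4'⟩ := exists_first h'
  rw [rkN_eq h2.1 h3 h4, rkN_eq h2'.1 h3' h4'] at he
  have key : ∀ q q' : ℕ, q < x.length → first (Lx x) x.length q → q < q' →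
      (((Finset.range x.length).filter (first (Lx x) x.length)).filter (· < q)).card <
      (((Finset.range x.length).filter (first (Lx x) x.length)).filter (· < q')).card := by
    intro q q' hq hf hlt
    apply Finset.card_lt_card
    rw [Finset.ssubset_iff_of_subset (Finset.monotone_filter_right _ (fun y _ hy =>
      lt_trans hy hlt))]
    exact ⟨q, Finset.mem_filter.2 ⟨Finset.mem_filter.2 ⟨Finset.mem_range.2 hq, hf⟩, hlt⟩, by simp⟩
  rcases lt_trichotomy q q' with hlt | heq | hlt
  · have := key q q' h1 h2 hlt
    omega
  · rw [← h3, ← h3', heq]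
  · have := key q' q h1' h2' hlt
    omega

/-! ### Names of variables of a formula -/

theorem HasN.cons {x : List Sym} {w : List Bool} (h : HasN x w) (a : Sym) : HasN (a :: x) w := by
  obtain ⟨q, h1, h2⟩ := h
  refine ⟨q + 1, ?_, by simpa [nm] using h2⟩
  simpa [occ, Lx] using h1

theorem HasN.append {x : List Sym} {w : List Bool} (h : HasN x w) (l : List Sym) :
    HasN (l ++ x) w := by
  induction l with
  | nil => exact h
  | cons a l ih => exact ih.cons a

theorem hasN_term {i : ℕ} : ∀ (t : Term) (_ : t.Occurs i) (y : List Sym) (_ : digs y = []),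
    HasN (t.code ++ y) (Nat.bits i)
  | .var j, h, y, hy => by
    obtain rfl : i = j := h
    refine ⟨0, Or.inl (by simp [Lx, Term.code]), ?_⟩
    simp [nm, Term.code, bin, digs_bin, hy]
  | .compl t, h, y, hy => (hasN_term t h y hy).cons _
  | .inf s t, h, y, hy => by
    simp only [Term.code, List.cons_append, List.append_assoc]
    rcases h with h | h
    · exact (hasN_term s h _ (digs_term t y)).cons _
    · exact ((hasN_term t h y hy).append _).cons _
  | .sup s t, h, y, hy => by
    simp only [Term.code, List.cons_append, List.append_assoc]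
    rcases h with h | h
    · exact (hasN_term s h _ (digs_term t y)).cons _
    · exact ((hasN_term t h y hy).append _).cons _

theorem hasN_fml {i : ℕ} : ∀ (φ : Fml) (_ : φ.Occurs i) (y : List Sym) (_ : digs y = []),
    HasN (φ.code ++ y) (Nat.bits i)
  | .eq s t, h, y, hy => by
    simp only [Fml.code, List.cons_append, List.append_assoc]
    rcases h with h | h
    · exact (hasN_term s h _ (digs_term t y)).cons _
    · exact ((hasN_term t h y hy).append _).cons _
  | .not φ, h, y, hy => (hasN_fml φ h y hy).cons _
  | .and φ ψ, h, y, hy => by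
    simp only [Fml.code, List.cons_append, List.append_assoc]
    rcases h with h | h
    · exact (hasN_fml φ h _ (digs_fml ψ y)).cons _
    · exact ((hasN_fml ψ h y hy).append _).cons _
  | .or φ ψ, h, y, hy => by
    simp only [Fml.code, List.cons_append, List.append_assoc]
    rcases h with h | h
    · exact (hasN_fml φ h _ (digs_fml ψ y)).cons _
    · exact ((hasN_fml ψ h y hy).append _).cons _
  | .imp φ ψ, h, y, hy => by
    simp only [Fml.code, List.cons_append, List.append_assoc]
    rcases h with h | h
    · exact (hasN_fml φ h _ (digs_fml ψ y)).cons _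
    · exact ((hasN_fml ψ h y hy).append _).cons _
  | .iff φ ψ, h, y, hy => by
    simp only [Fml.code, List.cons_append, List.append_assoc]
    rcases h with h | h
    · exact (hasN_fml φ h _ (digs_fml ψ y)).cons _
    · exact ((hasN_fml ψ h y hy).append _).cons _
  | .all j φ, h, y, hy => by
    simp only [Fml.code, List.cons_append, List.append_assoc]
    rcases h with h | h
    · subst h
      refine ⟨0, Or.inr (Or.inl (by simp [Lx])), ?_⟩
      simp [nm, bin, digs_bin, digs_fml]
    · exact ((hasN_fml φ h y hy).append _).cons _
  | .ex j φ, h, y, hy => by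
    simp only [Fml.code, List.cons_append, List.append_assoc]
    rcases h with h | h
    · subst h
      refine ⟨0, Or.inr (Or.inr (by simp [Lx])), ?_⟩
      simp [nm, bin, digs_bin, digs_fml]
    · exact ((hasN_fml φ h y hy).append _).cons _

theorem rhoX_lt {φ : Fml} {i : ℕ} (h : φ.Occurs i) : rhoX φ.code i < mX φ.code := by
  have h1 := hasN_fml φ h [] rfl
  rw [List.append_nil] at h1
  exact rkN_lt h1

theorem bits_injective : Function.Injective Nat.bits := by
  intro a b h
  rw [← val_bits a, ← val_bits b, h]

theorem rhoX_inj (φ : Fml) : Set.InjOn (rhoX φ.code) {i | φ.Occurs i} := by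
  intro i hi j hj h
  have h1 := hasN_fml φ hi [] rfl
  have h2 := hasN_fml φ hj [] rfl
  rw [List.append_nil] at h1 h2
  exact bits_injective (rkN_inj h1 h2 h)

/-! ### The number of names -/

/-- The names in a word. -/
def names : List Sym → List (List Bool)
  | [] => []
  | a :: x => if a.dg then digs x :: names x else names x

theorem hasN_mem_names : ∀ (x : List Sym) (w : List Bool), HasN x w → w ∈ names x
  | [], w, h => by
    obtain ⟨q, h1, _⟩ := h
    simpa using occ_lt h1
  | a :: x, w, h => by
    obtain ⟨q, h1, h2⟩ := h
    rcases q with _ | q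
    · have hd : a.dg = true := by
        rcases h1 with h | h | h <;>
        · simp only [Lx, List.getElem?_cons_zero, Option.some.injEq] at h
          rw [h]; rfl
      simp only [names, hd, if_true]
      rw [← h2]
      simp [nm]
    · have h3 : HasN x w := ⟨q, by simpa [occ, Lx] using h1, by simpa [nm] using h2⟩
      have h4 := hasN_mem_names x w h3
      simp only [names]
      split_ifs
      · exact List.mem_cons_of_mem _ h4
      · exact h4

theorem names_sum : ∀ x : List Sym, ((names x).map (fun w => w.length + 1)).sum +
    (digs x).length ≤ x.length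
  | [] => by simp [names, digs]
  | a :: x => by
    have ih := names_sum x
    cases hb : a.isBit with
    | true =>
      cases a <;> simp [Sym.isBit] at hb
      simp only [names, Sym.dg, Bool.false_eq_true, if_false, digs, List.length_cons]
      omega
    | false =>
      rw [digs_not_bit hb]
      simp only [names]
      split_ifs
      · simp only [List.map_cons, List.sum_cons, List.length_nil, List.length_cons]
        omega
      · simp only [List.length_nil, List.length_cons]
        omega

/-- Words as numbers with a leading digit `1`. -/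
def enc : List Bool → ℕ
  | [] => 1
  | b :: ds => Nat.bit b (enc ds)

theorem enc_lt : ∀ ds : List Bool, enc ds < 2 ^ (ds.length + 1)
  | [] => by simp [enc]
  | b :: ds => by
    have := enc_lt ds
    simp only [enc, List.length_cons, Nat.bit_val]
    have h2 : b.toNat ≤ 1 := Bool.toNat_le b
    rw [pow_succ]
    omega

theorem enc_pos : ∀ ds : List Bool, 0 < enc ds
  | [] => by simp [enc]
  | b :: ds => by
    have := enc_pos ds
    simp only [enc, Nat.bit_val]
    omega

theorem enc_inj : ∀ ds ds' : List Bool, enc ds = enc ds' → ds = ds'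
  | [], [], _ => rfl
  | [], b :: ds, h => by
    have := enc_pos ds
    simp only [enc, Nat.bit_val] at h
    omega
  | b :: ds, [], h => by
    have := enc_pos ds
    simp only [enc, Nat.bit_val] at h
    omega
  | b :: ds, b' :: ds', h => by
    simp only [enc, Nat.bit_val] at h
    have h1 : enc ds = enc ds' ∧ b = b' := by
      cases b <;> cases b' <;> simp at h ⊢ <;> omega
    rw [enc_inj ds ds' h1.1, h1.2]

theorem card_short_le (s : Finset (List Bool)) (k : ℕ) (h : ∀ w ∈ s, w.length < k) :
    s.card ≤ 2 ^ k := by
  rw [← Finset.card_range (2 ^ k)]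
  apply Finset.card_le_card_of_injOn enc
  · intro w hw
    rw [Finset.coe_range, Set.mem_Iio]
    have h1 := enc_lt w
    have h2 := h w hw
    exact lt_of_lt_of_le h1 (Nat.pow_le_pow_right (by norm_num) (by omega))
  · intro a _ b _ hab
    exact enc_inj a b hab

theorem sum_dedup_le (l : List (List Bool)) (f : List Bool → ℕ) :
    ∑ w ∈ l.toFinset, f w ≤ (l.map f).sum := by
  induction l with
  | nil => simp
  | cons a l ih =>
    simp only [List.toFinset_cons, List.map_cons, List.sum_cons]
    by_cases h : a ∈ l.toFinset
    · rw [Finset.insert_eq_of_mem h]; omega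
    · rw [Finset.sum_insert h]; omega

/-- **The number of names is small.** -/
theorem mX_le (x : List Sym) (k : ℕ) : mX x ≤ 2 ^ k + x.length / (k + 1) := by
  classical
  have h1 : mX x ≤ (names x).toFinset.card := by
    rw [mX_eq]
    apply Finset.card_le_card_of_injOn (nm x)
    · intro q hq
      have hq' := (Finset.mem_filter.1 (Finset.mem_coe.1 hq)).2
      exact Finset.mem_coe.2 (List.mem_toFinset.2 (hasN_mem_names x _ ⟨q, hq'.1, rfl⟩))
    · intro q hq q' hq' he
      have hq1 := Finset.mem_filter.1 (Finset.mem_coe.1 hq)
      have hq2 := Finset.mem_filter.1 (Finset.mem_coe.1 hq')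
      have l1 := Finset.mem_range.1 hq1.1
      have l2 := Finset.mem_range.1 hq2.1
      rcases lt_trichotomy q q' with hlt | heq | hlt
      · exact absurd ((same_iff l1 l2).2 he) (hq2.2.2 q hlt hq1.2.1)
      · exact heq
      · exact absurd ((same_iff l2 l1).2 he.symm) (hq1.2.2 q' hlt hq2.2.1)
  set S := (names x).toFinset with hS
  have h2 : S.card = (S.filter (fun w => w.length < k)).card +
      (S.filter (fun w => ¬ w.length < k)).card :=
    (Finset.card_filter_add_card_filter_not (s := S) (fun w => w.length < k)).symm
  have h3 : (S.filter (fun w => w.length < k)).card ≤ 2 ^ k :=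
    card_short_le _ k fun w hw => (Finset.mem_filter.1 hw).2
  have h4 : (S.filter (fun w => ¬ w.length < k)).card * (k + 1) ≤ x.length := by
    have h5 : (S.filter (fun w => ¬ w.length < k)).card * (k + 1) ≤
        ∑ w ∈ S.filter (fun w => ¬ w.length < k), (w.length + 1) := by
      rw [← smul_eq_mul, ← Finset.sum_const]
      refine Finset.sum_le_sum fun w hw => ?_
      have := (Finset.mem_filter.1 hw).2
      omega
    have h6 : ∑ w ∈ S.filter (fun w => ¬ w.length < k), (w.length + 1) ≤
        ∑ w ∈ S, (w.length + 1) := Finset.sum_le_sum_of_subset (Finset.filter_subset _ _)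
    have h7 : ∑ w ∈ S, (w.length + 1) ≤ ((names x).map (fun w => w.length + 1)).sum := by
      have h7 := sum_dedup_le (names x) (fun w => w.length + 1)
      convert h7
    have h8 := names_sum x
    omega
  have h9 : (S.filter (fun w => ¬ w.length < k)).card ≤ x.length / (k + 1) :=
    (Nat.le_div_iff_mul_le (Nat.succ_pos k)).2 h4
  omega

end Pool.Agent.FBA
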