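import Mathlib
import Pool.Agent.FBA.Names2

/-!
# Bounds
-/

set_option autoImplicit false

namespace Pool.Agent.FBA

/-! ### Names and variables -/

theorem mX_le_names (x : List Sym) : mX x ≤ (names x).toFinset.card := by
  classical
  rw [mX_eq]
  apply Finset.card_le_card_of_injOn (nm x)
  · intro q hq
    have hq' := (Finset.mem_filter.1 (Finset.mem_coe.1 hq)).2
    exact Finset.mem_coe.2 (List.mem_toFinset.2 (hasN_mem_names x _ ⟨q, hq'.1, rfl⟩))
  · intro q hq q' hq' he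
    have hq1 := Finset.mem_filter.1 (Finset.mem_coe.1 hq)
    have hq2 := Finset.mem_filter.1 (Finset.mem_coe.1 hq')
    have l1 := Finset.mem_range.1 hq1.1
    have l2 := Finset.mem_range.1 hq2.1
    rcases lt_trichotomy q q' with hlt | heq | hlt
    · exact absurd ((same_iff l1 l2).2 he) (hq2.2.2 q hlt hq1.2.1)
    · exact heq
    · exact absurd ((same_iff l2 l1).2 he.symm) (hq1.2.2 q' hlt hq2.2.1)

/-- The variables of a term. -/
def Term.vl : Term → List ℕ
  | .var i => [i]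
  | .zero => []
  | .one => []
  | .compl t => t.vl
  | .inf s t => s.vl ++ t.vl
  | .sup s t => s.vl ++ t.vl

/-- The variables of a formula. -/
def Fml.vl : Fml → List ℕ
  | .eq s t => s.vl ++ t.vl
  | .not φ => φ.vl
  | .and φ ψ => φ.vl ++ ψ.vl
  | .or φ ψ => φ.vl ++ ψ.vl
  | .imp φ ψ => φ.vl ++ ψ.vl
  | .iff φ ψ => φ.vl ++ ψ.vl
  | .all i φ => i :: φ.vl
  | .ex i φ => i :: φ.vl

theorem Term.mem_vl {i : ℕ} : ∀ {t : Term}, i ∈ t.vl ↔ t.Occurs i
  | .var j => by simp [Term.vl, Term.Occurs]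
  | .zero => by simp [Term.vl, Term.Occurs]
  | .one => by simp [Term.vl, Term.Occurs]
  | .compl t => Term.mem_vl (t := t)
  | .inf s t => by simp [Term.vl, Term.Occurs, Term.mem_vl (t := s), Term.mem_vl (t := t)]
  | .sup s t => by simp [Term.vl, Term.Occurs, Term.mem_vl (t := s), Term.mem_vl (t := t)]

theorem Fml.mem_vl {i : ℕ} : ∀ {φ : Fml}, i ∈ φ.vl ↔ φ.Occurs i
  | .eq s t => by simp [Fml.vl, Fml.Occurs, Term.mem_vl]
  | .not φ => Fml.mem_vl (φ := φ)
  | .and φ ψ => by simp [Fml.vl, Fml.Occurs, Fml.mem_vl (φ := φ), Fml.mem_vl (φ := ψ)]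
  | .or φ ψ => by simp [Fml.vl, Fml.Occurs, Fml.mem_vl (φ := φ), Fml.mem_vl (φ := ψ)]
  | .imp φ ψ => by simp [Fml.vl, Fml.Occurs, Fml.mem_vl (φ := φ), Fml.mem_vl (φ := ψ)]
  | .iff φ ψ => by simp [Fml.vl, Fml.Occurs, Fml.mem_vl (φ := φ), Fml.mem_vl (φ := ψ)]
  | .all j φ => by simp [Fml.vl, Fml.Occurs, Fml.mem_vl (φ := φ)]
  | .ex j φ => by simp [Fml.vl, Fml.Occurs, Fml.mem_vl (φ := φ)]

theorem names_bits (ds : List Bool) (y : List Sym) : names (ds.map Sym.bit ++ y) = names y := by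
  induction ds with
  | nil => rfl
  | cons b ds ih => simpa [names, Sym.dg] using ih

theorem names_term : ∀ (t : Term) (y : List Sym), digs y = [] →
    names (t.code ++ y) = t.vl.map Nat.bits ++ names y
  | .var j, y, hy => by
    simp [Term.code, Term.vl, names, Sym.dg, bin, digs_bin, hy, names_bits]
  | .zero, y, _ => by simp [Term.code, Term.vl, names, Sym.dg]
  | .one, y, _ => by simp [Term.code, Term.vl, names, Sym.dg]
  | .compl t, y, hy => by
    simp [Term.code, Term.vl, names, Sym.dg, names_term t y hy]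
  | .inf s t, y, hy => by
    simp [Term.code, Term.vl, names, Sym.dg, names_term s (t.code ++ y) (digs_term t y),
      names_term t y hy]
  | .sup s t, y, hy => by
    simp [Term.code, Term.vl, names, Sym.dg, names_term s (t.code ++ y) (digs_term t y),
      names_term t y hy]

theorem names_fml : ∀ (φ : Fml) (y : List Sym), digs y = [] →
    names (φ.code ++ y) = φ.vl.map Nat.bits ++ names y
  | .eq s t, y, hy => by
    simp [Fml.code, Fml.vl, names, Sym.dg, names_term s (t.code ++ y) (digs_term t y),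
      names_term t y hy]
  | .not φ, y, hy => by
    simp [Fml.code, Fml.vl, names, Sym.dg, names_fml φ y hy]
  | .and φ ψ, y, hy => by
    simp [Fml.code, Fml.vl, names, Sym.dg, names_fml φ (ψ.code ++ y) (digs_fml ψ y),
      names_fml ψ y hy]
  | .or φ ψ, y, hy => by
    simp [Fml.code, Fml.vl, names, Sym.dg, names_fml φ (ψ.code ++ y) (digs_fml ψ y),
      names_fml ψ y hy]
  | .imp φ ψ, y, hy => by
    simp [Fml.code, Fml.vl, names, Sym.dg, names_fml φ (ψ.code ++ y) (digs_fml ψ y),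
      names_fml ψ y hy]
  | .iff φ ψ, y, hy => by
    simp [Fml.code, Fml.vl, names, Sym.dg, names_fml φ (ψ.code ++ y) (digs_fml ψ y),
      names_fml ψ y hy]
  | .all j φ, y, hy => by
    simp [Fml.code, Fml.vl, names, Sym.dg, bin, digs_bin, digs_fml, names_bits,
      names_fml φ y hy]
  | .ex j φ, y, hy => by
    simp [Fml.code, Fml.vl, names, Sym.dg, bin, digs_bin, digs_fml, names_bits,
      names_fml φ y hy]

theorem mX_le_numVars (φ : Fml) : mX φ.code ≤ φ.numVars := by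
  have h1 := mX_le_names φ.code
  have h2 := names_fml φ [] rfl
  rw [List.append_nil] at h2
  have h3 : names [] = [] := rfl
  rw [h3, List.append_nil] at h2
  rw [h2] at h1
  have h4 : (φ.vl.map Nat.bits).toFinset = φ.vl.toFinset.image Nat.bits := by
    ext w; simp
  rw [h4] at h1
  refine h1.trans (Finset.card_image_le.trans ?_)
  unfold Fml.numVars
  have h5 : {i | φ.Occurs i} = (φ.vl.toFinset : Set ℕ) := by
    ext i; simp [Fml.mem_vl]
  rw [h5, Set.ncard_coe_finset]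

/-! ### Polynomials at powers of two -/

theorem poly_two_pow (P : Polynomial ℕ) : ∃ k, ∀ e, P.eval (2 ^ e) ≤ 2 ^ (k * (e + 1)) := by
  induction P using Polynomial.induction_on with
  | C a =>
    refine ⟨a, fun e => ?_⟩
    rw [Polynomial.eval_C]
    refine Nat.lt_two_pow_self.le.trans (Nat.pow_le_pow_right (by norm_num) ?_)
    exact Nat.le_mul_of_pos_right _ (Nat.succ_pos _)
  | add P Q hP hQ =>
    obtain ⟨k1, h1⟩ := hP
    obtain ⟨k2, h2⟩ := hQ
    refine ⟨k1 + k2 + 1, fun e => ?_⟩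
    rw [Polynomial.eval_add]
    have i1 : P.eval (2 ^ e) ≤ 2 ^ ((k1 + k2) * (e + 1)) :=
      (h1 e).trans (Nat.pow_le_pow_right (by norm_num) (Nat.mul_le_mul_right _ (by omega)))
    have i2 : Q.eval (2 ^ e) ≤ 2 ^ ((k1 + k2) * (e + 1)) :=
      (h2 e).trans (Nat.pow_le_pow_right (by norm_num) (Nat.mul_le_mul_right _ (by omega)))
    have i3 : 2 ^ ((k1 + k2) * (e + 1)) * 2 ≤ 2 ^ ((k1 + k2 + 1) * (e + 1)) := by
      rw [← pow_succ]
      refine Nat.pow_le_pow_right (by norm_num) ?_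
      nlinarith
    omega
  | monomial n a ih =>
    obtain ⟨k, hk⟩ := ih
    refine ⟨k + 1, fun e => ?_⟩
    have h := hk e
    rw [Polynomial.eval_mul, Polynomial.eval_C, Polynomial.eval_pow, Polynomial.eval_X] at h ⊢
    calc a * (2 ^ e) ^ (n + 1) = (a * (2 ^ e) ^ n) * 2 ^ e := by ring
      _ ≤ 2 ^ (k * (e + 1)) * 2 ^ (e + 1) :=
          Nat.mul_le_mul h (Nat.pow_le_pow_right (by norm_num) (by omega))
      _ = 2 ^ ((k + 1) * (e + 1)) := by rw [← pow_add]; ring_nf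

theorem poly_mono (P : Polynomial ℕ) : Monotone (fun n => P.eval n) := by
  intro a b h
  simp only [Polynomial.eval_eq_sum]
  exact Finset.sum_le_sum fun i _ => Nat.mul_le_mul_left _ (Nat.pow_le_pow_left h i)

/-- The bound on the number of names. -/
def mu (n : ℕ) : ℕ := 2 ^ (Nat.log 2 n / 2) + n / (Nat.log 2 n / 2 + 1)

theorem mX_le_mu (x : List Sym) : mX x ≤ mu x.length := mX_le x _

/-- The word lengths and the number of rounds together. -/
theorem sum_bound {n m E S L : ℕ} (hE : E = n * 2 ^ m) (hS : S = E + n)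
    (hL : L = n + 2 ^ E + n * ((2 ^ E + 1) * 2 ^ m)) :
    n + S + L ≤ 2 ^ (4 * (E + 1)) := by
  have h2 : 1 ≤ 2 ^ m := Nat.one_le_two_pow
  have hn : n ≤ E := by rw [hE]; exact Nat.le_mul_of_pos_right _ (by omega)
  have hEl : E ≤ 2 ^ E := Nat.lt_two_pow_self.le
  set A := 2 ^ E with hA
  have hA1 : 1 ≤ A := Nat.one_le_two_pow
  have h3 : n * ((A + 1) * 2 ^ m) = E * (A + 1) := by rw [hE]; ring
  have h4 : 2 ^ (4 * (E + 1)) = 16 * A ^ 4 := by
    rw [hA, mul_add, pow_add, ← pow_mul, Nat.mul_comm E 4]; ring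
  rw [h4, hL, hS, h3]
  have h5 : E * (A + 1) ≤ A * (A + 1) := Nat.mul_le_mul_right _ hEl
  have h6 : A ≤ A ^ 2 := Nat.le_self_pow (by norm_num) A
  have h7 : A ^ 2 ≤ A ^ 4 := Nat.pow_le_pow_right hA1 (by norm_num)
  nlinarith

/-! ### Real estimates -/

theorem log_le_two_sqrt (n : ℕ) : Real.log (n + 2) ≤ 2 * Real.sqrt (n + 1) := by
  have h0 : (0 : ℝ) ≤ n := Nat.cast_nonneg n
  have h1 : Real.sqrt (n + 2) ≤ Real.sqrt (n + 1) + 1 := by
    rw [Real.sqrt_le_left (by positivity)]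
    have := Real.sq_sqrt (show (0 : ℝ) ≤ (n : ℝ) + 1 by linarith)
    nlinarith [Real.sqrt_nonneg ((n : ℝ) + 1)]
  have h2 : Real.log (n + 2) = 2 * Real.log (Real.sqrt (n + 2)) := by
    rw [Real.log_sqrt (by linarith)]; ring
  have h3 : Real.log (Real.sqrt (n + 2)) ≤ Real.sqrt (n + 2) - 1 :=
    Real.log_le_sub_one_of_pos (Real.sqrt_pos.2 (by linarith))
  rw [h2]; linarith

theorem log_pos' (n : ℕ) : 0 < Real.log (n + 2) := by
  have h0 : (0 : ℝ) ≤ n := Nat.cast_nonneg n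
  exact Real.log_pos (by linarith)

/-- The exponent `(n + 1) / log (n + 2)`. -/
noncomputable def RR (n : ℕ) : ℝ := (n + 1) / Real.log (n + 2)

theorem one_le_RR (n : ℕ) : 1 ≤ RR n := by
  unfold RR
  rw [le_div_iff₀ (log_pos' n)]
  have h0 : (0 : ℝ) ≤ n := Nat.cast_nonneg n
  have := Real.log_le_sub_one_of_pos (show (0 : ℝ) < (n : ℝ) + 2 by linarith)
  linarith

theorem log_le_RR (n : ℕ) : Real.log (n + 2) ≤ 4 * RR n := by
  unfold RR
  have h0 : (0 : ℝ) ≤ n := Nat.cast_nonneg n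
  have hl := log_pos' n
  rw [mul_div_assoc', le_div_iff₀ hl]
  have h1 := log_le_two_sqrt n
  have h2 := Real.sq_sqrt (show (0 : ℝ) ≤ (n : ℝ) + 1 by linarith)
  nlinarith [Real.sqrt_nonneg ((n : ℝ) + 1)]

theorem mu_le (n : ℕ) : (mu n : ℝ) ≤ 6 * RR n := by
  have h0 : (0 : ℝ) ≤ n := Nat.cast_nonneg n
  have hl := log_pos' n
  have hsn : 0 ≤ Real.sqrt ((n : ℝ) + 1) := Real.sqrt_nonneg _
  -- the first summand
  have h1 : ((2 ^ (Nat.log 2 n / 2) : ℕ) : ℝ) ≤ Real.sqrt (n + 1) := by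
    apply Real.le_sqrt_of_sq_le
    have h2 : (2 ^ (Nat.log 2 n / 2)) ^ 2 ≤ n + 1 := by
      rw [← pow_mul]
      rcases Nat.eq_zero_or_pos n with h | h
      · subst h; simp
      · calc 2 ^ (Nat.log 2 n / 2 * 2) ≤ 2 ^ Nat.log 2 n :=
              Nat.pow_le_pow_right (by norm_num) (by omega)
          _ ≤ n := Nat.pow_log_le_self 2 (by omega)
          _ ≤ n + 1 := Nat.le_succ n
    exact_mod_cast h2
  have h3 : Real.sqrt (n + 1) ≤ 2 * RR n := by
    unfold RR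
    rw [mul_div_assoc', le_div_iff₀ hl]
    have h4 := log_le_two_sqrt n
    have h5 := Real.sq_sqrt (show (0 : ℝ) ≤ (n : ℝ) + 1 by linarith)
    nlinarith
  -- the second summand
  set l := Nat.log 2 n with hl'
  have h6 : ((n / (l / 2 + 1) : ℕ) : ℝ) ≤ 4 * RR n := by
    have h7 : ((n / (l / 2 + 1) : ℕ) : ℝ) ≤ (n : ℝ) / ((l / 2 + 1 : ℕ) : ℝ) := Nat.cast_div_le
    have h8 : Real.log (n + 2) ≤ l + 2 := by
      have h9 : n + 2 ≤ 2 ^ (l + 2) := by
        have := Nat.lt_pow_succ_log_self (b := 2) (by norm_num) n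
        rw [← hl'] at this
        rw [pow_succ]
        have h10 : 1 ≤ 2 ^ (l + 1) := Nat.one_le_two_pow
        have : n + 1 ≤ 2 ^ (l + 1) := this
        omega
      have h11 : ((n : ℝ) + 2) ≤ 2 ^ (l + 2) := by exact_mod_cast h9
      have h12 := Real.log_le_log (by linarith) h11
      rw [Real.log_pow] at h12
      have h13 : Real.log 2 ≤ 1 := by
        have := Real.log_two_lt_d9
        linarith
      have h14 : (0 : ℝ) ≤ ((l + 2 : ℕ) : ℝ) := Nat.cast_nonneg _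
      calc Real.log (n + 2) ≤ ((l + 2 : ℕ) : ℝ) * Real.log 2 := h12
        _ ≤ ((l + 2 : ℕ) : ℝ) * 1 := mul_le_mul_of_nonneg_left h13 h14
        _ = l + 2 := by push_cast; ring
    have h15 : ((l : ℝ) + 2) ≤ 4 * ((l / 2 + 1 : ℕ) : ℝ) := by
      have : l + 2 ≤ 4 * (l / 2 + 1) := by omega
      exact_mod_cast this
    have h16 : (0 : ℝ) < ((l / 2 + 1 : ℕ) : ℝ) := by positivity
    refine h7.trans ?_
    unfold RR
    rw [mul_div_assoc', div_le_div_iff₀ h16 hl]
    have h17 : Real.log (n + 2) ≤ 4 * ((l / 2 + 1 : ℕ) : ℝ) := h8.trans h15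
    have h18 : (n : ℝ) * Real.log (n + 2) ≤ n * (4 * ((l / 2 + 1 : ℕ) : ℝ)) :=
      mul_le_mul_of_nonneg_left h17 h0
    nlinarith
  unfold mu
  rw [← hl']
  push_cast at h1 h6 ⊢
  linarith

/-- The single exponent. -/
theorem E_bound (k n : ℕ) : ((4 * k * (n * 2 ^ mu n + 1) : ℕ) : ℝ) ≤
    (2 : ℝ) ^ ((14 + 8 * k : ℝ) * RR n) := by
  have h0 : (0 : ℝ) ≤ n := Nat.cast_nonneg n
  have hR := one_le_RR n
  have h1 : (n : ℝ) ≤ (2 : ℝ) ^ (8 * RR n) := by
    have h2 : (n : ℝ) ≤ Real.exp (Real.log (n + 2)) := by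
      rw [Real.exp_log (by linarith)]; linarith
    have h3 : Real.exp (Real.log (n + 2)) ≤ Real.exp (4 * RR n) :=
      Real.exp_le_exp.2 (log_le_RR n)
    have h4 : Real.exp (4 * RR n) ≤ (2 : ℝ) ^ (8 * RR n) := by
      rw [Real.rpow_def_of_pos (by norm_num)]
      apply Real.exp_le_exp.2
      have := Real.log_two_gt_d9
      nlinarith
    exact h2.trans (h3.trans h4)
  have h5 : ((2 : ℝ) ^ (mu n)) ≤ (2 : ℝ) ^ (6 * RR n) := by
    rw [← Real.rpow_natCast]
    exact Real.rpow_le_rpow_of_exponent_le (by norm_num) (mu_le n)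
  have h6 : (n : ℝ) * 2 ^ mu n ≤ (2 : ℝ) ^ (14 * RR n) := by
    calc (n : ℝ) * 2 ^ mu n ≤ (2 : ℝ) ^ (8 * RR n) * (2 : ℝ) ^ (6 * RR n) :=
          mul_le_mul h1 h5 (by positivity) (by positivity)
      _ = (2 : ℝ) ^ (14 * RR n) := by
          rw [← Real.rpow_add (by norm_num)]; ring_nf
  have h7 : (1 : ℝ) ≤ (2 : ℝ) ^ (14 * RR n) :=
    Real.one_le_rpow (by norm_num) (by linarith)
  have h8 : (8 * k : ℝ) ≤ (2 : ℝ) ^ (8 * k * RR n) := by
    have h9 : (8 * k : ℝ) ≤ (2 : ℝ) ^ (8 * k : ℝ) := by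
      have h10 : 8 * k ≤ 2 ^ (8 * k) := Nat.lt_two_pow_self.le
      have h11 : ((8 * k : ℕ) : ℝ) ≤ ((2 ^ (8 * k) : ℕ) : ℝ) := by exact_mod_cast h10
      have h12 : ((2 ^ (8 * k) : ℕ) : ℝ) = (2 : ℝ) ^ ((8 * k : ℕ) : ℝ) := by
        rw [Real.rpow_natCast]; push_cast; ring
      rw [h12] at h11
      push_cast at h11
      exact h11
    refine h9.trans (Real.rpow_le_rpow_of_exponent_le (by norm_num) ?_)
    have hk : (0 : ℝ) ≤ 8 * k := by positivity
    nlinarith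
  have h13 : ((4 * k * (n * 2 ^ mu n + 1) : ℕ) : ℝ) = 4 * k * ((n : ℝ) * 2 ^ mu n + 1) := by
    push_cast; ring
  rw [h13]
  calc 4 * (k : ℝ) * ((n : ℝ) * 2 ^ mu n + 1) ≤ 4 * (k : ℝ) * (2 * (2 : ℝ) ^ (14 * RR n)) := by
        apply mul_le_mul_of_nonneg_left _ (by positivity)
        linarith
    _ = (8 * k : ℝ) * (2 : ℝ) ^ (14 * RR n) := by ring
    _ ≤ (2 : ℝ) ^ (8 * k * RR n) * (2 : ℝ) ^ (14 * RR n) :=
        mul_le_mul_of_nonneg_right h8 (by positivity)
    _ = (2 : ℝ) ^ ((14 + 8 * k : ℝ) * RR n) := by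
        rw [← Real.rpow_add (by norm_num)]; ring_nf

/-- The iterated exponential with exponent `K (n + 1) / log (n + 2)` is below every iterated
exponential with exponent `c n`. -/
theorem exp_exp_le (K c : ℝ) (hK : 0 ≤ K) (hc : 0 < c) : ∃ C : ℝ, ∀ n : ℕ,
    (2 : ℝ) ^ ((2 : ℝ) ^ (K * ((n + 1) / Real.log (n + 2)))) ≤
      C * (2 : ℝ) ^ ((2 : ℝ) ^ (c * n)) := by
  obtain ⟨n0, hn0⟩ := exists_nat_gt (Real.exp (2 * K / c))
  refine ⟨1 + ∑ i ∈ Finset.range (n0 + 1),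
    (2 : ℝ) ^ ((2 : ℝ) ^ (K * ((i + 1) / Real.log (i + 2)))), fun n => ?_⟩
  have hs : ∀ i ∈ Finset.range (n0 + 1), (0 : ℝ) ≤
      (2 : ℝ) ^ ((2 : ℝ) ^ (K * ((i + 1) / Real.log (i + 2)))) := fun i _ => by positivity
  have hf : (1 : ℝ) ≤ (2 : ℝ) ^ ((2 : ℝ) ^ (c * n)) :=
    Real.one_le_rpow (by norm_num) (by positivity)
  rcases lt_or_ge n (n0 + 1) with h | h
  · have h1 := Finset.single_le_sum hs (Finset.mem_range.2 h)
    have h2 := Finset.sum_nonneg hs
    nlinarith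
  · have h2 := Finset.sum_nonneg hs
    have hn1 : (1 : ℝ) ≤ n := by exact_mod_cast (show 1 ≤ n by omega)
    have hl := log_pos' n
    have h3 : 2 * K / c ≤ Real.log (n + 2) := by
      rw [Real.le_log_iff_exp_le (by linarith)]
      have : (n0 : ℝ) ≤ n := by exact_mod_cast (show n0 ≤ n by omega)
      linarith
    have h4 : K * (((n : ℝ) + 1) / Real.log (n + 2)) ≤ c * n := by
      rw [mul_div_assoc', div_le_iff₀ hl]
      rw [div_le_iff₀ hc] at h3
      nlinarith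
    have h5 : (2 : ℝ) ^ ((2 : ℝ) ^ (K * (((n : ℝ) + 1) / Real.log (n + 2)))) ≤
        (2 : ℝ) ^ ((2 : ℝ) ^ (c * n)) :=
      Real.rpow_le_rpow_of_exponent_le (by norm_num)
        (Real.rpow_le_rpow_of_exponent_le (by norm_num) h4)
    nlinarith

end Pool.Agent.FBA
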