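import Mathlib
import Pool.Agent.FBA.Tab

/-!
# Truth in power set algebras equals truth at truncated cell counts
-/

set_option autoImplicit false

namespace Pool.Agent.FBA

/-- Setting the bit `j` of `c` to `b`. -/
def setb (j : ℕ) (b : Bool) (c : ℕ) : ℕ := if c.testBit j = b then c else c ^^^ 2 ^ j

theorem testBit_setb (j : ℕ) (b : Bool) (c i : ℕ) :
    (setb j b c).testBit i = if i = j then b else c.testBit i := by
  unfold setb
  by_cases hi : i = j
  · subst hi
    rw [if_pos rfl]
    split_ifs with h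
    · exact h
    · rw [Nat.testBit_xor, Nat.testBit_two_pow_self]
      cases h1 : c.testBit i <;> cases b <;> simp_all
  · rw [if_neg hi]
    split_ifs with h
    · rfl
    · rw [Nat.testBit_xor, Nat.testBit_two_pow]
      simp [Ne.symm hi]

theorem testBit_xor_two_pow (j c i : ℕ) :
    (c ^^^ 2 ^ j).testBit i = if i = j then !(c.testBit j) else c.testBit i := by
  rw [Nat.testBit_xor, Nat.testBit_two_pow]
  by_cases h : i = j
  · subst h; simp
  · simp [h, Ne.symm h]

theorem setb_lt {j m c : ℕ} (b : Bool) (hj : j < m) (hc : c < 2 ^ m) : setb j b c < 2 ^ m := by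
  unfold setb
  split_ifs
  · exact hc
  · exact Nat.xor_lt_two_pow hc (Nat.pow_lt_pow_right (by norm_num) hj)

theorem xor_lt {j m c : ℕ} (hj : j < m) (hc : c < 2 ^ m) : c ^^^ 2 ^ j < 2 ^ m :=
  Nat.xor_lt_two_pow hc (Nat.pow_lt_pow_right (by norm_num) hj)

theorem xor_xor (j c : ℕ) : c ^^^ 2 ^ j ^^^ 2 ^ j = c := by
  rw [Nat.xor_assoc, Nat.xor_self, Nat.xor_zero]

theorem setb_false_xor (j c : ℕ) : setb j false (c ^^^ 2 ^ j) = setb j false c := by
  apply Nat.eq_of_testBit_eq
  intro i
  rw [testBit_setb, testBit_setb, testBit_xor_two_pow]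
  split_ifs <;> rfl

theorem setb_false_setb (j : ℕ) (b : Bool) (c : ℕ) : setb j false (setb j b c) = setb j false c := by
  apply Nat.eq_of_testBit_eq
  intro i
  rw [testBit_setb, testBit_setb, testBit_setb]
  split_ifs <;> rfl

theorem setb_eq_iff (j : ℕ) (b : Bool) (y c : ℕ) :
    setb j b y = c ↔ b = c.testBit j ∧ setb j false y = setb j false c := by
  constructor
  · rintro rfl
    refine ⟨by rw [testBit_setb, if_pos rfl], (setb_false_setb j b y).symm⟩
  · rintro ⟨h1, h2⟩
    apply Nat.eq_of_testBit_eq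
    intro i
    rw [testBit_setb]
    split_ifs with h
    · rw [h, h1]
    · have := congrArg (fun z => z.testBit i) h2
      simpa [testBit_setb, h] using this

theorem eq_or_xor_iff (j y c : ℕ) :
    setb j false y = setb j false c ↔ y = c ∨ y = c ^^^ 2 ^ j := by
  constructor
  · intro h
    by_cases h1 : y.testBit j = c.testBit j
    · left
      have := (setb_eq_iff j (y.testBit j) y c).2 ⟨h1, h⟩
      rwa [(setb_eq_iff j (y.testBit j) y y).2 ⟨rfl, rfl⟩] at this
    · right
      have h2 : y.testBit j = (c ^^^ 2 ^ j).testBit j := by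
        rw [testBit_xor_two_pow, if_pos rfl]
        exact Bool.eq_not_of_ne h1
      have := (setb_eq_iff j (y.testBit j) y (c ^^^ 2 ^ j)).2 ⟨h2, by rw [setb_false_xor]; exact h⟩
      rwa [(setb_eq_iff j (y.testBit j) y y).2 ⟨rfl, rfl⟩] at this
  · rintro (rfl | rfl)
    · rfl
    · exact setb_false_xor j c

theorem ne_xor (j c : ℕ) : c ≠ c ^^^ 2 ^ j := by
  intro h
  have h1 : c.testBit j = (c ^^^ 2 ^ j).testBit j := by rw [← h]
  rw [testBit_xor_two_pow, if_pos rfl] at h1
  revert h1
  cases c.testBit j <;> decide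

section count

variable {α : Type} [Fintype α]

open Classical in
/-- The number of points of colour `c`. -/
noncomputable def cnt (κ : α → ℕ) (c : ℕ) : ℕ := (Finset.univ.filter (fun x => κ x = c)).card

open Classical in
theorem cnt_add (κ : α → ℕ) (j c : ℕ) : cnt κ c + cnt κ (c ^^^ 2 ^ j) =
    (Finset.univ.filter (fun x => setb j false (κ x) = setb j false c)).card := by
  unfold cnt
  rw [← Finset.card_union_of_disjoint]
  · congr 1
    ext x
    simp only [Finset.mem_union, Finset.mem_filter, Finset.mem_univ, true_and]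
    exact (eq_or_xor_iff j (κ x) c).symm
  · rw [Finset.disjoint_filter]
    intro x _ h1 h2
    exact ne_xor j c (h1.symm.trans h2)

theorem cnt_setb (κ : α → ℕ) (β : α → Bool) (j c : ℕ) :
    cnt (fun x => setb j (β x) (κ x)) c + cnt (fun x => setb j (β x) (κ x)) (c ^^^ 2 ^ j) =
      cnt κ c + cnt κ (c ^^^ 2 ^ j) := by
  classical
  rw [cnt_add, cnt_add]
  simp only [setb_false_setb]

/-- Realising prescribed counts by a set. -/
theorem exists_split (κ : α → ℕ) (j : ℕ) (n' : ℕ → ℕ)
    (h : ∀ c, n' c + n' (c ^^^ 2 ^ j) = cnt κ c + cnt κ (c ^^^ 2 ^ j)) :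
    ∃ β : α → Bool, ∀ c, cnt (fun x => setb j (β x) (κ x)) c = n' c := by
  classical
  have hE : ∀ c, ∃ E ⊆ Finset.univ.filter (fun x => setb j false (κ x) = setb j false c),
      E.card = n' (setb j true c) := by
    intro c
    apply Finset.exists_subset_card_eq
    rw [← cnt_add, ← h]
    unfold setb
    split_ifs <;> omega
  choose E hEs hEc using hE
  refine ⟨fun x => decide (x ∈ E (setb j false (κ x))), fun c => ?_⟩
  unfold cnt
  have hEE : ∀ c, E (setb j false c) ⊆
      Finset.univ.filter (fun x => setb j false (κ x) = setb j false c) := by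
    intro c
    have := hEs (setb j false c)
    rwa [setb_false_setb] at this
  have hEEc : (E (setb j false c)).card = n' (setb j true c) := by
    rw [hEc]
    congr 1
    apply Nat.eq_of_testBit_eq
    intro i
    rw [testBit_setb, testBit_setb, testBit_setb]
    split_ifs <;> rfl
  cases hc : c.testBit j with
  | true =>
    have e1 : (Finset.univ.filter (fun x => setb j (decide (x ∈ E (setb j false (κ x)))) (κ x) = c)) =
        E (setb j false c) := by
      ext x
      rw [Finset.mem_filter, setb_eq_iff, hc, decide_eq_true_eq]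
      simp only [Finset.mem_univ, true_and]
      constructor
      · rintro ⟨h1, h2⟩
        rwa [h2] at h1
      · intro h1
        have h2 := (Finset.mem_filter.1 (hEE c h1)).2
        exact ⟨by rwa [h2], h2⟩
    rw [e1, hEEc]
    congr 1
    unfold setb
    rw [if_pos hc]
  | false =>
    have e1 : (Finset.univ.filter (fun x => setb j (decide (x ∈ E (setb j false (κ x)))) (κ x) = c)) =
        Finset.univ.filter (fun x => setb j false (κ x) = setb j false c) \ E (setb j false c) := by
      ext x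
      rw [Finset.mem_filter, setb_eq_iff, hc, decide_eq_false_iff_not, Finset.mem_sdiff,
        Finset.mem_filter]
      simp only [Finset.mem_univ, true_and]
      constructor
      · rintro ⟨h1, h2⟩
        exact ⟨h2, by rwa [h2] at h1⟩
      · rintro ⟨h1, h2⟩
        exact ⟨by rwa [h1], h1⟩
    rw [e1, Finset.card_sdiff_of_subset (hEE c), hEEc, ← cnt_add, ← h]
    have e2 : setb j true c = c ^^^ 2 ^ j := by
      unfold setb
      rw [if_neg (by simp [hc])]
    rw [e2]
    omega

end count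

/-- States with prescribed digits. -/
theorem exists_state (m Q : ℕ) (f : ℕ → ℕ) (hf : ∀ c < 2 ^ m, f c < Q) :
    ∃ s < Q ^ 2 ^ m, ∀ c < 2 ^ m, dig Q s c = f c := by
  let F : Fin (2 ^ m) → Fin Q := fun c => ⟨f c, hf c c.2⟩
  refine ⟨finFunctionFinEquiv F, (finFunctionFinEquiv F).2, fun c hc => ?_⟩
  change ((finFunctionFinEquiv.symm (finFunctionFinEquiv F)) ⟨c, hc⟩ : ℕ) = f c
  rw [Equiv.symm_apply_apply]

theorem num_forward {T Q a b R : ℕ} (hQ : 2 * T ≤ Q - 1) (hT : 0 < T)
    (h : min (2 * T) (a + b) = min (2 * T) R) :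
    ∃ p q, p < Q ∧ q < Q ∧ min T p = min T a ∧ min T q = min T b ∧
      min (Q - 1) (p + q) = min (Q - 1) R := by
  by_cases h1 : a < T
  · exact ⟨a, min (Q - 1) (R - a), by omega, by omega, by omega, by omega, by omega⟩
  · by_cases h2 : b < T
    · exact ⟨min (Q - 1) (R - b), b, by omega, by omega, by omega, by omega, by omega⟩
    · exact ⟨T, min (Q - 1) (R - T), by omega, by omega, by omega, by omega, by omega⟩

theorem num_backward {T Q p q R M : ℕ} (hQ : 2 * T ≤ Q - 1) (hT : 0 < T)
    (h : min (2 * T) M = min (2 * T) R) (h' : min (Q - 1) (p + q) = min (Q - 1) R) :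
    ∃ a b, a + b = M ∧ min T a = min T p ∧ min T b = min T q := by
  by_cases h1 : M < 2 * T
  · exact ⟨p, q, by omega, by omega, by omega⟩
  · by_cases h2 : p < T
    · exact ⟨p, M - p, by omega, by omega, by omega⟩
    · by_cases h3 : q < T
      · exact ⟨M - q, q, by omega, by omega, by omega⟩
      · exact ⟨T, M - T, by omega, by omega, by omega⟩

section main

variable {α : Type} [Fintype α]

omit [Fintype α] in
theorem mem_eval {ρ : ℕ → ℕ} {v : ℕ → Set α} {κ : α → ℕ} : ∀ (t : Term)
    (_ : ∀ i, t.Occurs i → ∀ x, x ∈ v i ↔ (κ x).testBit (ρ i) = true) (x : α),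
    x ∈ t.eval v ↔ t.cell ρ (κ x) = true
  | .var i, hv, x => hv i rfl x
  | .zero, _, x => by simp [Term.eval, Term.cell]
  | .one, _, x => by simp [Term.eval, Term.cell]
  | .compl t, hv, x => by
    have := mem_eval t (fun i hi => hv i hi) x
    simp only [Term.eval, Term.cell, Set.mem_compl_iff, this]
    simp
  | .inf s t, hv, x => by
    have h1 := mem_eval s (fun i hi => hv i (Or.inl hi)) x
    have h2 := mem_eval t (fun i hi => hv i (Or.inr hi)) x
    simp only [Term.eval, Term.cell, Bool.and_eq_true, ← h1, ← h2]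
    rfl
  | .sup s t, hv, x => by
    have h1 := mem_eval s (fun i hi => hv i (Or.inl hi)) x
    have h2 := mem_eval t (fun i hi => hv i (Or.inr hi)) x
    simp only [Term.eval, Term.cell, Bool.or_eq_true, ← h1, ← h2]
    rfl

/-- Forgetting and naming again: from real counts to states. -/
theorem step_forward {m Q k : ℕ} {κ κ' : α → ℕ} {j s : ℕ} (hj : j < m)
    (hQ : 2 ^ (k + 1) ≤ Q - 1) (hs : ∀ c < 2 ^ m, min (2 ^ (k + 1)) (cnt κ c) =
      min (2 ^ (k + 1)) (dig Q s c))
    (h : ∀ c, cnt κ' c + cnt κ' (c ^^^ 2 ^ j) = cnt κ c + cnt κ (c ^^^ 2 ^ j)) :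
    ∃ s' < Q ^ 2 ^ m, Compat m Q j s s' ∧ ∀ c < 2 ^ m, min (2 ^ k) (cnt κ' c) =
      min (2 ^ k) (dig Q s' c) := by
  have hT : 0 < 2 ^ k := by positivity
  have e : 2 ^ (k + 1) = 2 * 2 ^ k := by ring
  rw [e] at hQ hs
  have hnum : ∀ c, c < 2 ^ m → ∃ p q, p < Q ∧ q < Q ∧ min (2 ^ k) p = min (2 ^ k) (cnt κ' c) ∧
      min (2 ^ k) q = min (2 ^ k) (cnt κ' (c ^^^ 2 ^ j)) ∧
      min (Q - 1) (p + q) = min (Q - 1) (dig Q s c + dig Q s (c ^^^ 2 ^ j)) := by
    intro c hc
    refine num_forward hQ hT ?_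
    rw [h c]
    have h1 := hs c hc
    have h2 := hs _ (xor_lt hj hc)
    omega
  choose! p q hp hq hp' hq' hpq using hnum
  obtain ⟨s', hs', hd⟩ := exists_state m Q
    (fun c => if c.testBit j then q (c ^^^ 2 ^ j) else p c) (by
      intro c hc
      split_ifs
      · exact hq _ (xor_lt hj hc)
      · exact hp _ hc)
  refine ⟨s', hs', fun c hc => ?_, fun c hc => ?_⟩
  · rw [hd c hc, hd _ (xor_lt hj hc)]
    cases hb : c.testBit j with
    | true =>
      have hb' : (c ^^^ 2 ^ j).testBit j = false := by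
        rw [testBit_xor_two_pow, if_pos rfl, hb]; rfl
      rw [hb']
      have := hpq _ (xor_lt hj hc)
      rw [xor_xor] at this
      simp only [if_true, Bool.false_eq_true, if_false]
      rw [Nat.add_comm (q _), this, Nat.add_comm]
    | false =>
      have hb' : (c ^^^ 2 ^ j).testBit j = true := by
        rw [testBit_xor_two_pow, if_pos rfl, hb]; rfl
      rw [hb', xor_xor]
      simp only [if_true, Bool.false_eq_true, if_false]
      exact (hpq c hc).symm
  · rw [hd c hc]
    cases hb : c.testBit j with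
    | true =>
      have := hq' _ (xor_lt hj hc)
      rw [xor_xor] at this
      simp only [if_true]
      exact this.symm
    | false =>
      simp only [Bool.false_eq_true, if_false]
      exact (hp' c hc).symm

/-- Forgetting and naming again: from states to real counts. -/
theorem step_backward {m Q k : ℕ} {κ : α → ℕ} {j s s' : ℕ} (hj : j < m) (hκ : ∀ x, κ x < 2 ^ m)
    (hQ : 2 ^ (k + 1) ≤ Q - 1) (hs : ∀ c < 2 ^ m, min (2 ^ (k + 1)) (cnt κ c) =
      min (2 ^ (k + 1)) (dig Q s c)) (h : Compat m Q j s s') :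
    ∃ β : α → Bool, ∀ c < 2 ^ m, min (2 ^ k) (cnt (fun x => setb j (β x) (κ x)) c) =
      min (2 ^ k) (dig Q s' c) := by
  classical
  have hT : 0 < 2 ^ k := by positivity
  have e : 2 ^ (k + 1) = 2 * 2 ^ k := by ring
  rw [e] at hQ hs
  have hnum : ∀ c, c < 2 ^ m → ∃ a b, a + b = cnt κ c + cnt κ (c ^^^ 2 ^ j) ∧
      min (2 ^ k) a = min (2 ^ k) (dig Q s' c) ∧
      min (2 ^ k) b = min (2 ^ k) (dig Q s' (c ^^^ 2 ^ j)) := by
    intro c hc
    refine num_backward (R := dig Q s c + dig Q s (c ^^^ 2 ^ j)) hQ hT ?_ (h c hc).symm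
    have h1 := hs c hc
    have h2 := hs _ (xor_lt hj hc)
    omega
  choose! a b hab ha hb using hnum
  have hzero : ∀ c, ¬ c < 2 ^ m → cnt κ c = 0 := by
    intro c hc
    unfold cnt
    rw [Finset.card_eq_zero, Finset.filter_eq_empty_iff]
    rintro x _ rfl
    exact hc (hκ x)
  have hx : ∀ c, ¬ c < 2 ^ m → ¬ c ^^^ 2 ^ j < 2 ^ m := by
    intro c hc h1
    apply hc
    have := xor_lt hj h1
    rwa [xor_xor] at this
  obtain ⟨β, hβ⟩ := exists_split κ j
    (fun c => if c < 2 ^ m then (if c.testBit j then b (c ^^^ 2 ^ j) else a c) else 0) (by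
      intro c
      by_cases hc : c < 2 ^ m
      · have hc' := xor_lt hj hc
        simp only [if_pos hc, if_pos hc']
        cases hbt : c.testBit j with
        | true =>
          have hb' : (c ^^^ 2 ^ j).testBit j = false := by
            rw [testBit_xor_two_pow, if_pos rfl, hbt]; rfl
          rw [hb']
          have := hab _ hc'
          rw [xor_xor] at this
          simp only [if_true, Bool.false_eq_true, if_false]
          omega
        | false =>
          have hb' : (c ^^^ 2 ^ j).testBit j = true := by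
            rw [testBit_xor_two_pow, if_pos rfl, hbt]; rfl
          rw [hb', xor_xor]
          simp only [if_true, Bool.false_eq_true, if_false]
          exact hab c hc
      · simp only [if_neg hc, if_neg (hx c hc), hzero c hc, hzero _ (hx c hc)])
  refine ⟨β, fun c hc => ?_⟩
  rw [hβ c, if_pos hc]
  cases hbt : c.testBit j with
  | true =>
    have := hb _ (xor_lt hj hc)
    rw [xor_xor] at this
    simpa using this
  | false => simpa using ha c hc

omit [Fintype α] in
theorem cells_update {ρ : ℕ → ℕ} {V : Set ℕ} (inj : Set.InjOn ρ V) {v : ℕ → Set α} {κ : α → ℕ}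
    (hv : ∀ i ∈ V, ∀ x, x ∈ v i ↔ (κ x).testBit (ρ i) = true) {i : ℕ} (hi : i ∈ V)
    (β : α → Bool) : ∀ i' ∈ V, ∀ x, x ∈ Function.update v i {y | β y = true} i' ↔
      (setb (ρ i) (β x) (κ x)).testBit (ρ i') = true := by
  intro i' hi' x
  rw [testBit_setb]
  by_cases h : i' = i
  · subst h
    simp
  · rw [Function.update_of_ne h, if_neg (fun h' => h (inj hi' hi h'))]
    exact hv i' hi' x

/-- **Truth in power set algebras is truth at truncated cell counts.** -/
theorem holds_iff_tr {ρ : ℕ → ℕ} {m Q : ℕ} {V : Set ℕ} (hρ : ∀ i ∈ V, ρ i < m)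
    (inj : Set.InjOn ρ V) : ∀ (φ : Fml) (k : ℕ), φ.qd ≤ k → 2 ^ k ≤ Q - 1 →
    (∀ i, φ.Occurs i → i ∈ V) → ∀ (v : ℕ → Set α) (κ : α → ℕ), (∀ x, κ x < 2 ^ m) →
    (∀ i ∈ V, ∀ x, x ∈ v i ↔ (κ x).testBit (ρ i) = true) → ∀ s : ℕ,
    (∀ c < 2 ^ m, min (2 ^ k) (cnt κ c) = min (2 ^ k) (dig Q s c)) →
    (φ.Holds v ↔ φ.tr ρ m Q s)
  | .eq t u, k, _, _, hV, v, κ, hκ, hv, s, hs => by
    classical
    have ht := mem_eval (v := v) (κ := κ) t (fun i hi => hv i (hV i (Or.inl hi)))
    have hu := mem_eval (v := v) (κ := κ) u (fun i hi => hv i (hV i (Or.inr hi)))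
    simp only [Fml.Holds, Fml.tr]
    constructor
    · intro h c hc hd
      have h1 := hs c hc
      have hk : 0 < 2 ^ k := by positivity
      have h2 : 0 < cnt κ c := by omega
      unfold cnt at h2
      obtain ⟨x, hx⟩ := Finset.card_pos.1 h2
      have hx' : κ x = c := (Finset.mem_filter.1 hx).2
      have h3 := ht x
      have h4 := hu x
      rw [h, h4, hx'] at h3
      exact Bool.eq_iff_iff.2 h3.symm
    · intro h
      ext x
      rw [ht, hu]
      have hk : 0 < 2 ^ k := by positivity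
      have h1 := hs (κ x) (hκ x)
      have h2 : 0 < cnt κ (κ x) := by
        unfold cnt
        exact Finset.card_pos.2 ⟨x, by simp⟩
      rw [h (κ x) (hκ x) (by omega)]
  | .not φ, k, hk, hQ, hV, v, κ, hκ, hv, s, hs => by
    have := holds_iff_tr hρ inj φ k hk hQ hV v κ hκ hv s hs
    simp only [Fml.Holds, Fml.tr, this]
  | .and φ ψ, k, hk, hQ, hV, v, κ, hκ, hv, s, hs => by
    have h1 := holds_iff_tr hρ inj φ k ((le_max_left _ _).trans hk) hQ
      (fun i hi => hV i (Or.inl hi)) v κ hκ hv s hs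
    have h2 := holds_iff_tr hρ inj ψ k ((le_max_right _ _).trans hk) hQ
      (fun i hi => hV i (Or.inr hi)) v κ hκ hv s hs
    simp only [Fml.Holds, Fml.tr, h1, h2]
  | .or φ ψ, k, hk, hQ, hV, v, κ, hκ, hv, s, hs => by
    have h1 := holds_iff_tr hρ inj φ k ((le_max_left _ _).trans hk) hQ
      (fun i hi => hV i (Or.inl hi)) v κ hκ hv s hs
    have h2 := holds_iff_tr hρ inj ψ k ((le_max_right _ _).trans hk) hQ
      (fun i hi => hV i (Or.inr hi)) v κ hκ hv s hs
    simp only [Fml.Holds, Fml.tr, h1, h2]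
  | .imp φ ψ, k, hk, hQ, hV, v, κ, hκ, hv, s, hs => by
    have h1 := holds_iff_tr hρ inj φ k ((le_max_left _ _).trans hk) hQ
      (fun i hi => hV i (Or.inl hi)) v κ hκ hv s hs
    have h2 := holds_iff_tr hρ inj ψ k ((le_max_right _ _).trans hk) hQ
      (fun i hi => hV i (Or.inr hi)) v κ hκ hv s hs
    simp only [Fml.Holds, Fml.tr, h1, h2]
  | .iff φ ψ, k, hk, hQ, hV, v, κ, hκ, hv, s, hs => by
    have h1 := holds_iff_tr hρ inj φ k ((le_max_left _ _).trans hk) hQ
      (fun i hi => hV i (Or.inl hi)) v κ hκ hv s hs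
    have h2 := holds_iff_tr hρ inj ψ k ((le_max_right _ _).trans hk) hQ
      (fun i hi => hV i (Or.inr hi)) v κ hκ hv s hs
    simp only [Fml.Holds, Fml.tr, h1, h2]
  | .all i φ, k, hk, hQ, hV, v, κ, hκ, hv, s, hs => by
    classical
    obtain ⟨k, rfl⟩ : ∃ k', k = k' + 1 := ⟨k - 1, by simp only [Fml.qd] at hk; omega⟩
    have hi : i ∈ V := hV i (Or.inl rfl)
    have hk' : φ.qd ≤ k := by simp only [Fml.qd] at hk; omega
    have hQ' : 2 ^ k ≤ Q - 1 := by
      refine le_trans ?_ hQ
      exact Nat.pow_le_pow_right (by norm_num) (Nat.le_succ k)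
    have hV' : ∀ i', φ.Occurs i' → i' ∈ V := fun i' h => hV i' (Or.inr h)
    have hκ' : ∀ (β : α → Bool) x, setb (ρ i) (β x) (κ x) < 2 ^ m := fun β x =>
      setb_lt _ (hρ i hi) (hκ x)
    simp only [Fml.Holds, Fml.tr]
    constructor
    · intro h s' _ hcomp
      obtain ⟨β, hβ⟩ := step_backward (hρ i hi) hκ hQ hs hcomp
      exact (holds_iff_tr hρ inj φ k hk' hQ' hV' _ _ (hκ' β) (cells_update inj hv hi β) s' hβ).1
        (h _)
    · intro h b
      set β : α → Bool := fun x => decide (x ∈ b) with hβ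
      obtain ⟨s', hs', hcomp, hc⟩ := step_forward (κ := κ)
        (κ' := fun x => setb (ρ i) (β x) (κ x)) (hρ i hi) hQ hs (cnt_setb κ β (ρ i))
      have h1 := (holds_iff_tr hρ inj φ k hk' hQ' hV' _ _ (hκ' β) (cells_update inj hv hi β) s'
        hc).2 (h s' hs' hcomp)
      have h2 : {y | β y = true} = b := by ext y; simp [hβ]
      rwa [h2] at h1
  | .ex i φ, k, hk, hQ, hV, v, κ, hκ, hv, s, hs => by
    classical
    obtain ⟨k, rfl⟩ : ∃ k', k = k' + 1 := ⟨k - 1, by simp only [Fml.qd] at hk; omega⟩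
    have hi : i ∈ V := hV i (Or.inl rfl)
    have hk' : φ.qd ≤ k := by simp only [Fml.qd] at hk; omega
    have hQ' : 2 ^ k ≤ Q - 1 := by
      refine le_trans ?_ hQ
      exact Nat.pow_le_pow_right (by norm_num) (Nat.le_succ k)
    have hV' : ∀ i', φ.Occurs i' → i' ∈ V := fun i' h => hV i' (Or.inr h)
    have hκ' : ∀ (β : α → Bool) x, setb (ρ i) (β x) (κ x) < 2 ^ m := fun β x =>
      setb_lt _ (hρ i hi) (hκ x)
    simp only [Fml.Holds, Fml.tr]
    constructor
    · rintro ⟨b, h⟩
      set β : α → Bool := fun x => decide (x ∈ b) with hβ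
      obtain ⟨s', hs', hcomp, hc⟩ := step_forward (κ := κ)
        (κ' := fun x => setb (ρ i) (β x) (κ x)) (hρ i hi) hQ hs (cnt_setb κ β (ρ i))
      have h2 : {y | β y = true} = b := by ext y; simp [hβ]
      refine ⟨s', hs', hcomp, (holds_iff_tr hρ inj φ k hk' hQ' hV' _ _ (hκ' β)
        (cells_update inj hv hi β) s' hc).1 ?_⟩
      rwa [h2]
    · rintro ⟨s', _, hcomp, h⟩
      obtain ⟨β, hβ⟩ := step_backward (hρ i hi) hκ hQ hs hcomp
      exact ⟨_, (holds_iff_tr hρ inj φ k hk' hQ' hV' _ _ (hκ' β) (cells_update inj hv hi β) s'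
        hβ).2 h⟩

end main

end Pool.Agent.FBA
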