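import Mathlib
import Pool.Agent.FBA.Sem

/-!
# Sentences true in all finite Boolean algebras
-/

set_option autoImplicit false

namespace Pool.Agent.FBA

theorem Term.eval_congr {B : Type} [BooleanAlgebra B] {v v' : ℕ → B} : ∀ (t : Term)
    (_ : ∀ i, t.Occurs i → v i = v' i), t.eval v = t.eval v'
  | .var i, h => h i rfl
  | .zero, _ => rfl
  | .one, _ => rfl
  | .compl t, h => by simp only [Term.eval, Term.eval_congr t (fun i hi => h i hi)]
  | .inf s t, h => by
    simp only [Term.eval, Term.eval_congr s (fun i hi => h i (Or.inl hi)),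
      Term.eval_congr t (fun i hi => h i (Or.inr hi))]
  | .sup s t, h => by
    simp only [Term.eval, Term.eval_congr s (fun i hi => h i (Or.inl hi)),
      Term.eval_congr t (fun i hi => h i (Or.inr hi))]

theorem update_congr {B : Type} {v v' : ℕ → B} {i : ℕ} {P : ℕ → Prop}
    (h : ∀ i', i' ≠ i ∧ P i' → v i' = v' i') (b : B) :
    ∀ i', P i' → Function.update v i b i' = Function.update v' i b i' := by
  intro i' hi'
  by_cases h1 : i' = i
  · subst h1; simp
  · rw [Function.update_of_ne h1, Function.update_of_ne h1]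
    exact h i' ⟨h1, hi'⟩

/-- Truth only depends on the values of the free variables. -/
theorem Fml.holds_congr {B : Type} [BooleanAlgebra B] : ∀ (φ : Fml) {v v' : ℕ → B}
    (_ : ∀ i, φ.Free i → v i = v' i), φ.Holds v ↔ φ.Holds v'
  | .eq s t, v, v', h => by
    simp only [Fml.Holds, Term.eval_congr s (fun i hi => h i (Or.inl hi)),
      Term.eval_congr t (fun i hi => h i (Or.inr hi))]
  | .not φ, v, v', h => by simp only [Fml.Holds, Fml.holds_congr φ h]
  | .and φ ψ, v, v', h => by
    simp only [Fml.Holds, Fml.holds_congr φ (fun i hi => h i (Or.inl hi)),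
      Fml.holds_congr ψ (fun i hi => h i (Or.inr hi))]
  | .or φ ψ, v, v', h => by
    simp only [Fml.Holds, Fml.holds_congr φ (fun i hi => h i (Or.inl hi)),
      Fml.holds_congr ψ (fun i hi => h i (Or.inr hi))]
  | .imp φ ψ, v, v', h => by
    simp only [Fml.Holds, Fml.holds_congr φ (fun i hi => h i (Or.inl hi)),
      Fml.holds_congr ψ (fun i hi => h i (Or.inr hi))]
  | .iff φ ψ, v, v', h => by
    simp only [Fml.Holds, Fml.holds_congr φ (fun i hi => h i (Or.inl hi)),
      Fml.holds_congr ψ (fun i hi => h i (Or.inr hi))]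
  | .all i φ, v, v', h => by
    simp only [Fml.Holds]
    exact forall_congr' fun b => Fml.holds_congr φ (update_congr h b)
  | .ex i φ, v, v', h => by
    simp only [Fml.Holds]
    exact exists_congr fun b => Fml.holds_congr φ (update_congr h b)

theorem Term.eval_iso {B B' : Type} [BooleanAlgebra B] [BooleanAlgebra B'] (e : B ≃o B')
    (v : ℕ → B) : ∀ t : Term, t.eval (fun i => e (v i)) = e (t.eval v)
  | .var i => rfl
  | .zero => by simp [Term.eval]
  | .one => by simp [Term.eval]
  | .compl t => by simp [Term.eval, Term.eval_iso e v t]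
  | .inf s t => by simp [Term.eval, Term.eval_iso e v s, Term.eval_iso e v t]
  | .sup s t => by simp [Term.eval, Term.eval_iso e v s, Term.eval_iso e v t]

theorem update_iso {B B' : Type} (e : B → B') (v : ℕ → B) (i : ℕ) (b : B) :
    Function.update (fun i => e (v i)) i (e b) = fun i' => e (Function.update v i b i') := by
  funext i'
  by_cases h : i' = i
  · subst h; simp
  · simp [h]

theorem Fml.holds_iso {B B' : Type} [BooleanAlgebra B] [BooleanAlgebra B'] (e : B ≃o B') :
    ∀ (φ : Fml) (v : ℕ → B), φ.Holds (fun i => e (v i)) ↔ φ.Holds v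
  | .eq s t, v => by
    simp only [Fml.Holds, Term.eval_iso e v]
    exact e.injective.eq_iff
  | .not φ, v => by simp only [Fml.Holds, Fml.holds_iso e φ v]
  | .and φ ψ, v => by simp only [Fml.Holds, Fml.holds_iso e φ v, Fml.holds_iso e ψ v]
  | .or φ ψ, v => by simp only [Fml.Holds, Fml.holds_iso e φ v, Fml.holds_iso e ψ v]
  | .imp φ ψ, v => by simp only [Fml.Holds, Fml.holds_iso e φ v, Fml.holds_iso e ψ v]
  | .iff φ ψ, v => by simp only [Fml.Holds, Fml.holds_iso e φ v, Fml.holds_iso e ψ v]
  | .all i φ, v => by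
    simp only [Fml.Holds]
    constructor
    · intro h b
      rw [← Fml.holds_iso e φ, ← update_iso e v i b]
      exact h (e b)
    · intro h b'
      have := h (e.symm b')
      rw [← Fml.holds_iso e φ, ← update_iso e v i _, e.apply_symm_apply] at this
      exact this
  | .ex i φ, v => by
    simp only [Fml.Holds]
    constructor
    · rintro ⟨b', h⟩
      refine ⟨e.symm b', ?_⟩
      rw [← Fml.holds_iso e φ, ← update_iso e v i _, e.apply_symm_apply]
      exact h
    · rintro ⟨b, h⟩
      refine ⟨e b, ?_⟩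
      rw [← Fml.holds_iso e φ, ← update_iso e v i b] at h
      exact h

/-- Finite Boolean algebras are power sets. -/
theorem exists_iso (B : Type) [BooleanAlgebra B] [Finite B] :
    ∃ (α : Type) (_ : Finite α), Nonempty (B ≃o Set α) := by
  let := Fintype.ofFinite B
  let := Fintype.toCompleteAtomicBooleanAlgebra B
  exact ⟨{a : B // IsAtom a}, inferInstance,
    ⟨(CompleteAtomicBooleanAlgebra.toSetOfIsAtom : B ≃o Set {a : B // IsAtom a})⟩⟩

theorem dig_small {Q N c : ℕ} (hN : N < Q) : dig Q N c = if c = 0 then N else 0 := by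
  unfold dig
  split_ifs with h
  · subst h
    simp [Nat.mod_eq_of_lt hN]
  · have h1 : N < Q ^ c := lt_of_lt_of_le hN (Nat.le_self_pow h Q)
    rw [Nat.div_eq_of_lt h1, Nat.zero_mod]

/-- Truth in the power set of an `N`-element set, `N` possibly large. -/
theorem holds_set_iff {ρ : ℕ → ℕ} {m Q : ℕ} {φ : Fml} (hφ : φ.IsSentence)
    (hρ : ∀ i, φ.Occurs i → ρ i < m) (inj : Set.InjOn ρ {i | φ.Occurs i})
    (hQ : 2 ^ φ.qd ≤ Q - 1) {α : Type} [Finite α] (v : ℕ → Set α) :
    φ.Holds v ↔ φ.tr ρ m Q (min (Nat.card α) (Q - 1)) := by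
  classical
  have := Fintype.ofFinite α
  have hQ1 : 0 < 2 ^ φ.qd := by positivity
  rw [Fml.holds_congr φ (v' := fun _ => ∅) (fun i hi => absurd hi (hφ i))]
  refine holds_iff_tr (V := {i | φ.Occurs i}) (fun i hi => hρ i hi) inj φ φ.qd le_rfl hQ
    (fun i hi => hi) _ (fun _ => 0) (fun _ => by positivity) (fun i _ x => by simp) _ ?_
  intro c _
  rw [dig_small (by omega)]
  unfold cnt
  rw [Nat.card_eq_fintype_card]
  by_cases hc : c = 0
  · subst hc
    simp only [if_true, Finset.filter_true, Finset.card_univ]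
    omega
  · rw [if_neg hc, Finset.filter_false_of_mem (fun x _ h => hc h.symm)]
    simp

theorem forall_finite_iff {ρ : ℕ → ℕ} {m Q : ℕ} {φ : Fml} (hφ : φ.IsSentence)
    (hρ : ∀ i, φ.Occurs i → ρ i < m) (inj : Set.InjOn ρ {i | φ.Occurs i})
    (hQ : 2 ^ φ.qd ≤ Q - 1) :
    (∀ (B : Type) [BooleanAlgebra B] [Finite B] (v : ℕ → B), φ.Holds v) ↔
      ∀ N < Q, φ.tr ρ m Q N := by
  constructor
  · intro h N hN
    have h1 := h (Set (Fin N)) (fun _ => ∅)
    rw [holds_set_iff hφ hρ inj hQ, Nat.card_eq_fintype_card, Fintype.card_fin,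
      min_eq_left (by omega)] at h1
    exact h1
  · intro h B _ _ v
    obtain ⟨α, hα, ⟨e⟩⟩ := exists_iso B
    rw [← Fml.holds_iso e φ, holds_set_iff hφ hρ inj hQ]
    have hQ1 : 0 < 2 ^ φ.qd := by positivity
    exact h _ (by omega)

theorem forall_finite_iff' {ρ : ℕ → ℕ} {m Q : ℕ} {φ : Fml} (hφ : φ.IsSentence)
    (hρ : ∀ i, φ.Occurs i → ρ i < m) (inj : Set.InjOn ρ {i | φ.Occurs i})
    (hQ : 2 ^ φ.qd ≤ Q - 1) :
    (∀ (B : Type) [BooleanAlgebra B] [Finite B] [Nontrivial B] (v : ℕ → B), φ.Holds v) ↔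
      ∀ N < Q, 0 < N → φ.tr ρ m Q N := by
  constructor
  · intro h N hN hN0
    have : Nonempty (Fin N) := ⟨⟨0, hN0⟩⟩
    have h1 := h (Set (Fin N)) (fun _ => ∅)
    rw [holds_set_iff hφ hρ inj hQ, Nat.card_eq_fintype_card, Fintype.card_fin,
      min_eq_left (by omega)] at h1
    exact h1
  · intro h B _ _ _ v
    obtain ⟨α, hα, ⟨e⟩⟩ := exists_iso B
    have hne : Nonempty α := by
      by_contra hne
      rw [not_nonempty_iff] at hne
      have h1 : (⊥ : Set α) = ⊤ := Subsingleton.elim _ _
      have h2 : (⊥ : B) = ⊤ := by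
        apply e.injective
        rw [map_bot, map_top, h1]
      exact bot_ne_top h2
    rw [← Fml.holds_iso e φ, holds_set_iff hφ hρ inj hQ]
    have hQ1 : 0 < 2 ^ φ.qd := by positivity
    have hpos : 0 < Nat.card α := Nat.card_pos
    exact h _ (by omega) (by omega)

end Pool.Agent.FBA
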