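import Mathlib
import Pool.Agent.PT.UF

/-!
# Powers of two as bounded terms
-/

set_option autoImplicit false

namespace Pool.Agent.FBA

open Pool.Agent.PT

variable {Γ : Type}

/-- Finite disjunctions. -/
theorem UP.fex {ι : Type*} (s : Finset ι) {P : ι → List Γ → (ℕ → ℕ) → Prop}
    (hP : ∀ a, UP (P a)) : UP (fun x e => ∃ a ∈ s, P a x e) := by
  classical
  refine UP.of_ne_zero (UF.fsum s (F := fun a x e => if P a x e then 1 else 0)
    (fun a _ => (hP a).congr fun x e => by rfl)) fun x e => ?_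
  rw [Ne, Finset.sum_eq_zero_iff]
  simp

/-- Counting. -/
theorem UF.count {b : List Γ → (ℕ → ℕ) → ℕ} {P : List Γ → (ℕ → ℕ) → ℕ → Prop}
    {inst : ∀ x e i, Decidable (P x e i)} (hb : UF b)
    (hP : UP (fun x e => P x (fun i => e (i + 1)) (e 0))) :
    UF (fun x e => ∑ i ∈ Finset.range (b x e), @ite ℕ (P x e i) (inst x e i) 1 0) := by
  classical
  refine UF.sum (f := fun x e i => @ite ℕ (P x e i) (inst x e i) 1 0) hb
    (UF.congr hP fun x e => ?_)
  congr

/-- `y` is a power of two: its divisors are `1` or even. -/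
def isP2 (y : ℕ) : Prop :=
  0 < y ∧ ∀ d < y + 1, (∃ q < y + 1, y = d * q) → d = 1 ∨ ∃ r < y + 1, d = 2 * r

theorem isP2_iff (y : ℕ) : isP2 y ↔ ∃ j, y = 2 ^ j := by
  constructor
  · rintro ⟨h0, h⟩
    obtain ⟨k, m, hm, rfl⟩ := Nat.exists_eq_two_pow_mul_odd h0.ne'
    refine ⟨k, ?_⟩
    have h2 : 1 ≤ 2 ^ k := Nat.one_le_two_pow
    have hm0 : 0 < m := hm.pos
    rcases h m (by nlinarith) ⟨2 ^ k, by nlinarith, by ring⟩ with h1 | ⟨r, _, h1⟩
    · rw [h1, mul_one]
    · exfalso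
      rw [h1] at hm
      exact (Nat.not_odd_iff_even.2 (even_two_mul r)) hm
  · rintro ⟨j, rfl⟩
    refine ⟨by positivity, fun d _ hd => ?_⟩
    obtain ⟨q, _, hq⟩ := hd
    have hdvd : d ∣ 2 ^ j := ⟨q, hq⟩
    obtain ⟨i, hi, rfl⟩ := (Nat.dvd_prime_pow Nat.prime_two).1 hdvd
    rcases i with _ | i
    · left; rfl
    · right
      refine ⟨2 ^ i, ?_, by ring⟩
      have : 2 ^ i ≤ 2 ^ j := Nat.pow_le_pow_right (by norm_num) (by omega)
      omega

theorem UP_isP2 : UP (Γ := Γ) (fun _ e => isP2 (e 0)) := by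
  refine (UP.lt (UF.const 0) (UF.var 0)).and ?_
  refine UP.ball (P := fun _ e d => (∃ q < e 0 + 1, e 0 = d * q) → d = 1 ∨
    ∃ r < e 0 + 1, d = 2 * r) ((UF.var 0).add (UF.const 1)) ?_
  refine UP.imp ?_ (UP.or (UP.eq (UF.var 0) (UF.const 1)) ?_)
  · refine UP.bex (P := fun _ e q => e 1 = e 0 * q) ((UF.var 1).add (UF.const 1)) ?_
    exact UP.eq (UF.var 2) ((UF.var 1).mul (UF.var 0))
  · refine UP.bex (P := fun _ e r => e 0 = 2 * r) ((UF.var 1).add (UF.const 1)) ?_
    exact UP.eq (UF.var 1) ((UF.const 2).mul (UF.var 0))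

open Classical in
/-- The number of powers of two below `y`. -/
noncomputable def lg (y : ℕ) : ℕ := ∑ z ∈ Finset.range y, if isP2 z then 1 else 0

theorem lg_two_pow (j : ℕ) : lg (2 ^ j) = j := by
  classical
  unfold lg
  rw [← Finset.card_filter]
  have : (Finset.range (2 ^ j)).filter isP2 = (Finset.range j).image (fun i => 2 ^ i) := by
    ext z
    simp only [Finset.mem_filter, Finset.mem_range, Finset.mem_image, isP2_iff]
    constructor
    · rintro ⟨h1, i, rfl⟩
      exact ⟨i, (Nat.pow_lt_pow_iff_right (by norm_num)).1 h1, rfl⟩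
    · rintro ⟨i, hi, rfl⟩
      exact ⟨Nat.pow_lt_pow_right (by norm_num) hi, i, rfl⟩
  rw [this, Finset.card_image_of_injective _ (Nat.pow_right_injective le_rfl), Finset.card_range]

theorem UF_lg : UF (Γ := Γ) (fun _ e => lg (e 0)) :=
  UF.count (P := fun _ _ i => isP2 i) (UF.var 0) UP_isP2

open Classical in
/-- `2 ^ j` if this is at most `N`, and `0` otherwise. -/
noncomputable def pw (N j : ℕ) : ℕ :=
  ∑ y ∈ Finset.range (N + 1), if isP2 y ∧ lg y = j then y else 0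

theorem pw_eq (N j : ℕ) : pw N j = if 2 ^ j ≤ N then 2 ^ j else 0 := by
  classical
  unfold pw
  have h : ∀ y, (isP2 y ∧ lg y = j) ↔ y = 2 ^ j := by
    intro y
    constructor
    · rintro ⟨h1, h2⟩
      obtain ⟨i, rfl⟩ := (isP2_iff y).1 h1
      rw [lg_two_pow] at h2
      rw [h2]
    · rintro rfl
      exact ⟨(isP2_iff _).2 ⟨j, rfl⟩, lg_two_pow j⟩
  simp only [h]
  rw [Finset.sum_ite_eq']
  simp only [Finset.mem_range, Nat.lt_succ_iff]

theorem UF_pw {f g : List Γ → (ℕ → ℕ) → ℕ} (hf : UF f) (hg : UF g) :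
    UF (fun x e => pw (f x e) (g x e)) := by
  classical
  have h : UF (Γ := Γ) (fun _ e => pw (e 0) (e 1)) := by
    refine UF.sum (f := fun _ e y => if isP2 y ∧ lg y = e 1 then y else 0)
      ((UF.var 0).add (UF.const 1)) ?_
    exact UF.ite (inst := fun _ _ => _) (UP_isP2.and (UP.eq UF_lg (UF.var 2))) (UF.var 0)
      (UF.const 0)
  exact UF.comp₂ (f := fun _ a b => pw a b) h hf hg

end Pool.Agent.FBA
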