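import Mathlib
import Pool.Agent.FBA.Pow
import Pool.Agent.FBA.Names2

/-!
# The word functions of the decision procedure, as bounded terms
-/

set_option autoImplicit false

namespace Pool.Agent.FBA

open Pool.Agent.PT

/-- The work alphabet: input letters (marked when processed), padding letters, and table letters
with a type and a value. -/
inductive Ltr : Type
  | inp (a : Sym) (d : Bool) : Ltr
  | pad : Ltr
  | tb (ty v : Bool) : Ltr
  deriving DecidableEq, Fintype

open Classical in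
/-- The number of input letters. -/
noncomputable def nI (w : List Ltr) : ℕ := ∑ i ∈ Finset.range w.length,
  if ∃ a ∈ (Finset.univ : Finset Sym), ∃ d ∈ (Finset.univ : Finset Bool),
    w[i]? = some (.inp a d) then 1 else 0

open Classical in
/-- The number of unprocessed input letters. -/
noncomputable def nU (w : List Ltr) : ℕ := ∑ i ∈ Finset.range w.length,
  if ∃ a ∈ (Finset.univ : Finset Sym), w[i]? = some (.inp a false) then 1 else 0

open Classical in
/-- The number of padding letters. -/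
noncomputable def nP (w : List Ltr) : ℕ := ∑ i ∈ Finset.range w.length,
  if w[i]? = some .pad then 1 else 0

/-- The input letters. -/
def LW (w : List Ltr) (a : Sym) (p : ℕ) : Prop :=
  w[p]? = some (.inp a true) ∨ w[p]? = some (.inp a false)

theorem UF_nI : UF (fun w _ => nI w) := by
  refine UF.count (P := fun w _ i => ∃ a ∈ (Finset.univ : Finset Sym),
    ∃ d ∈ (Finset.univ : Finset Bool), w[i]? = some (Ltr.inp a d)) UF.len ?_
  exact UP.fex _ fun a => UP.fex _ fun d => UP.sym _ (UF.var 0)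

theorem UF_nU : UF (fun w _ => nU w) := by
  refine UF.count (P := fun w _ i => ∃ a ∈ (Finset.univ : Finset Sym),
    w[i]? = some (Ltr.inp a false)) UF.len ?_
  exact UP.fex _ fun a => UP.sym _ (UF.var 0)

theorem UF_nP : UF (fun w _ => nP w) := by
  refine UF.count (P := fun w _ i => w[i]? = some Ltr.pad) UF.len ?_
  exact UP.sym _ (UF.var 0)

theorem UP_LW (a : Sym) : UP (fun w e => LW w a (e 0)) :=
  (UP.sym _ (UF.var 0)).or (UP.sym _ (UF.var 0))

theorem UP_LW' (a : Sym) {f : List Ltr → (ℕ → ℕ) → ℕ} (hf : UF f) :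
    UP (fun w e => LW w a (f w e)) :=
  UP.comp₁ (P := fun w p => LW w a p) (UP_LW a) hf

theorem UP_isDig {f : List Ltr → (ℕ → ℕ) → ℕ} (hf : UF f) :
    UP (fun w e => isDig (LW w) (f w e)) := (UP_LW' _ hf).or (UP_LW' _ hf)

theorem UP_occ {f : List Ltr → (ℕ → ℕ) → ℕ} (hf : UF f) :
    UP (fun w e => occ (LW w) (f w e)) := (UP_LW' _ hf).or ((UP_LW' _ hf).or (UP_LW' _ hf))

theorem UP_runs {f g : List Ltr → (ℕ → ℕ) → ℕ} (hf : UF f) (hg : UF g) :
    UP (fun w e => runs (LW w) (f w e) (g w e)) := by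
  refine UP.comp₂ (P := fun w q i => runs (LW w) q i) ?_ hf hg
  refine UP.ball (P := fun w e j => isDig (LW w) (e 0 + 1 + j)) (UF.var 1) ?_
  exact UP_isDig (((UF.var 1).add (UF.const 1)).add (UF.var 0))

theorem UP_same {f g : List Ltr → (ℕ → ℕ) → ℕ} (hf : UF f) (hg : UF g) :
    UP (fun w e => same (LW w) (nI w) (f w e) (g w e)) := by
  refine UP.comp₂ (P := fun w q q' => same (LW w) (nI w) q q') ?_ hf hg
  refine UP.ball (P := fun w e i => runs (LW w) (e 0) i → runs (LW w) (e 1) i →
    ((LW w (.bit true) (e 0 + 1 + i) ↔ LW w (.bit true) (e 1 + 1 + i)) ∧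
    (LW w (.bit false) (e 0 + 1 + i) ↔ LW w (.bit false) (e 1 + 1 + i)))) UF_nI ?_
  have h1 : UF (Γ := Ltr) (fun _ e => e 1 + 1 + e 0) :=
    ((UF.var 1).add (UF.const 1)).add (UF.var 0)
  have h2 : UF (Γ := Ltr) (fun _ e => e 2 + 1 + e 0) :=
    ((UF.var 2).add (UF.const 1)).add (UF.var 0)
  exact (UP_runs (UF.var 1) (UF.var 0)).imp ((UP_runs (UF.var 2) (UF.var 0)).imp
    (((UP_LW' _ h1).iff (UP_LW' _ h2)).and ((UP_LW' _ h1).iff (UP_LW' _ h2))))

theorem UP_first {f : List Ltr → (ℕ → ℕ) → ℕ} (hf : UF f) :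
    UP (fun w e => first (LW w) (nI w) (f w e)) := by
  refine UP.comp₁ (P := fun w q => first (LW w) (nI w) q) ?_ hf
  refine (UP_occ (UF.var 0)).and ?_
  refine UP.ball (P := fun w e q' => occ (LW w) q' → ¬ same (LW w) (nI w) q' (e 0)) (UF.var 0) ?_
  exact (UP_occ (UF.var 0)).imp (UP_same (UF.var 0) (UF.var 1)).not

/-- The number of names. -/
noncomputable def mW (w : List Ltr) : ℕ := numN (LW w) (nI w)

theorem UF_mW : UF (fun w _ => mW w) :=
  UF.count (P := fun w _ q => first (LW w) (nI w) q) UF_nI (UP_first (UF.var 0))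

theorem UF_rk {f : List Ltr → (ℕ → ℕ) → ℕ} (hf : UF f) :
    UF (fun w e => rkL (LW w) (nI w) (f w e)) := by
  refine UF.comp₁ (f := fun w p => rkL (LW w) (nI w) p) ?_ hf
  refine UF.count (P := fun w e q => first (LW w) (nI w) q ∧
    ∀ q' < q + 1, occ (LW w) q' → ¬ same (LW w) (nI w) q' (e 0)) UF_nI ?_
  refine (UP_first (UF.var 0)).and ?_
  refine UP.ball (P := fun w e q' => occ (LW w) q' → ¬ same (LW w) (nI w) q' (e 1))
    ((UF.var 0).add (UF.const 1)) ?_
  exact (UP_occ (UF.var 0)).imp (UP_same (UF.var 0) (UF.var 2)).not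

theorem UP_canon {f : List Ltr → (ℕ → ℕ) → ℕ} (hf : UF f) :
    UP (fun w e => canonL (LW w) (nI w) (f w e)) := by
  refine UP.comp₁ (P := fun w p => canonL (LW w) (nI w) p) ?_ hf
  refine UP.ball (P := fun w e i => runs (LW w) (e 0) (i + 1) →
    ¬ isDig (LW w) (e 0 + 1 + (i + 1)) → LW w (.bit true) (e 0 + 1 + i)) UF_nI ?_
  refine (UP_runs (UF.var 1) ((UF.var 0).add (UF.const 1))).imp
    ((UP_isDig (((UF.var 1).add (UF.const 1)).add ((UF.var 0).add (UF.const 1)))).not.imp
    (UP_LW' _ (((UF.var 1).add (UF.const 1)).add (UF.var 0))))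

/-- The number of cells. -/
noncomputable def CW (w : List Ltr) : ℕ := pw w.length (mW w)

/-- The base. -/
noncomputable def QW (w : List Ltr) : ℕ := pw w.length (nI w)

/-- The length of a table. -/
noncomputable def BW (w : List Ltr) : ℕ := (nP w + 1) * CW w

theorem UF_CW : UF (fun w _ => CW w) := UF_pw UF.len UF_mW
theorem UF_QW : UF (fun w _ => QW w) := UF_pw UF.len UF_nI
theorem UF_BW : UF (fun w _ => BW w) := (UF_nP.add (UF.const 1)).mul UF_CW

/-- The digits of a state. -/
noncomputable def digW (w : List Ltr) (s c : ℕ) : ℕ := s / pw w.length (nI w * c) % QW w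

theorem UF_digW {f g : List Ltr → (ℕ → ℕ) → ℕ} (hf : UF f) (hg : UF g) :
    UF (fun w e => digW w (f w e) (g w e)) :=
  UF.comp₂ (f := fun w s c => digW w s c)
    (((UF.var 0).div (UF_pw UF.len (UF_nI.mul (UF.var 1)))).mod UF_QW) hf hg

/-- Flipping a bit. -/
noncomputable def flW (w : List Ltr) (c j : ℕ) : ℕ :=
  if c / pw w.length j % 2 = 0 then c + pw w.length j else c - pw w.length j

theorem UF_flW {f g : List Ltr → (ℕ → ℕ) → ℕ} (hf : UF f) (hg : UF g) :
    UF (fun w e => flW w (f w e) (g w e)) := by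
  refine UF.comp₂ (f := fun w c j => flW w c j) ?_ hf hg
  exact UF.ite (inst := fun _ _ => _) (UP.eq (((UF.var 0).div (UF_pw UF.len (UF.var 1))).mod
    (UF.const 2)) (UF.const 0)) ((UF.var 0).add (UF_pw UF.len (UF.var 1)))
    ((UF.var 0).sub (UF_pw UF.len (UF.var 1)))

/-- A bit of a cell. -/
def btW (w : List Ltr) (c j : ℕ) : Prop := c / pw w.length j % 2 = 1

theorem UP_btW {f g : List Ltr → (ℕ → ℕ) → ℕ} (hf : UF f) (hg : UF g) :
    UP (fun w e => btW w (f w e) (g w e)) :=
  UP.comp₂ (P := fun w c j => btW w c j) (UP.eq (((UF.var 0).div (UF_pw UF.len (UF.var 1))).mod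
    (UF.const 2)) (UF.const 1)) hf hg

/-- Compatibility of two states. -/
def cmW (w : List Ltr) (j s s' : ℕ) : Prop := ∀ c < CW w,
  min (QW w - 1) (digW w s c + digW w s (flW w c j)) =
    min (QW w - 1) (digW w s' c + digW w s' (flW w c j))

theorem UP_cmW {f g h : List Ltr → (ℕ → ℕ) → ℕ} (hf : UF f) (hg : UF g) (hh : UF h) :
    UP (fun w e => cmW w (f w e) (g w e) (h w e)) := by
  refine UP.comp₃ (P := fun w j s s' => cmW w j s s') ?_ hf hg hh
  refine UP.ball (P := fun w e c => min (QW w - 1) (digW w (e 1) c + digW w (e 1) (flW w c (e 0))) =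
    min (QW w - 1) (digW w (e 2) c + digW w (e 2) (flW w c (e 0)))) UF_CW ?_
  have hQ : UF (fun w _ => QW w - 1) := UF_QW.sub (UF.const 1)
  have hfl : UF (fun w e => flW w (e 0) (e 1)) := UF_flW (UF.var 0) (UF.var 1)
  exact UP.eq (hQ.min ((UF_digW (UF.var 2) (UF.var 0)).add (UF_digW (UF.var 2) hfl)))
    (hQ.min ((UF_digW (UF.var 3) (UF.var 0)).add (UF_digW (UF.var 3) hfl)))

/-- The table on top of the stack. -/
def T1W (w : List Ltr) (k : ℕ) : Prop :=
  ∃ ty ∈ (Finset.univ : Finset Bool), w[w.length - BW w + k]? = some (.tb ty true)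

/-- The second table. -/
def T2W (w : List Ltr) (k : ℕ) : Prop :=
  ∃ ty ∈ (Finset.univ : Finset Bool), w[w.length - 2 * BW w + k]? = some (.tb ty true)

theorem UP_T1W {f : List Ltr → (ℕ → ℕ) → ℕ} (hf : UF f) : UP (fun w e => T1W w (f w e)) :=
  UP.comp₁ (P := fun w k => T1W w k)
    (UP.fex _ fun _ => UP.sym _ ((UF.len.sub UF_BW).add (UF.var 0))) hf

theorem UP_T2W {f : List Ltr → (ℕ → ℕ) → ℕ} (hf : UF f) : UP (fun w e => T2W w (f w e)) :=
  UP.comp₁ (P := fun w k => T2W w k)
    (UP.fex _ fun _ => UP.sym _ ((UF.len.sub ((UF.const 2).mul UF_BW)).add (UF.var 0))) hf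

/-- The truth part of the new table. -/
def opA (C S : ℕ) (dg : ℕ → ℕ → ℕ) (cm : ℕ → ℕ → ℕ → Prop) (bt : ℕ → ℕ → Prop) (a : Sym) (j : ℕ)
    (T1 T2 : ℕ → Prop) (k : ℕ) : Prop :=
  match a with
  | .var => bt (k % C) j
  | .one => True
  | .compl => ¬ T1 k
  | .not => ¬ T1 k
  | .inf => T1 k ∧ T2 k
  | .and => T1 k ∧ T2 k
  | .sup => T1 k ∨ T2 k
  | .or => T1 k ∨ T2 k
  | .imp => T1 k → T2 k
  | .iff => T1 k ↔ T2 k
  | .eq => ∀ c < C, dg (k / C) c ≠ 0 → (T1 (k / C * C + c) ↔ T2 (k / C * C + c))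
  | .all => ∀ s < S, cm j (k / C) s → T1 (s * C + k % C)
  | .ex => ∃ s < S, cm j (k / C) s ∧ T1 (s * C + k % C)
  | _ => False

/-- The variable part of the new table. -/
def opB (C : ℕ) (a : Sym) (j : ℕ) (T1 T2 : ℕ → Prop) (k : ℕ) : Prop :=
  match a with
  | .var => k % C = j
  | .compl => T1 k
  | .not => T1 k
  | .inf => T1 k ∨ T2 k
  | .and => T1 k ∨ T2 k
  | .sup => T1 k ∨ T2 k
  | .or => T1 k ∨ T2 k
  | .imp => T1 k ∨ T2 k
  | .iff => T1 k ∨ T2 k
  | .eq => T1 k ∨ T2 k
  | .all => k % C ≠ j ∧ T1 k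
  | .ex => k % C ≠ j ∧ T1 k
  | _ => False

/-- The new table. -/
def opW (w : List Ltr) (a : Sym) (j k : ℕ) : Prop :=
  (k / CW w < nP w ∧ opA (CW w) (nP w) (digW w) (cmW w) (btW w) a j (T1W w) (T2W w) k) ∨
  (¬ k / CW w < nP w ∧ opB (CW w) a j (T1W w) (T2W w) k)

theorem UP_opA (a : Sym) : UP (fun w e => opA (CW w) (nP w) (digW w) (cmW w) (btW w) a (e 0)
    (T1W w) (T2W w) (e 1)) := by
  have hdiv : UF (fun w e => e 1 / CW w) := (UF.var 1).div UF_CW
  have hmod : UF (fun w e => e 1 % CW w) := (UF.var 1).mod UF_CW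
  have h1 : UP (fun w e => T1W w (e 1)) := UP_T1W (UF.var 1)
  have h2 : UP (fun w e => T2W w (e 1)) := UP_T2W (UF.var 1)
  cases a with
  | bit b => exact UP.false
  | var => exact UP_btW hmod (UF.var 0)
  | zero => exact UP.false
  | one => exact UP.true
  | compl => exact h1.not
  | not => exact h1.not
  | inf => exact h1.and h2
  | and => exact h1.and h2
  | sup => exact h1.or h2
  | or => exact h1.or h2
  | imp => exact h1.imp h2
  | iff => exact h1.iff h2
  | eq =>
    refine UP.ball (P := fun w e c => digW w (e 1 / CW w) c ≠ 0 →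
      (T1W w (e 1 / CW w * CW w + c) ↔ T2W w (e 1 / CW w * CW w + c))) UF_CW ?_
    have hdiv' : UF (fun w e => e 2 / CW w) := (UF.var 2).div UF_CW
    exact (UP.ne (UF_digW hdiv' (UF.var 0)) (UF.const 0)).imp
      ((UP_T1W ((hdiv'.mul UF_CW).add (UF.var 0))).iff (UP_T2W ((hdiv'.mul UF_CW).add (UF.var 0))))
  | all =>
    refine UP.ball (P := fun w e s => cmW w (e 0) (e 1 / CW w) s → T1W w (s * CW w + e 1 % CW w))
      UF_nP ?_
    exact (UP_cmW (UF.var 1) ((UF.var 2).div UF_CW) (UF.var 0)).imp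
      (UP_T1W (((UF.var 0).mul UF_CW).add ((UF.var 2).mod UF_CW)))
  | ex =>
    refine UP.bex (P := fun w e s => cmW w (e 0) (e 1 / CW w) s ∧ T1W w (s * CW w + e 1 % CW w))
      UF_nP ?_
    exact (UP_cmW (UF.var 1) ((UF.var 2).div UF_CW) (UF.var 0)).and
      (UP_T1W (((UF.var 0).mul UF_CW).add ((UF.var 2).mod UF_CW)))

theorem UP_opB (a : Sym) : UP (fun w e => opB (CW w) a (e 0) (T1W w) (T2W w) (e 1)) := by
  have hmod : UF (fun w e => e 1 % CW w) := (UF.var 1).mod UF_CW
  have h1 : UP (fun w e => T1W w (e 1)) := UP_T1W (UF.var 1)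
  have h2 : UP (fun w e => T2W w (e 1)) := UP_T2W (UF.var 1)
  cases a with
  | bit b => exact UP.false
  | var => exact UP.eq hmod (UF.var 0)
  | zero => exact UP.false
  | one => exact UP.false
  | compl => exact h1
  | not => exact h1
  | inf => exact h1.or h2
  | and => exact h1.or h2
  | sup => exact h1.or h2
  | or => exact h1.or h2
  | imp => exact h1.or h2
  | iff => exact h1.or h2
  | eq => exact h1.or h2
  | all => exact (UP.ne hmod (UF.var 0)).and h1
  | ex => exact (UP.ne hmod (UF.var 0)).and h1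

theorem UP_opW (a : Sym) {f g : List Ltr → (ℕ → ℕ) → ℕ} (hf : UF f) (hg : UF g) :
    UP (fun w e => opW w a (f w e) (g w e)) := by
  refine UP.comp₂ (P := fun w j k => opW w a j k) ?_ hf hg
  have h : UP (fun w e => e 1 / CW w < nP w) := UP.lt ((UF.var 1).div UF_CW) UF_nP
  exact (h.and (UP_opA a)).or (h.not.and (UP_opB a))

/-- The padding is complete. -/
def Ready (w : List Ltr) : Prop := CW w ≠ 0 ∧ nP w ≠ 0 ∧ pw w.length (nI w * CW w) = nP w

theorem UP_Ready : UP (fun w _ => Ready w) :=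
  (UP.ne UF_CW (UF.const 0)).and ((UP.ne UF_nP (UF.const 0)).and
    (UP.eq (UF_pw UF.len (UF_nI.mul UF_CW)) UF_nP))

/-- The symbol to be processed can be processed. -/
def okW (w : List Ltr) (a : Sym) : Prop :=
  (if a.dg then canonL (LW w) (nI w) (nU w - 1) else ¬ isDig (LW w) (nU w - 1 + 1)) ∧
  nI w + nP w + a.ar * BW w ≤ w.length ∧
  (0 < a.ar → ∃ v ∈ (Finset.univ : Finset Bool), w[w.length - BW w]? = some (.tb a.argTy v)) ∧
  (1 < a.ar → ∃ v ∈ (Finset.univ : Finset Bool), w[w.length - 2 * BW w]? = some (.tb a.argTy v))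

theorem UP_okW (a : Sym) : UP (fun w _ => okW w a) := by
  have hp : UF (fun w _ => nU w - 1) := UF_nU.sub (UF.const 1)
  refine UP.and ?_ ((UP.le ((UF_nI.add UF_nP).add ((UF.const _).mul UF_BW)) UF.len).and
    (((UP.const _).imp (UP.fex _ fun v => UP.sym _ (UF.len.sub UF_BW))).and
    ((UP.const _).imp (UP.fex _ fun v => UP.sym _ (UF.len.sub ((UF.const 2).mul UF_BW))))))
  cases h : a.dg with
  | true => exact (UP_canon hp).congr fun x e => by simp
  | false => exact (UP_isDig (hp.add (UF.const 1))).not.congr fun x e => by simp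

open Classical in
/-- The length of the next word. -/
noncomputable def M1 (w : List Ltr) : ℕ :=
  if Ready w then ∑ a ∈ (Finset.univ : Finset Sym), (if LW w a (nU w - 1) then
    (if a.isBit = true then w.length else if okW w a then w.length + BW w - a.ar * BW w else 0)
    else 0)
  else w.length + nP w

theorem UF_M1 : UF (fun w _ => M1 w) := by
  refine UF.ite (inst := fun _ _ => _) UP_Ready (UF.fsum _ fun a _ => ?_) (UF.len.add UF_nP)
  refine UF.ite (inst := fun _ _ => _) (UP_LW' a (UF_nU.sub (UF.const 1))) ?_ (UF.const 0)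
  refine UF.ite (inst := fun _ _ => _) (UP.const _) UF.len ?_
  exact UF.ite (inst := fun _ _ => _) (UP_okW a)
    ((UF.len.add UF_BW).sub ((UF.const _).mul UF_BW)) (UF.const 0)

/-- Reading a letter. -/
def getL (w : List Ltr) (i : ℕ) : Ltr := (w[i]?).getD .pad

/-- Marking a letter. -/
def mark : Ltr → Ltr
  | .inp a _ => .inp a true
  | l => l

/-- The current symbol is a digit. -/
def curBit (w : List Ltr) : Prop :=
  ∃ a ∈ (Finset.univ : Finset Sym), LW w a (nU w - 1) ∧ a.isBit = true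

/-- The type of the new item. -/
def curTy (w : List Ltr) : Prop :=
  ∃ a ∈ (Finset.univ : Finset Sym), LW w a (nU w - 1) ∧ a.resTy = true

/-- The values of the new table. -/
def curV (w : List Ltr) (k : ℕ) : Prop :=
  ∃ a ∈ (Finset.univ : Finset Sym), LW w a (nU w - 1) ∧ opW w a (rkL (LW w) (nI w) (nU w - 1)) k

open Classical in
/-- The letters of the next word. -/
noncomputable def G1 (w : List Ltr) (i : ℕ) : Ltr :=
  if Ready w then
    (if i < nI w + nP w then (if i = nU w - 1 then mark (getL w i) else getL w i)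
    else if curBit w then getL w i
    else if i < M1 w - BW w then getL w i
    else Ltr.tb (decide (curTy w)) (decide (curV w (i - (M1 w - BW w)))))
  else getL w i

theorem UP_getL {f : List Ltr → (ℕ → ℕ) → ℕ} (hf : UF f) (l : Ltr) :
    UP (fun w e => getL w (f w e) = l) := by
  refine UP.comp₁ (P := fun w i => getL w i = l) ?_ hf
  by_cases hl : l = .pad
  · refine ((UP.sym Ltr.pad (UF.var 0)).or (UP.le UF.len (UF.var 0))).congr fun w e => ?_
    subst hl
    unfold getL
    rcases lt_or_ge (e 0) w.length with h | h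
    · rw [List.getElem?_eq_getElem h]
      simp [Nat.not_le.2 h]
    · rw [List.getElem?_eq_none h]
      simp [h]
  · refine (UP.sym l (UF.var 0)).congr fun w e => ?_
    unfold getL
    rcases lt_or_ge (e 0) w.length with h | h
    · rw [List.getElem?_eq_getElem h]
      simp
    · rw [List.getElem?_eq_none h]
      simp [Ne.symm hl]

theorem UP_iteL {P : List Ltr → (ℕ → ℕ) → Prop} {inst : ∀ w e, Decidable (P w e)}
    {A B : List Ltr → (ℕ → ℕ) → Ltr} {l : Ltr} (hP : UP P) (hA : UP (fun w e => A w e = l))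
    (hB : UP (fun w e => B w e = l)) :
    UP (fun w e => @ite Ltr (P w e) (inst w e) (A w e) (B w e) = l) := by
  refine ((hP.and hA).or (hP.not.and hB)).congr fun w e => ?_
  by_cases h : P w e <;> simp [h]

theorem UP_G1 (l : Ltr) : UP (fun w e => G1 w (e 0) = l) := by
  classical
  have hp : UF (fun w _ => nU w - 1) := UF_nU.sub (UF.const 1)
  have hget : UP (fun w e => getL w (e 0) = l) := UP_getL (UF.var 0) l
  refine UP_iteL UP_Ready ?_ hget
  refine UP_iteL (UP.lt (UF.var 0) (UF_nI.add UF_nP)) ?_ ?_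
  · refine UP_iteL (UP.eq (UF.var 0) hp) ?_ hget
    refine (UP.fex (Finset.univ : Finset Ltr) (P := fun l' w e => getL w (e 0) = l' ∧ mark l' = l)
      fun l' => (UP_getL (UF.var 0) l').and (UP.const _)).congr fun w e => ?_
    simp
  · refine UP_iteL (UP.fex _ fun a => (UP_LW' a hp).and (UP.const _)) hget ?_
    refine UP_iteL (UP.lt (UF.var 0) (UF_M1.sub UF_BW)) hget ?_
    have hty : UP (fun w _ => curTy w) := UP.fex _ fun a => (UP_LW' a hp).and (UP.const _)
    have hv : UP (fun w e => curV w (e 0 - (M1 w - BW w))) := UP.fex _ fun a =>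
      (UP_LW' a hp).and (UP_opW a (UF_rk hp) ((UF.var 0).sub (UF_M1.sub UF_BW)))
    refine (UP.fex (Finset.univ : Finset (Bool × Bool)) (P := fun q w e =>
      (curTy w ↔ q.1 = true) ∧ (curV w (e 0 - (M1 w - BW w)) ↔ q.2 = true) ∧ Ltr.tb q.1 q.2 = l)
      fun q => (hty.iff (UP.const _)).and ((hv.iff (UP.const _)).and (UP.const _))).congr
      fun w e => ?_
    constructor
    · rintro ⟨⟨a, b⟩, _, h1, h2, h3⟩
      rw [← h3]
      congr 1
      · cases a <;> simp_all
      · cases b <;> simp_all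
    · rintro h
      exact ⟨(decide (curTy w), decide (curV w (e 0 - (M1 w - BW w)))), Finset.mem_univ _,
        by simp, by simp, h⟩

/-- The machine goes on. -/
def ContW (w : List Ltr) : Prop := w.length ≠ 0 ∧ (¬ Ready w ∨ 0 < nU w)

theorem UP_ContW : UP (fun w _ => ContW w) :=
  (UP.ne UF.len (UF.const 0)).and (UP_Ready.not.or (UP.lt (UF.const 0) UF_nU))

/-- The machine accepts; algebras with fewer than `N0` atoms are ignored. -/
def AccW (N0 : ℕ) (w : List Ltr) : Prop :=
  w.length = nI w + nP w + BW w ∧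
  (∃ v ∈ (Finset.univ : Finset Bool), w[w.length - BW w]? = some (.tb true v)) ∧
  ¬ isDig (LW w) 0 ∧
  (∀ N < QW w, N0 ≤ N → T1W w (N * CW w)) ∧
  (∀ c < CW w, ¬ T1W w (nP w * CW w + c))

theorem UP_AccW (N0 : ℕ) : UP (fun w _ => AccW N0 w) := by
  refine (UP.eq UF.len ((UF_nI.add UF_nP).add UF_BW)).and
    ((UP.fex _ fun v => UP.sym _ (UF.len.sub UF_BW)).and
    ((UP_isDig (UF.const 0)).not.and (UP.and ?_ ?_)))
  · refine UP.ball (P := fun w _ N => N0 ≤ N → T1W w (N * CW w)) UF_QW ?_
    exact (UP.le (UF.const N0) (UF.var 0)).imp (UP_T1W ((UF.var 0).mul UF_CW))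
  · refine UP.ball (P := fun w _ c => ¬ T1W w (nP w * CW w + c)) UF_CW ?_
    exact (UP_T1W ((UF_nP.mul UF_CW).add (UF.var 0))).not

/-- The letters of the first word. -/
def G0 (x : List Sym) (i : ℕ) : Ltr :=
  match x[i]? with
  | some a => .inp a false
  | none => .pad

theorem UP_G0 (l : Ltr) : UP (fun x e => G0 x (e 0) = l) := by
  cases l with
  | inp a d =>
    cases d with
    | false =>
      refine (UP.sym a (UF.var 0)).congr fun x e => ?_
      unfold G0
      cases x[e 0]? <;> simp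
    | true =>
      refine UP.false.congr fun x e => ?_
      unfold G0
      cases x[e 0]? <;> simp
  | pad =>
    refine (UP.le UF.len (UF.var 0)).congr fun x e => ?_
    unfold G0
    rcases lt_or_ge (e 0) x.length with h | h
    · rw [List.getElem?_eq_getElem h]
      simp [h]
    · rw [List.getElem?_eq_none h]
      simp [h]
  | tb ty v =>
    refine UP.false.congr fun x e => ?_
    unfold G0
    cases x[e 0]? <;> simp

/-- The first word. -/
def F0 (x : List Sym) : List Ltr := (List.range (x.length + 1)).map (G0 x)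

/-- The next word. -/
noncomputable def F1 (w : List Ltr) : List Ltr := (List.range (M1 w)).map (G1 w)

end Pool.Agent.FBA
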