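import Mathlib
import Pool.Agent.FBA.Word
import Pool.Agent.FBA.Sem2

/-!
# Words representing stacks of tables
-/

set_option autoImplicit false

namespace Pool.Agent.FBA

/-- The number of cells. -/
noncomputable def CC (x : List Sym) : ℕ := 2 ^ mX x

/-- The base. -/
def QQ (x : List Sym) : ℕ := 2 ^ x.length

/-- The number of states. -/
noncomputable def SS (x : List Sym) : ℕ := QQ x ^ CC x

/-- The length of a table. -/
noncomputable def BB (x : List Sym) : ℕ := (SS x + 1) * CC x

/-- The truth part of a table. -/
noncomputable def tabA (x : List Sym) (it : Item) (k : ℕ) : Prop :=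
  match it with
  | .tm t => t.cell (rhoX x) (k % CC x) = true
  | .fm φ => φ.tr (rhoX x) (mX x) (QQ x) (k / CC x)

/-- The variable part of a table. -/
noncomputable def tabB (x : List Sym) (it : Item) (k : ℕ) : Prop :=
  match it with
  | .tm t => t.fvr (rhoX x) (k % CC x)
  | .fm φ => φ.fvr (rhoX x) (k % CC x)

/-- The table of a term or formula. -/
noncomputable def tab (x : List Sym) (it : Item) (k : ℕ) : Prop :=
  (k / CC x < SS x ∧ tabA x it k) ∨ (¬ k / CC x < SS x ∧ tabB x it k)

open Classical in
/-- The letters of the word with `d` unprocessed letters, `P` padding letters and stack `st`. -/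
noncomputable def cl (x : List Sym) (d P : ℕ) (st : List Item) (i : ℕ) : Ltr :=
  if i < x.length then .inp ((x[i]?).getD .zero) (decide (d ≤ i))
  else if i < x.length + P then .pad
  else .tb ((st.reverse[(i - (x.length + P)) / BB x]?).getD dft).ty
    (decide (tab x ((st.reverse[(i - (x.length + P)) / BB x]?).getD dft)
      ((i - (x.length + P)) % BB x)))

/-- The word. -/
noncomputable def WW (x : List Sym) (d P : ℕ) (st : List Item) : List Ltr :=
  (List.range (x.length + P + st.length * BB x)).map (cl x d P st)

variable {x : List Sym} {d P : ℕ} {st : List Item}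

theorem CC_pos (x : List Sym) : 0 < CC x := by unfold CC; positivity
theorem QQ_pos (x : List Sym) : 0 < QQ x := by unfold QQ; positivity
theorem SS_pos (x : List Sym) : 0 < SS x := by unfold SS; exact pow_pos (QQ_pos x) _
theorem BB_pos (x : List Sym) : 0 < BB x := by
  unfold BB; exact Nat.mul_pos (Nat.succ_pos _) (CC_pos x)

theorem SS_eq (x : List Sym) : SS x = 2 ^ (x.length * 2 ^ mX x) := by
  unfold SS QQ CC
  rw [pow_mul]

theorem mX_le_length (x : List Sym) : mX x ≤ x.length := by
  classical
  rw [mX_eq]
  exact (Finset.card_filter_le _ _).trans (by simp)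

theorem CC_le_SS (x : List Sym) : CC x ≤ SS x := by
  rw [SS_eq]
  unfold CC
  apply Nat.pow_le_pow_right (by norm_num)
  have h1 := mX_le_length x
  have h2 : 1 ≤ 2 ^ mX x := Nat.one_le_two_pow
  nlinarith

theorem QQ_le_SS (x : List Sym) : QQ x ≤ SS x := by
  unfold SS
  exact Nat.le_self_pow (CC_pos x).ne' _

theorem WW_length : (WW x d P st).length = x.length + P + st.length * BB x := by
  simp [WW]

theorem WW_get (i : ℕ) : (WW x d P st)[i]? =
    if i < x.length + P + st.length * BB x then some (cl x d P st i) else none := by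
  unfold WW
  rw [List.getElem?_map]
  split_ifs with h
  · rw [List.getElem?_range h]; rfl
  · rw [List.getElem?_eq_none (by simpa using h)]; rfl

theorem count_lt (N a : ℕ) (h : a ≤ N) (p : ℕ → Prop) [DecidablePred p]
    (hp : ∀ i < N, p i ↔ i < a) : ∑ i ∈ Finset.range N, (if p i then 1 else 0) = a := by
  rw [← Finset.card_filter]
  have : (Finset.range N).filter p = Finset.range a := by
    ext i
    simp only [Finset.mem_filter, Finset.mem_range]
    constructor
    · rintro ⟨h1, h2⟩; exact (hp i h1).1 h2
    · intro h1; exact ⟨by omega, (hp i (by omega)).2 h1⟩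
  rw [this, Finset.card_range]

theorem count_mid (N a b : ℕ) (h : a + b ≤ N) (p : ℕ → Prop) [DecidablePred p]
    (hp : ∀ i < N, p i ↔ a ≤ i ∧ i < a + b) :
    ∑ i ∈ Finset.range N, (if p i then 1 else 0) = b := by
  rw [← Finset.card_filter]
  have : (Finset.range N).filter p = Finset.Ico a (a + b) := by
    ext i
    simp only [Finset.mem_filter, Finset.mem_range, Finset.mem_Ico]
    constructor
    · rintro ⟨h1, h2⟩; exact (hp i h1).1 h2
    · intro h1; exact ⟨by omega, (hp i (by omega)).2 h1⟩
  rw [this, Nat.card_Ico]
  omega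

theorem nI_WW : nI (WW x d P st) = x.length := by
  classical
  unfold nI
  rw [WW_length]
  refine count_lt _ _ (by omega) _ fun i hi => ?_
  rw [WW_get, if_pos hi]
  unfold cl
  split_ifs with h1 h2
  · simp [h1]
  · simp [h1]
  · simp [h1]

theorem nU_WW (hd : d ≤ x.length) : nU (WW x d P st) = d := by
  classical
  unfold nU
  rw [WW_length]
  refine count_lt _ _ (by omega) _ fun i hi => ?_
  rw [WW_get, if_pos hi]
  unfold cl
  split_ifs with h1 h2
  · simp
  · simp; omega
  · simp; omega

theorem nP_WW : nP (WW x d P st) = P := by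
  classical
  unfold nP
  rw [WW_length]
  refine count_mid _ x.length P (by omega) _ fun i hi => ?_
  rw [WW_get, if_pos hi]
  unfold cl
  split_ifs with h1 h2
  · simp; omega
  · simp [h2]; omega
  · simp; omega

theorem LW_WW : LW (WW x d P st) = Lx x := by
  funext a p
  apply propext
  unfold LW Lx
  rw [WW_get]
  by_cases h : p < x.length
  · rw [if_pos (by omega)]
    unfold cl
    rw [if_pos h, List.getElem?_eq_getElem h]
    by_cases hdp : d ≤ p <;> simp [hdp]
  · rw [List.getElem?_eq_none (by omega)]
    split_ifs with h1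
    · unfold cl
      rw [if_neg h]
      split_ifs <;> simp
    · simp

theorem mW_WW : mW (WW x d P st) = mX x := by
  unfold mW mX
  rw [LW_WW, nI_WW]

theorem CW_WW (h : CC x ≤ x.length + P + st.length * BB x) : CW (WW x d P st) = CC x := by
  unfold CW
  rw [mW_WW, WW_length, pw_eq]
  exact if_pos h

theorem QW_WW (h : QQ x ≤ x.length + P + st.length * BB x) : QW (WW x d P st) = QQ x := by
  unfold QW
  rw [nI_WW, WW_length, pw_eq]
  exact if_pos h

theorem CW_S : CW (WW x d (SS x) st) = CC x := CW_WW (by have := CC_le_SS x; omega)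
theorem QW_S : QW (WW x d (SS x) st) = QQ x := QW_WW (by have := QQ_le_SS x; omega)
theorem BW_S : BW (WW x d (SS x) st) = BB x := by
  unfold BW BB
  rw [CW_S, nP_WW]

theorem Ready_S : Ready (WW x d (SS x) st) := by
  refine ⟨by rw [CW_S]; exact (CC_pos x).ne', by rw [nP_WW]; exact (SS_pos x).ne', ?_⟩
  rw [nI_WW, CW_S, nP_WW, WW_length, pw_eq]
  have e : 2 ^ (x.length * CC x) = SS x := by rw [SS_eq]; rfl
  rw [e, if_pos (by omega)]

theorem Ready_iff {j : ℕ} (hj : j ≤ x.length * 2 ^ mX x) :
    Ready (WW x d (2 ^ j) []) ↔ j = x.length * 2 ^ mX x := by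
  constructor
  · rintro ⟨h1, _, h3⟩
    rw [nI_WW, nP_WW, WW_length, pw_eq] at h3
    have hC : CW (WW x d (2 ^ j) []) = CC x := by
      unfold CW at h1 ⊢
      rw [mW_WW, pw_eq] at h1 ⊢
      split_ifs at h1 ⊢
      · rfl
      · exact absurd rfl h1
    rw [hC] at h3
    have hpos : 0 < 2 ^ j := by positivity
    split_ifs at h3 with h4
    · exact (Nat.pow_right_injective le_rfl h3).symm
    · omega
  · intro h
    subst h
    rw [← SS_eq]
    exact Ready_S

/-! ### Padding -/

theorem F0_eq : F0 x = WW x x.length 1 [] := by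
  unfold F0 WW
  simp only [List.length_nil, zero_mul, add_zero]
  refine List.map_congr_left fun i hi => ?_
  have hi := List.mem_range.1 hi
  unfold G0 cl
  by_cases h : i < x.length
  · rw [if_pos h, List.getElem?_eq_getElem h]
    simp [Nat.not_le.2 h]
  · rw [if_neg h, if_pos hi, List.getElem?_eq_none (by omega)]

theorem getL_WW {i : ℕ} (h : i < x.length + P + st.length * BB x) :
    getL (WW x d P st) i = cl x d P st i := by
  unfold getL
  rw [WW_get, if_pos h]
  rfl

theorem F1_pad (h : ¬ Ready (WW x d P [])) : F1 (WW x d P []) = WW x d (2 * P) [] := by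
  unfold F1
  have hM : M1 (WW x d P []) = x.length + 2 * P := by
    unfold M1
    rw [if_neg h, WW_length, nP_WW]
    simp
    omega
  rw [hM]
  unfold WW
  simp only [List.length_nil, zero_mul, add_zero]
  refine List.map_congr_left fun i hi => ?_
  have hi := List.mem_range.1 hi
  have hG : G1 (WW x d P []) i = getL (WW x d P []) i := by
    unfold G1
    rw [if_neg h]
  have e : (List.range (x.length + P)).map (cl x d P []) = WW x d P [] := by
    unfold WW; simp
  rw [e, hG]
  by_cases h1 : i < x.length + P
  · rw [getL_WW (by simpa using h1)]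
    unfold cl
    by_cases h2 : i < x.length
    · rw [if_pos h2, if_pos h2]
    · rw [if_neg h2, if_neg h2, if_pos h1, if_pos (by omega)]
  · unfold getL
    rw [WW_get, if_neg (by simpa using h1)]
    unfold cl
    rw [if_neg (by omega), if_pos (by omega)]
    rfl

theorem pad_phase : ∀ j, j ≤ x.length * 2 ^ mX x → F1^[j] (F0 x) = WW x x.length (2 ^ j) []
  | 0, _ => by simp [F0_eq]
  | j + 1, hj => by
    rw [Function.iterate_succ_apply', pad_phase j (by omega), F1_pad, pow_succ, Nat.mul_comm]
    rw [Ready_iff (by omega)]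
    omega

end Pool.Agent.FBA
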