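import Mathlib
import Pool.Agent.FBA.Conc

/-!
# One step of the evaluation
-/

set_option autoImplicit false

namespace Pool.Agent.FBA

theorem testBit_iff (c j : ℕ) : c.testBit j = true ↔ c / 2 ^ j % 2 = 1 := by
  rw [Nat.testBit_eq_decide_div_mod_eq, decide_eq_true_eq]

theorem xor_two_pow_eq : ∀ (j c : ℕ), c ^^^ 2 ^ j =
    if c / 2 ^ j % 2 = 0 then c + 2 ^ j else c - 2 ^ j
  | 0, c => by
    obtain ⟨b, n, rfl⟩ : ∃ b n, c = Nat.bit b n := ⟨c.bodd, c.div2, (Nat.bit_bodd_div2 c).symm⟩
    have e : (2 : ℕ) ^ 0 = Nat.bit true 0 := rfl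
    rw [e, Nat.xor_bit, Nat.xor_zero]
    cases b
    · simp [Nat.bit_val]
    · simp [Nat.bit_val]
  | j + 1, c => by
    obtain ⟨b, n, rfl⟩ : ∃ b n, c = Nat.bit b n := ⟨c.bodd, c.div2, (Nat.bit_bodd_div2 c).symm⟩
    have e : (2 : ℕ) ^ (j + 1) = Nat.bit false (2 ^ j) := by
      rw [Nat.bit_val, pow_succ]; simp; ring
    have ed : Nat.bit b n / 2 ^ (j + 1) = n / 2 ^ j := by
      rw [pow_succ', ← Nat.div_div_eq_div_mul]
      congr 1
      rw [Nat.bit_val]
      cases b <;> simp <;> omega
    rw [ed, e, Nat.xor_bit, xor_two_pow_eq j n, Nat.bit_val, Nat.bit_val, Nat.bit_val]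
    have hb : (b != false) = b := by cases b <;> rfl
    rw [hb]
    have h2 : n / 2 ^ j % 2 ≠ 0 → 2 ^ j ≤ n := by
      intro h
      by_contra hcon
      rw [Nat.div_eq_of_lt (by omega)] at h
      exact h rfl
    simp only [Bool.toNat_false, add_zero]
    split_ifs with h
    · ring
    · have := h2 h
      omega

variable {x : List Sym} {d : ℕ} {st : List Item}

/-! ### Reading tables -/

theorem cl_table {P t k : ℕ} (hk : k < BB x) :
    cl x d P st (x.length + P + t * BB x + k) =
      .tb ((st.reverse[t]?).getD dft).ty (@decide (tab x ((st.reverse[t]?).getD dft) k)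
        (Classical.propDecidable _)) := by
  unfold cl
  rw [if_neg (by omega), if_neg (by omega)]
  have e : x.length + P + t * BB x + k - (x.length + P) = BB x * t + k := by
    rw [Nat.mul_comm]; omega
  rw [e, Nat.mul_add_div (BB_pos x), Nat.div_eq_of_lt hk, Nat.add_zero, Nat.mul_add_mod,
    Nat.mod_eq_of_lt hk]

theorem read_top {k : ℕ} (hs : 1 ≤ st.length) (hk : k < BB x) :
    (WW x d (SS x) st)[(WW x d (SS x) st).length - BB x + k]? =
      some (.tb (st.getD 0 dft).ty (@decide (tab x (st.getD 0 dft) k)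
        (Classical.propDecidable _))) := by
  obtain ⟨it, st1, rfl⟩ : ∃ it st1, st = it :: st1 := by
    cases st with
    | nil => simp at hs
    | cons a l => exact ⟨a, l, rfl⟩
  rw [WW_get, WW_length]
  have e : x.length + SS x + (it :: st1).length * BB x - BB x + k =
      x.length + SS x + st1.length * BB x + k := by
    rw [List.length_cons, Nat.succ_mul]; omega
  rw [e, if_pos (by rw [List.length_cons, Nat.succ_mul]; omega), cl_table hk]
  simp

theorem read_second {k : ℕ} (hs : 2 ≤ st.length) (hk : k < BB x) :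
    (WW x d (SS x) st)[(WW x d (SS x) st).length - 2 * BB x + k]? =
      some (.tb (st.getD 1 dft).ty (@decide (tab x (st.getD 1 dft) k)
        (Classical.propDecidable _))) := by
  obtain ⟨it, it', st1, rfl⟩ : ∃ it it' st1, st = it :: it' :: st1 := by
    rcases st with _ | ⟨a, _ | ⟨b, l⟩⟩
    · simp at hs
    · simp at hs
    · exact ⟨a, b, l, rfl⟩
  rw [WW_get, WW_length]
  have e : x.length + SS x + (it :: it' :: st1).length * BB x - 2 * BB x + k =
      x.length + SS x + st1.length * BB x + k := by
    rw [List.length_cons, List.length_cons, Nat.succ_mul, Nat.succ_mul]; omega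
  rw [e, if_pos (by rw [List.length_cons, List.length_cons, Nat.succ_mul, Nat.succ_mul]; omega),
    cl_table hk]
  simp

theorem T1W_iff {k : ℕ} (hs : 1 ≤ st.length) (hk : k < BB x) :
    T1W (WW x d (SS x) st) k ↔ tab x (st.getD 0 dft) k := by
  unfold T1W
  rw [BW_S, read_top hs hk]
  simp

theorem T2W_iff {k : ℕ} (hs : 2 ≤ st.length) (hk : k < BB x) :
    T2W (WW x d (SS x) st) k ↔ tab x (st.getD 1 dft) k := by
  unfold T2W
  rw [BW_S, read_second hs hk]
  simp

/-! ### Arithmetic on words -/

theorem pw_S {j : ℕ} (h : 2 ^ j ≤ SS x) : pw (WW x d (SS x) st).length j = 2 ^ j := by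
  rw [pw_eq, WW_length, if_pos (by omega)]

theorem two_pow_le_SS {j : ℕ} (h : j ≤ mX x) : 2 ^ j ≤ SS x :=
  (Nat.pow_le_pow_right (by norm_num) h).trans (CC_le_SS x)

theorem digW_S {s c : ℕ} (hc : c < CC x) : digW (WW x d (SS x) st) s c = dig (QQ x) s c := by
  have e : QQ x ^ c = 2 ^ (x.length * c) := by
    unfold QQ
    rw [← pow_mul]
  have h : 2 ^ (x.length * c) ≤ SS x := by
    rw [SS_eq]
    exact Nat.pow_le_pow_right (by norm_num) (Nat.mul_le_mul_left _ hc.le)
  unfold digW dig
  rw [nI_WW, QW_S, pw_S h, e]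

theorem flW_S {c j : ℕ} (hj : j < mX x) : flW (WW x d (SS x) st) c j = c ^^^ 2 ^ j := by
  unfold flW
  rw [pw_S (two_pow_le_SS hj.le), xor_two_pow_eq]

theorem btW_S {c j : ℕ} (hj : j < mX x) : btW (WW x d (SS x) st) c j ↔ c.testBit j = true := by
  unfold btW
  rw [pw_S (two_pow_le_SS hj.le), testBit_iff]

theorem cmW_S {j s s' : ℕ} (hj : j < mX x) :
    cmW (WW x d (SS x) st) j s s' ↔ Compat (mX x) (QQ x) j s s' := by
  unfold cmW Compat
  rw [CW_S]
  refine forall_congr' fun c => imp_congr_right fun hc => ?_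
  have hc' : c ^^^ 2 ^ j < CC x := xor_lt hj hc
  rw [QW_S, flW_S hj, digW_S hc, digW_S hc, digW_S hc', digW_S hc']

theorem index_lt {s c : ℕ} (hs : s < SS x + 1) (hc : c < CC x) : s * CC x + c < BB x := by
  unfold BB
  have : (s + 1) * CC x ≤ (SS x + 1) * CC x := Nat.mul_le_mul_right _ hs
  rw [Nat.succ_mul] at this
  omega

theorem row_le {k : ℕ} (hk : k < BB x) : k / CC x < SS x + 1 := by
  unfold BB at hk
  exact (Nat.div_lt_iff_lt_mul (CC_pos x)).2 hk

theorem col_lt (k : ℕ) : k % CC x < CC x := Nat.mod_lt _ (CC_pos x)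

theorem index_div {s c : ℕ} (hc : c < CC x) : (s * CC x + c) / CC x = s := by
  rw [Nat.mul_comm, Nat.mul_add_div (CC_pos x), Nat.div_eq_of_lt hc, Nat.add_zero]

theorem index_mod {s c : ℕ} (hc : c < CC x) : (s * CC x + c) % CC x = c := by
  rw [Nat.mul_comm, Nat.mul_add_mod, Nat.mod_eq_of_lt hc]

/-- The table operations on words are the abstract ones. -/
theorem opW_iff {a : Sym} {j k : ℕ} (hs : a.ar ≤ st.length) (hj : a.dg = true → j < mX x)
    (hk : k < BB x) : opW (WW x d (SS x) st) a j k ↔
      (k / CC x < SS x ∧ opA (CC x) (SS x) (dig (QQ x)) (Compat (mX x) (QQ x))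
        (fun c j => c.testBit j = true) a j (tab x (st.getD 0 dft)) (tab x (st.getD 1 dft)) k) ∨
      (¬ k / CC x < SS x ∧ opB (CC x) a j (tab x (st.getD 0 dft)) (tab x (st.getD 1 dft)) k) := by
  unfold opW
  rw [CW_S, nP_WW]
  have h1 : 1 ≤ a.ar → ∀ k < BB x, (T1W (WW x d (SS x) st) k ↔ tab x (st.getD 0 dft) k) :=
    fun h k hk => T1W_iff (by omega) hk
  have h2 : 2 ≤ a.ar → ∀ k < BB x, (T2W (WW x d (SS x) st) k ↔ tab x (st.getD 1 dft) k) :=
    fun h k hk => T2W_iff (by omega) hk
  refine or_congr (and_congr_right fun hrow => ?_) (and_congr_right fun _ => ?_)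
  · cases a with
    | bit b => exact Iff.rfl
    | zero => exact Iff.rfl
    | one => exact Iff.rfl
    | var => exact btW_S (hj rfl)
    | compl => exact not_congr (h1 le_rfl k hk)
    | not => exact not_congr (h1 le_rfl k hk)
    | inf => exact and_congr (h1 (by decide) k hk) (h2 le_rfl k hk)
    | and => exact and_congr (h1 (by decide) k hk) (h2 le_rfl k hk)
    | sup => exact or_congr (h1 (by decide) k hk) (h2 le_rfl k hk)
    | or => exact or_congr (h1 (by decide) k hk) (h2 le_rfl k hk)
    | imp => exact imp_congr (h1 (by decide) k hk) (h2 le_rfl k hk)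
    | iff => exact iff_congr (h1 (by decide) k hk) (h2 le_rfl k hk)
    | eq =>
      refine forall_congr' fun c => imp_congr_right fun hc => ?_
      rw [digW_S hc]
      have hi : k / CC x * CC x + c < BB x := index_lt (by omega) hc
      exact imp_congr_right fun _ => iff_congr (h1 (by decide) _ hi) (h2 le_rfl _ hi)
    | all =>
      refine forall_congr' fun s => imp_congr_right fun hs' => ?_
      rw [cmW_S (hj rfl)]
      exact imp_congr_right fun _ => h1 le_rfl _ (index_lt (by omega) (col_lt k))
    | ex =>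
      refine exists_congr fun s => and_congr_right fun hs' => ?_
      rw [cmW_S (hj rfl)]
      exact and_congr_right fun _ => h1 le_rfl _ (index_lt (by omega) (col_lt k))
  · cases a with
    | bit b => exact Iff.rfl
    | zero => exact Iff.rfl
    | one => exact Iff.rfl
    | var => exact Iff.rfl
    | compl => exact h1 le_rfl k hk
    | not => exact h1 le_rfl k hk
    | inf => exact or_congr (h1 (by decide) k hk) (h2 le_rfl k hk)
    | and => exact or_congr (h1 (by decide) k hk) (h2 le_rfl k hk)
    | sup => exact or_congr (h1 (by decide) k hk) (h2 le_rfl k hk)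
    | or => exact or_congr (h1 (by decide) k hk) (h2 le_rfl k hk)
    | imp => exact or_congr (h1 (by decide) k hk) (h2 le_rfl k hk)
    | iff => exact or_congr (h1 (by decide) k hk) (h2 le_rfl k hk)
    | eq => exact or_congr (h1 (by decide) k hk) (h2 le_rfl k hk)
    | all => exact and_congr_right fun _ => h1 le_rfl k hk
    | ex => exact and_congr_right fun _ => h1 le_rfl k hk

theorem tab_of_row {it : Item} {k : ℕ} (h : k / CC x < SS x) : tab x it k ↔ tabA x it k := by
  unfold tab
  constructor
  · rintro (⟨_, h2⟩ | ⟨h1, _⟩)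
    · exact h2
    · exact absurd h h1
  · intro h2; exact Or.inl ⟨h, h2⟩

theorem tab_of_not_row {it : Item} {k : ℕ} (h : ¬ k / CC x < SS x) : tab x it k ↔ tabB x it k := by
  unfold tab
  constructor
  · rintro (⟨h1, _⟩ | ⟨_, h2⟩)
    · exact absurd h1 h
    · exact h2
  · intro h2; exact Or.inr ⟨h, h2⟩

/-- The table of a compound item. -/
theorem tab_comb {a : Sym} {ds : List Bool} (ha : a.isBit = false) (hok : Okay a ds st) (k : ℕ) :
    tab x (comb a (val ds) (st.getD 0 dft) (st.getD 1 dft)) k ↔
      (k / CC x < SS x ∧ opA (CC x) (SS x) (dig (QQ x)) (Compat (mX x) (QQ x))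
        (fun c j => c.testBit j = true) a (rhoX x (val ds)) (tab x (st.getD 0 dft))
        (tab x (st.getD 1 dft)) k) ∨
      (¬ k / CC x < SS x ∧ opB (CC x) a (rhoX x (val ds)) (tab x (st.getD 0 dft))
        (tab x (st.getD 1 dft)) k) := by
  obtain ⟨_, h2, h3, h4⟩ := hok
  have hrow : ∀ s c, s < SS x → c < CC x → (s * CC x + c) / CC x < SS x := fun s c hs hc => by
    rw [index_div hc]; exact hs
  by_cases hr : k / CC x < SS x
  · rw [tab_of_row hr]
    simp only [hr, true_and, not_true_eq_false, false_and, or_false]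
    cases a with
    | bit b => simp [Sym.isBit] at ha
    | var => exact Iff.rfl
    | zero => simp [comb, tabA, opA, Term.cell]
    | one => simp [comb, tabA, opA, Term.cell]
    | compl =>
      simp only [Sym.ar, Sym.argTy] at h2 h3
      rcases st with _ | ⟨t | _, st⟩
      · simp at h2
      · have := tab_of_row (it := .tm t) hr
        simp only [opA, comb, List.getD_cons_zero, this, tabA, Term.cell]
        simp
      · simp [Item.ty] at h3
    | not =>
      simp only [Sym.ar, Sym.argTy] at h2 h3
      rcases st with _ | ⟨_ | φ, st⟩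
      · simp at h2
      · simp [Item.ty] at h3
      · have := tab_of_row (it := .fm φ) hr
        simp only [opA, comb, List.getD_cons_zero, this, tabA, Fml.tr]
    | all =>
      simp only [Sym.ar, Sym.argTy] at h2 h3
      rcases st with _ | ⟨_ | φ, st⟩
      · simp at h2
      · simp [Item.ty] at h3
      · simp only [opA, comb, List.getD_cons_zero, tabA, Fml.tr]
        refine forall_congr' fun s => imp_congr_right fun hs => imp_congr_right fun _ => ?_
        rw [tab_of_row (hrow s _ hs (col_lt k))]
        simp only [tabA, index_div (col_lt k)]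
    | ex =>
      simp only [Sym.ar, Sym.argTy] at h2 h3
      rcases st with _ | ⟨_ | φ, st⟩
      · simp at h2
      · simp [Item.ty] at h3
      · simp only [opA, comb, List.getD_cons_zero, tabA, Fml.tr]
        refine exists_congr fun s => and_congr_right fun hs => and_congr_right fun _ => ?_
        rw [tab_of_row (hrow s _ hs (col_lt k))]
        simp only [tabA, index_div (col_lt k)]
    | inf =>
      simp only [Sym.ar, Sym.argTy] at h2 h3 h4
      rcases st with _ | ⟨s | _, _ | ⟨t | _, st⟩⟩ <;> simp [Item.ty] at h2 h3 h4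
      have e1 := tab_of_row (it := .tm s) hr
      have e2 := tab_of_row (it := .tm t) hr
      simp only [opA, comb, List.getD_cons_zero, List.getD_cons_succ, e1, e2, tabA, Term.cell]
      simp
    | sup =>
      simp only [Sym.ar, Sym.argTy] at h2 h3 h4
      rcases st with _ | ⟨s | _, _ | ⟨t | _, st⟩⟩ <;> simp [Item.ty] at h2 h3 h4
      have e1 := tab_of_row (it := .tm s) hr
      have e2 := tab_of_row (it := .tm t) hr
      simp only [opA, comb, List.getD_cons_zero, List.getD_cons_succ, e1, e2, tabA, Term.cell]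
      simp
    | eq =>
      simp only [Sym.ar, Sym.argTy] at h2 h3 h4
      rcases st with _ | ⟨s | _, _ | ⟨t | _, st⟩⟩ <;> simp [Item.ty] at h2 h3 h4
      simp only [opA, comb, List.getD_cons_zero, List.getD_cons_succ, tabA, Fml.tr]
      refine forall_congr' fun c => imp_congr_right fun hc => imp_congr_right fun _ => ?_
      rw [tab_of_row (hrow _ c hr hc), tab_of_row (hrow _ c hr hc)]
      simp only [tabA, index_mod (show c < CC x from hc)]
      exact Bool.eq_iff_iff
    | and =>
      simp only [Sym.ar, Sym.argTy] at h2 h3 h4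
      rcases st with _ | ⟨_ | φ, _ | ⟨_ | ψ, st⟩⟩ <;> simp [Item.ty] at h2 h3 h4
      have e1 := tab_of_row (it := .fm φ) hr
      have e2 := tab_of_row (it := .fm ψ) hr
      simp only [opA, comb, List.getD_cons_zero, List.getD_cons_succ, e1, e2, tabA, Fml.tr]
    | or =>
      simp only [Sym.ar, Sym.argTy] at h2 h3 h4
      rcases st with _ | ⟨_ | φ, _ | ⟨_ | ψ, st⟩⟩ <;> simp [Item.ty] at h2 h3 h4
      have e1 := tab_of_row (it := .fm φ) hr
      have e2 := tab_of_row (it := .fm ψ) hr
      simp only [opA, comb, List.getD_cons_zero, List.getD_cons_succ, e1, e2, tabA, Fml.tr]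
    | imp =>
      simp only [Sym.ar, Sym.argTy] at h2 h3 h4
      rcases st with _ | ⟨_ | φ, _ | ⟨_ | ψ, st⟩⟩ <;> simp [Item.ty] at h2 h3 h4
      have e1 := tab_of_row (it := .fm φ) hr
      have e2 := tab_of_row (it := .fm ψ) hr
      simp only [opA, comb, List.getD_cons_zero, List.getD_cons_succ, e1, e2, tabA, Fml.tr]
    | iff =>
      simp only [Sym.ar, Sym.argTy] at h2 h3 h4
      rcases st with _ | ⟨_ | φ, _ | ⟨_ | ψ, st⟩⟩ <;> simp [Item.ty] at h2 h3 h4
      have e1 := tab_of_row (it := .fm φ) hr
      have e2 := tab_of_row (it := .fm ψ) hr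
      simp only [opA, comb, List.getD_cons_zero, List.getD_cons_succ, e1, e2, tabA, Fml.tr]
  · rw [tab_of_not_row hr]
    simp only [hr, false_and, not_false_eq_true, true_and, false_or]
    cases a with
    | bit b => simp [Sym.isBit] at ha
    | var => exact Iff.rfl
    | zero => simp [comb, tabB, opB, Term.fvr]
    | one => simp [comb, tabB, opB, Term.fvr]
    | compl =>
      simp only [Sym.ar, Sym.argTy] at h2 h3
      rcases st with _ | ⟨t | _, st⟩
      · simp at h2
      · have := tab_of_not_row (it := .tm t) hr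
        simp only [opB, comb, List.getD_cons_zero, this, tabB, Term.fvr]
      · simp [Item.ty] at h3
    | not =>
      simp only [Sym.ar, Sym.argTy] at h2 h3
      rcases st with _ | ⟨_ | φ, st⟩
      · simp at h2
      · simp [Item.ty] at h3
      · have := tab_of_not_row (it := .fm φ) hr
        simp only [opB, comb, List.getD_cons_zero, this, tabB, Fml.fvr]
    | all =>
      simp only [Sym.ar, Sym.argTy] at h2 h3
      rcases st with _ | ⟨_ | φ, st⟩
      · simp at h2
      · simp [Item.ty] at h3
      · have := tab_of_not_row (it := .fm φ) hr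
        simp only [opB, comb, List.getD_cons_zero, this, tabB, Fml.fvr]
    | ex =>
      simp only [Sym.ar, Sym.argTy] at h2 h3
      rcases st with _ | ⟨_ | φ, st⟩
      · simp at h2
      · simp [Item.ty] at h3
      · have := tab_of_not_row (it := .fm φ) hr
        simp only [opB, comb, List.getD_cons_zero, this, tabB, Fml.fvr]
    | inf =>
      simp only [Sym.ar, Sym.argTy] at h2 h3 h4
      rcases st with _ | ⟨s | _, _ | ⟨t | _, st⟩⟩ <;> simp [Item.ty] at h2 h3 h4
      have e1 := tab_of_not_row (it := .tm s) hr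
      have e2 := tab_of_not_row (it := .tm t) hr
      simp only [opB, comb, List.getD_cons_zero, List.getD_cons_succ, e1, e2, tabB, Term.fvr]
    | sup =>
      simp only [Sym.ar, Sym.argTy] at h2 h3 h4
      rcases st with _ | ⟨s | _, _ | ⟨t | _, st⟩⟩ <;> simp [Item.ty] at h2 h3 h4
      have e1 := tab_of_not_row (it := .tm s) hr
      have e2 := tab_of_not_row (it := .tm t) hr
      simp only [opB, comb, List.getD_cons_zero, List.getD_cons_succ, e1, e2, tabB, Term.fvr]
    | eq =>
      simp only [Sym.ar, Sym.argTy] at h2 h3 h4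
      rcases st with _ | ⟨s | _, _ | ⟨t | _, st⟩⟩ <;> simp [Item.ty] at h2 h3 h4
      have e1 := tab_of_not_row (it := .tm s) hr
      have e2 := tab_of_not_row (it := .tm t) hr
      simp only [opB, comb, List.getD_cons_zero, List.getD_cons_succ, e1, e2, tabB, Fml.fvr]
    | and =>
      simp only [Sym.ar, Sym.argTy] at h2 h3 h4
      rcases st with _ | ⟨_ | φ, _ | ⟨_ | ψ, st⟩⟩ <;> simp [Item.ty] at h2 h3 h4
      have e1 := tab_of_not_row (it := .fm φ) hr
      have e2 := tab_of_not_row (it := .fm ψ) hr
      simp only [opB, comb, List.getD_cons_zero, List.getD_cons_succ, e1, e2, tabB, Fml.fvr]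
    | or =>
      simp only [Sym.ar, Sym.argTy] at h2 h3 h4
      rcases st with _ | ⟨_ | φ, _ | ⟨_ | ψ, st⟩⟩ <;> simp [Item.ty] at h2 h3 h4
      have e1 := tab_of_not_row (it := .fm φ) hr
      have e2 := tab_of_not_row (it := .fm ψ) hr
      simp only [opB, comb, List.getD_cons_zero, List.getD_cons_succ, e1, e2, tabB, Fml.fvr]
    | imp =>
      simp only [Sym.ar, Sym.argTy] at h2 h3 h4
      rcases st with _ | ⟨_ | φ, _ | ⟨_ | ψ, st⟩⟩ <;> simp [Item.ty] at h2 h3 h4
      have e1 := tab_of_not_row (it := .fm φ) hr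
      have e2 := tab_of_not_row (it := .fm ψ) hr
      simp only [opB, comb, List.getD_cons_zero, List.getD_cons_succ, e1, e2, tabB, Fml.fvr]
    | iff =>
      simp only [Sym.ar, Sym.argTy] at h2 h3 h4
      rcases st with _ | ⟨_ | φ, _ | ⟨_ | ψ, st⟩⟩ <;> simp [Item.ty] at h2 h3 h4
      have e1 := tab_of_not_row (it := .fm φ) hr
      have e2 := tab_of_not_row (it := .fm ψ) hr
      simp only [opB, comb, List.getD_cons_zero, List.getD_cons_succ, e1, e2, tabB, Fml.fvr]

end Pool.Agent.FBA
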