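import Mathlib
import Pool.Agent.FBA.Step

/-!
# One step of the evaluation: the word function
-/

set_option autoImplicit false

namespace Pool.Agent.FBA

variable {x : List Sym} {d : ℕ} {st : List Item} {a : Sym}

theorem ty_comb {ds : List Bool} (ha : a.isBit = false) (hok : Okay a ds st) :
    (comb a (val ds) (st.getD 0 dft) (st.getD 1 dft)).ty = a.resTy := by
  obtain ⟨_, h2, h3, h4⟩ := hok
  cases a with
  | bit b => simp [Sym.isBit] at ha
  | var => rfl
  | zero => rfl
  | one => rfl
  | compl =>
    simp only [Sym.ar, Sym.argTy] at h2 h3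
    rcases st with _ | ⟨t | _, st⟩
    · simp at h2
    · rfl
    · simp [Item.ty] at h3
  | not =>
    simp only [Sym.ar, Sym.argTy] at h2 h3
    rcases st with _ | ⟨_ | φ, st⟩
    · simp at h2
    · simp [Item.ty] at h3
    · rfl
  | all =>
    simp only [Sym.ar, Sym.argTy] at h2 h3
    rcases st with _ | ⟨_ | φ, st⟩
    · simp at h2
    · simp [Item.ty] at h3
    · rfl
  | ex =>
    simp only [Sym.ar, Sym.argTy] at h2 h3
    rcases st with _ | ⟨_ | φ, st⟩
    · simp at h2
    · simp [Item.ty] at h3
    · rfl
  | inf =>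
    simp only [Sym.ar, Sym.argTy] at h2 h3 h4
    rcases st with _ | ⟨s | _, _ | ⟨t | _, st⟩⟩ <;> simp [Item.ty] at h2 h3 h4
    rfl
  | sup =>
    simp only [Sym.ar, Sym.argTy] at h2 h3 h4
    rcases st with _ | ⟨s | _, _ | ⟨t | _, st⟩⟩ <;> simp [Item.ty] at h2 h3 h4
    rfl
  | eq =>
    simp only [Sym.ar, Sym.argTy] at h2 h3 h4
    rcases st with _ | ⟨s | _, _ | ⟨t | _, st⟩⟩ <;> simp [Item.ty] at h2 h3 h4
    rfl
  | and =>
    simp only [Sym.ar, Sym.argTy] at h2 h3 h4
    rcases st with _ | ⟨_ | φ, _ | ⟨_ | ψ, st⟩⟩ <;> simp [Item.ty] at h2 h3 h4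
    rfl
  | or =>
    simp only [Sym.ar, Sym.argTy] at h2 h3 h4
    rcases st with _ | ⟨_ | φ, _ | ⟨_ | ψ, st⟩⟩ <;> simp [Item.ty] at h2 h3 h4
    rfl
  | imp =>
    simp only [Sym.ar, Sym.argTy] at h2 h3 h4
    rcases st with _ | ⟨_ | φ, _ | ⟨_ | ψ, st⟩⟩ <;> simp [Item.ty] at h2 h3 h4
    rfl
  | iff =>
    simp only [Sym.ar, Sym.argTy] at h2 h3 h4
    rcases st with _ | ⟨_ | φ, _ | ⟨_ | ψ, st⟩⟩ <;> simp [Item.ty] at h2 h3 h4
    rfl

theorem opA_congr {C S : ℕ} {dg : ℕ → ℕ → ℕ} {cm : ℕ → ℕ → ℕ → Prop} {bt : ℕ → ℕ → Prop}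
    {j j' : ℕ} {T1 T2 : ℕ → Prop} {k : ℕ} (h : a.dg = true → j = j') :
    opA C S dg cm bt a j T1 T2 k ↔ opA C S dg cm bt a j' T1 T2 k := by
  cases a with
  | var => rw [h rfl]
  | all => rw [h rfl]
  | ex => rw [h rfl]
  | _ => exact Iff.rfl

theorem opB_congr {C : ℕ} {j j' : ℕ} {T1 T2 : ℕ → Prop} {k : ℕ} (h : a.dg = true → j = j') :
    opB C a j T1 T2 k ↔ opB C a j' T1 T2 k := by
  cases a with
  | var => rw [h rfl]
  | all => rw [h rfl]
  | ex => rw [h rfl]
  | _ => exact Iff.rfl

theorem occ_of_dg (ha : x[d]? = some a) (h : a.dg = true) : occ (Lx x) d := by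
  cases a <;> simp [Sym.dg] at h
  · exact Or.inl ha
  · exact Or.inr (Or.inl ha)
  · exact Or.inr (Or.inr ha)

/-- The values of the new table. -/
theorem opW_tab {d' : ℕ} (ha : x[d]? = some a) (hb : a.isBit = false) (hok : Okay a (nm x d) st)
    {k : ℕ} (hk : k < BB x) :
    opW (WW x d' (SS x) st) a (rkL (Lx x) x.length d) k ↔
      tab x (comb a (val (nm x d)) (st.getD 0 dft) (st.getD 1 dft)) k := by
  have hd : d < x.length := (List.getElem?_eq_some_iff.1 ha).1
  have hr : rkL (Lx x) x.length d = rkN x (nm x d) := rkL_eq hd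
  have hlt : a.dg = true → rkN x (nm x d) < mX x := fun h => rkN_lt ⟨d, occ_of_dg ha h, rfl⟩
  have he : a.dg = true → rkN x (nm x d) = rhoX x (val (nm x d)) := by
    intro h
    have hc := hok.1
    rw [if_pos h] at hc
    unfold rhoX
    unfold Canon at hc
    rw [hc]
  rw [hr, opW_iff hok.2.1 hlt hk, tab_comb hb hok]
  exact or_congr (and_congr_right fun _ => opA_congr he) (and_congr_right fun _ => opB_congr he)

theorem okW_iff {d' : ℕ} (hd : d < x.length) (hd' : d' = d + 1) :
    okW (WW x d' (SS x) st) a ↔ Okay a (nm x d) st := by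
  subst hd'
  unfold okW Okay
  rw [nI_WW, nU_WW (by omega), nP_WW, LW_WW, BW_S, Nat.add_sub_cancel]
  refine and_congr ?_ ?_
  · cases h : a.dg with
    | true =>
      simp only [if_true]
      exact canonL_iff hd
    | false =>
      simp only [Bool.false_eq_true, if_false]
      rw [isDig_iff]
      simp
  · have hlen : x.length + SS x + a.ar * BB x ≤ (WW x (d + 1) (SS x) st).length ↔
        a.ar ≤ st.length := by
      rw [WW_length]
      constructor
      · intro h
        have h' : a.ar * BB x ≤ st.length * BB x := by omega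
        exact Nat.le_of_mul_le_mul_right h' (BB_pos x)
      · intro h
        have := Nat.mul_le_mul_right (BB x) h
        omega
    rw [hlen]
    refine and_congr_right fun hle => and_congr ?_ ?_
    · refine forall_congr' fun h0 => ?_
      have h := read_top (x := x) (d := d + 1) (st := st) (k := 0) (by omega) (BB_pos x)
      simp only [Nat.add_zero] at h
      rw [h]
      constructor
      · rintro ⟨v, _, hv⟩
        have := Option.some.inj hv
        injection this
      · intro h1
        exact ⟨_, Finset.mem_univ _, by rw [h1]⟩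
    · refine forall_congr' fun h0 => ?_
      have h := read_second (x := x) (d := d + 1) (st := st) (k := 0) (by omega) (BB_pos x)
      simp only [Nat.add_zero] at h
      rw [h]
      constructor
      · rintro ⟨v, _, hv⟩
        have := Option.some.inj hv
        injection this
      · intro h1
        exact ⟨_, Finset.mem_univ _, by rw [h1]⟩

theorem M1_S (ha : x[d]? = some a) :
    M1 (WW x (d + 1) (SS x) st) =
      (if a.isBit = true then (WW x (d + 1) (SS x) st).length
      else if Okay a (nm x d) st then
        (WW x (d + 1) (SS x) st).length + BB x - a.ar * BB x else 0) := by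
  classical
  have hd : d < x.length := (List.getElem?_eq_some_iff.1 ha).1
  unfold M1
  rw [if_pos Ready_S, nU_WW (by omega), Nat.add_sub_cancel, LW_WW, BW_S]
  rw [Finset.sum_eq_single a]
  · have h1 : Lx x a d := ha
    rw [if_pos h1]
    have hiff := okW_iff (a := a) (st := st) hd rfl
    by_cases h2 : Okay a (nm x d) st
    · rw [if_pos (hiff.2 h2), if_pos h2]
    · rw [if_neg (fun h => h2 (hiff.1 h)), if_neg h2]
  · intro b _ hb
    rw [if_neg]
    intro h
    have h' : x[d]? = some b := h
    rw [ha] at h'
    exact hb (Option.some.inj h').symm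
  · intro h
    exact absurd (Finset.mem_univ _) h

theorem curBit_S (ha : x[d]? = some a) :
    curBit (WW x (d + 1) (SS x) st) ↔ a.isBit = true := by
  have hd : d < x.length := (List.getElem?_eq_some_iff.1 ha).1
  unfold curBit
  rw [nU_WW (by omega), Nat.add_sub_cancel, LW_WW]
  constructor
  · rintro ⟨b, _, h1, h2⟩
    have h' : x[d]? = some b := h1
    rw [ha] at h'
    rwa [Option.some.inj h']
  · intro h
    exact ⟨a, Finset.mem_univ _, ha, h⟩

theorem curTy_S (ha : x[d]? = some a) :
    curTy (WW x (d + 1) (SS x) st) ↔ a.resTy = true := by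
  have hd : d < x.length := (List.getElem?_eq_some_iff.1 ha).1
  unfold curTy
  rw [nU_WW (by omega), Nat.add_sub_cancel, LW_WW]
  constructor
  · rintro ⟨b, _, h1, h2⟩
    have h' : x[d]? = some b := h1
    rw [ha] at h'
    rwa [Option.some.inj h']
  · intro h
    exact ⟨a, Finset.mem_univ _, ha, h⟩

theorem curV_S (ha : x[d]? = some a) (k : ℕ) :
    curV (WW x (d + 1) (SS x) st) k ↔
      opW (WW x (d + 1) (SS x) st) a (rkL (Lx x) x.length d) k := by
  have hd : d < x.length := (List.getElem?_eq_some_iff.1 ha).1
  unfold curV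
  rw [nU_WW (by omega), Nat.add_sub_cancel, LW_WW, nI_WW]
  constructor
  · rintro ⟨b, _, h1, h2⟩
    have h' : x[d]? = some b := h1
    rw [ha] at h'
    rwa [Option.some.inj h']
  · intro h
    exact ⟨a, Finset.mem_univ _, ha, h⟩

/-- The letters before the stack. -/
theorem G1_low {st' : List Item} (ha : x[d]? = some a) {i : ℕ} (hi : i < x.length + SS x) :
    G1 (WW x (d + 1) (SS x) st) i = cl x d (SS x) st' i := by
  have hd : d < x.length := (List.getElem?_eq_some_iff.1 ha).1
  unfold G1
  rw [if_pos Ready_S, nI_WW, nP_WW, if_pos hi, nU_WW (by omega), Nat.add_sub_cancel,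
    getL_WW (by omega)]
  unfold cl
  by_cases h1 : i < x.length
  · rw [if_pos h1, if_pos h1]
    by_cases h2 : i = d
    · rw [if_pos h2]
      subst h2
      simp [mark]
    · rw [if_neg h2]
      congr 1
      rw [decide_eq_decide]
      omega
  · rw [if_neg h1, if_neg h1, if_pos hi, if_pos hi, if_neg (by omega)]

/-- **One step**: a digit. -/
theorem F1_bit (ha : x[d]? = some a) (hb : a.isBit = true) :
    F1 (WW x (d + 1) (SS x) st) = WW x d (SS x) st := by
  unfold F1
  rw [M1_S ha, if_pos hb, WW_length]
  conv_rhs => unfold WW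
  refine List.map_congr_left fun i hi => ?_
  have hi := List.mem_range.1 hi
  by_cases h1 : i < x.length + SS x
  · exact G1_low ha h1
  · unfold G1
    rw [if_pos Ready_S, nI_WW, nP_WW, if_neg h1, if_pos ((curBit_S ha).2 hb), getL_WW hi]
    unfold cl
    rw [if_neg (by omega), if_neg (by omega), if_neg (by omega)]

/-- **One step**: an error. -/
theorem F1_bad (ha : x[d]? = some a) (hb : a.isBit = false) (hok : ¬ Okay a (nm x d) st) :
    F1 (WW x (d + 1) (SS x) st) = [] := by
  unfold F1
  rw [M1_S ha, if_neg (by simp [hb]), if_neg hok]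
  rfl

/-- **One step**: a new table. -/
theorem F1_good (ha : x[d]? = some a) (hb : a.isBit = false) (hok : Okay a (nm x d) st) :
    F1 (WW x (d + 1) (SS x) st) = WW x d (SS x)
      (comb a (val (nm x d)) (st.getD 0 dft) (st.getD 1 dft) :: st.drop a.ar) := by
  classical
  have hle : a.ar ≤ st.length := hok.2.1
  set it := comb a (val (nm x d)) (st.getD 0 dft) (st.getD 1 dft) with hit
  obtain ⟨r, hr⟩ : ∃ r, st.length = a.ar + r := ⟨st.length - a.ar, by omega⟩
  have hlen : M1 (WW x (d + 1) (SS x) st) = x.length + SS x + (r + 1) * BB x := by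
    rw [M1_S ha, if_neg (by simp [hb]), if_pos hok, WW_length, hr, Nat.add_mul, Nat.succ_mul]
    omega
  have hB : M1 (WW x (d + 1) (SS x) st) - BW (WW x (d + 1) (SS x) st) =
      x.length + SS x + r * BB x := by
    rw [hlen, BW_S, Nat.succ_mul]
    omega
  have hdrop : (st.drop a.ar).length = r := by
    rw [List.length_drop, hr]; omega
  unfold F1
  rw [hlen]
  conv_rhs => unfold WW
  rw [List.length_cons, hdrop]
  refine List.map_congr_left fun i hi => ?_
  have hi := List.mem_range.1 hi
  by_cases h1 : i < x.length + SS x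
  · exact G1_low ha h1
  · unfold G1
    rw [if_pos Ready_S, nI_WW, nP_WW, if_neg h1,
      if_neg (by rw [curBit_S ha, hb]; simp), hB]
    obtain ⟨k, hk⟩ : ∃ k, i = x.length + SS x + k := ⟨i - (x.length + SS x), by omega⟩
    subst hk
    have e1 : x.length + SS x + k - (x.length + SS x) = k := by omega
    by_cases h2 : x.length + SS x + k < x.length + SS x + r * BB x
    · rw [if_pos h2, getL_WW (by rw [hr, Nat.add_mul]; omega)]
      unfold cl
      rw [if_neg (by omega), if_neg (by omega), if_neg (by omega), if_neg (by omega), e1]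
      have h3 : k / BB x < r := (Nat.div_lt_iff_lt_mul (BB_pos x)).2 (by omega)
      have e2 : (it :: st.drop a.ar).reverse[k / BB x]? = st.reverse[k / BB x]? := by
        rw [List.reverse_cons, List.getElem?_append_left (by rw [List.length_reverse, hdrop]; omega),
          List.reverse_drop, List.getElem?_take_of_lt (by omega)]
      rw [e2]
    · rw [if_neg h2]
      unfold cl
      rw [if_neg (by omega), if_neg (by omega), e1]
      have h3 : k / BB x = r := by
        apply Nat.div_eq_of_lt_le
        · omega
        · rw [Nat.succ_mul] at hi ⊢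
          omega
      have h4 : x.length + SS x + k - (x.length + SS x + r * BB x) = k % BB x := by
        have := Nat.div_add_mod k (BB x)
        rw [h3, Nat.mul_comm] at this
        omega
      have e2 : (it :: st.drop a.ar).reverse[k / BB x]? = some it := by
        rw [h3, List.reverse_cons, List.getElem?_append_right (by rw [List.length_reverse, hdrop])]
        rw [List.length_reverse, hdrop]
        simp
      rw [e2, h4]
      have h5 : k % BB x < BB x := Nat.mod_lt _ (BB_pos x)
      simp only [Option.getD_some]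
      congr 1
      · rw [ty_comb hb hok]
        cases h6 : a.resTy with
        | true => exact decide_eq_true ((curTy_S ha).2 h6)
        | false =>
          refine decide_eq_false fun h => ?_
          rw [curTy_S ha, h6] at h
          exact absurd h (by simp)
      · rw [decide_eq_decide, curV_S ha, opW_tab ha hb hok h5]

/-- **One step** of the evaluation. -/
theorem F1_step (ha : x[d]? = some a) :
    F1 (WW x (d + 1) (SS x) st) = ((stepR a (nm x d) st).map (WW x d (SS x))).getD [] := by
  unfold stepR
  cases hb : a.isBit with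
  | true => simp [F1_bit ha hb]
  | false =>
    by_cases hok : Okay a (nm x d) st
    · simp [hok, F1_good ha hb hok]
    · simp [hok, F1_bad ha hb hok]

end Pool.Agent.FBA
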