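import Mathlib
import Pool.Agent.FBA.Step2

/-!
# The whole evaluation
-/

set_option autoImplicit false

namespace Pool.Agent.FBA

variable {x : List Sym}

/-! ### The empty word -/

theorem F1_nil : F1 [] = [] := by
  have h : nP [] = 0 := by simp [nP]
  unfold F1
  have hM : M1 [] = 0 := by
    unfold M1
    rw [if_neg (fun hr : Ready [] => hr.2.1 h), h]
    rfl
  rw [hM]
  rfl

theorem not_ContW_nil : ¬ ContW [] := fun h => h.1 rfl

theorem not_AccW_nil (N0 : ℕ) : ¬ AccW N0 [] := by
  rintro ⟨_, ⟨v, _, h⟩, _⟩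
  simp at h

/-! ### The phases -/

/-- The word after the padding phase and `e` steps of the evaluation. -/
noncomputable def W2 (x : List Sym) (e : ℕ) : List Ltr :=
  ((run (x.drop (x.length - e))).map (WW x (x.length - e) (SS x))).getD []

theorem W2_zero : W2 x 0 = WW x x.length (SS x) [] := by
  unfold W2
  rw [Nat.sub_zero, List.drop_length]
  rfl

theorem W2_succ {e : ℕ} (he : e < x.length) : F1 (W2 x e) = W2 x (e + 1) := by
  set d := x.length - (e + 1) with hd
  have hd1 : x.length - e = d + 1 := by omega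
  have hdx : d < x.length := by omega
  have ha : x[d]? = some x[d] := List.getElem?_eq_getElem hdx
  unfold W2
  rw [hd1, ← hd]
  have hdrop : x.drop d = x[d] :: x.drop (d + 1) := List.drop_eq_getElem_cons hdx
  rw [hdrop, run]
  cases h : run (x.drop (d + 1)) with
  | none => simp [F1_nil]
  | some st =>
    simp only [Option.map_some, Option.getD_some, Option.bind_some]
    exact F1_step ha

theorem F1_W2 : ∀ e ≤ x.length, F1^[e] (W2 x 0) = W2 x e
  | 0, _ => rfl
  | e + 1, he => by
    rw [Function.iterate_succ_apply', F1_W2 e (by omega), W2_succ (by omega)]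

/-- The number of rounds of the padding phase. -/
noncomputable def TT (x : List Sym) : ℕ := x.length * 2 ^ mX x

theorem iter_TT {e : ℕ} (he : e ≤ x.length) : F1^[TT x + e] (F0 x) = W2 x e := by
  have h := pad_phase (x := x) (TT x) le_rfl
  unfold TT at h
  rw [← SS_eq, ← W2_zero] at h
  rw [Nat.add_comm, Function.iterate_add_apply, TT, h, F1_W2 e he]

/-- Stacks are short. -/
theorem run_length : ∀ (y : List Sym) (st : List Item), run y = some st → st.length ≤ y.length
  | [], st, h => by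
    simp only [run, Option.some.injEq] at h
    subst h
    rfl
  | a :: y, st, h => by
    simp only [run, Option.bind_eq_some_iff] at h
    obtain ⟨st', h1, h2⟩ := h
    have ih := run_length y st' h1
    unfold stepR at h2
    split_ifs at h2 with h3 h4
    · simp only [Option.some.injEq] at h2
      subst h2
      rw [List.length_cons]; omega
    · simp only [Option.some.injEq] at h2
      subst h2
      rw [List.length_cons, List.length_cons, List.length_drop]; omega

theorem W2_length (e : ℕ) : (W2 x e).length ≤ x.length + SS x + x.length * BB x := by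
  unfold W2
  cases h : run (x.drop (x.length - e)) with
  | none => simp
  | some st =>
    simp only [Option.map_some, Option.getD_some]
    rw [WW_length]
    have h1 := run_length _ _ h
    have h2 : st.length ≤ x.length := h1.trans (by simp)
    have h3 := Nat.mul_le_mul_right (BB x) h2
    omega

theorem pad_length {j : ℕ} (hj : j ≤ TT x) :
    (F1^[j] (F0 x)).length ≤ x.length + SS x + x.length * BB x := by
  rw [pad_phase j hj, WW_length, SS_eq]
  have : (2 : ℕ) ^ j ≤ 2 ^ (x.length * 2 ^ mX x) := Nat.pow_le_pow_right (by norm_num) hj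
  simp only [List.length_nil, zero_mul, add_zero]
  omega

theorem pad_ContW {j : ℕ} (hj : j < TT x) : ContW (F1^[j] (F0 x)) := by
  rw [pad_phase j hj.le]
  refine ⟨?_, Or.inl ?_⟩
  · rw [WW_length]
    have : 0 < 2 ^ j := by positivity
    omega
  · rw [Ready_iff hj.le]
    unfold TT at hj
    omega

theorem W2_last : ¬ ContW (W2 x x.length) := by
  unfold W2
  rw [Nat.sub_self, List.drop_zero]
  cases h : run x with
  | none => exact not_ContW_nil
  | some st =>
    simp only [Option.map_some, Option.getD_some]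
    rintro ⟨_, h1 | h1⟩
    · exact h1 Ready_S
    · rw [nU_WW (Nat.zero_le _)] at h1
      omega

theorem run_none_of_drop {y : List Sym} : ∀ {d : ℕ}, run (y.drop d) = none → run y = none := by
  induction y with
  | nil => intro d h; simpa using h
  | cons a y ih =>
    intro d h
    rcases d with _ | d
    · exact h
    · rw [List.drop_succ_cons] at h
      rw [run, ih h]
      rfl

/-- When the machine stops. -/
theorem stop_cases {e : ℕ} (he : e ≤ x.length) (h : ¬ ContW (W2 x e)) :
    W2 x e = ((run x).map (WW x 0 (SS x))).getD [] := by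
  unfold W2 at h ⊢
  cases h1 : run (x.drop (x.length - e)) with
  | none =>
    rw [run_none_of_drop h1]
    rfl
  | some st =>
    rw [h1] at h
    simp only [Option.map_some, Option.getD_some] at h ⊢
    have h2 : x.length - e = 0 := by
      by_contra hne
      apply h
      refine ⟨?_, Or.inr ?_⟩
      · rw [WW_length]
        have := SS_pos x
        omega
      · rw [nU_WW (by omega)]
        omega
    rw [h2, List.drop_zero] at h1
    rw [h2, h1]
    rfl

/-- **The run of the machine.** -/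
theorem exists_run (x : List Sym) : ∃ s ≤ TT x + x.length,
    (∀ i < s, ContW (F1^[i] (F0 x))) ∧ ¬ ContW (F1^[s] (F0 x)) ∧
    (∀ i ≤ s, (F1^[i] (F0 x)).length ≤ x.length + SS x + x.length * BB x) ∧
    F1^[s] (F0 x) = ((run x).map (WW x 0 (SS x))).getD [] := by
  classical
  have hex : ∃ s, ¬ ContW (F1^[s] (F0 x)) :=
    ⟨TT x + x.length, by rw [iter_TT le_rfl]; exact W2_last⟩
  have hle : Nat.find hex ≤ TT x + x.length :=
    Nat.find_min' hex (by rw [iter_TT le_rfl]; exact W2_last)
  have hge : TT x ≤ Nat.find hex := by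
    by_contra hlt
    exact Nat.find_spec hex (pad_ContW (not_le.1 hlt))
  obtain ⟨e, he⟩ : ∃ e, Nat.find hex = TT x + e := ⟨_, (Nat.add_sub_cancel' hge).symm⟩
  have he' : e ≤ x.length := by omega
  refine ⟨Nat.find hex, hle, fun i hi => not_not.1 (Nat.find_min hex hi), Nat.find_spec hex,
    fun i hi => ?_, ?_⟩
  · rcases le_or_gt i (TT x) with h | h
    · exact pad_length h
    · obtain ⟨e', rfl⟩ : ∃ e', i = TT x + e' := ⟨_, (Nat.add_sub_cancel' h.le).symm⟩
      rw [iter_TT (by omega)]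
      exact W2_length _
  · have h1 := Nat.find_spec hex
    rw [he, iter_TT he'] at h1 ⊢
    exact stop_cases he' h1

/-! ### Acceptance -/

theorem Fml.occurs_of_free {i : ℕ} : ∀ {φ : Fml}, φ.Free i → φ.Occurs i
  | .eq _ _, h => h
  | .not φ, h => Fml.occurs_of_free (φ := φ) h
  | .and φ ψ, h => h.imp (Fml.occurs_of_free (φ := φ)) (Fml.occurs_of_free (φ := ψ))
  | .or φ ψ, h => h.imp (Fml.occurs_of_free (φ := φ)) (Fml.occurs_of_free (φ := ψ))
  | .imp φ ψ, h => h.imp (Fml.occurs_of_free (φ := φ)) (Fml.occurs_of_free (φ := ψ))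
  | .iff φ ψ, h => h.imp (Fml.occurs_of_free (φ := φ)) (Fml.occurs_of_free (φ := ψ))
  | .all _ φ, h => Or.inr (Fml.occurs_of_free (φ := φ) h.2)
  | .ex _ φ, h => Or.inr (Fml.occurs_of_free (φ := φ) h.2)

theorem Term.fvr_of_occurs {ρ : ℕ → ℕ} {i : ℕ} : ∀ {t : Term}, t.Occurs i → t.fvr ρ (ρ i)
  | .var j, h => by
    obtain rfl : i = j := h
    rfl
  | .zero, h => h.elim
  | .one, h => h.elim
  | .compl t, h => Term.fvr_of_occurs (t := t) h
  | .inf s t, h => h.imp (Term.fvr_of_occurs (t := s)) (Term.fvr_of_occurs (t := t))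
  | .sup s t, h => h.imp (Term.fvr_of_occurs (t := s)) (Term.fvr_of_occurs (t := t))

theorem Term.occurs_of_fvr {ρ : ℕ → ℕ} {j : ℕ} : ∀ {t : Term}, t.fvr ρ j → ∃ i, t.Occurs i ∧ ρ i = j
  | .var i, h => ⟨i, rfl, (show j = ρ i from h).symm⟩
  | .zero, h => h.elim
  | .one, h => h.elim
  | .compl t, h => Term.occurs_of_fvr (t := t) h
  | .inf s t, h => by
    rcases h with h | h
    · obtain ⟨i, h1, h2⟩ := Term.occurs_of_fvr (t := s) h
      exact ⟨i, Or.inl h1, h2⟩
    · obtain ⟨i, h1, h2⟩ := Term.occurs_of_fvr (t := t) h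
      exact ⟨i, Or.inr h1, h2⟩
  | .sup s t, h => by
    rcases h with h | h
    · obtain ⟨i, h1, h2⟩ := Term.occurs_of_fvr (t := s) h
      exact ⟨i, Or.inl h1, h2⟩
    · obtain ⟨i, h1, h2⟩ := Term.occurs_of_fvr (t := t) h
      exact ⟨i, Or.inr h1, h2⟩

theorem Fml.fvr_of_free {ρ : ℕ → ℕ} {i : ℕ} : ∀ {φ : Fml}, Set.InjOn ρ {i | φ.Occurs i} →
    φ.Free i → φ.fvr ρ (ρ i)
  | .eq s t, _, h => h.imp Term.fvr_of_occurs Term.fvr_of_occurs
  | .not φ, inj, h => Fml.fvr_of_free (φ := φ) inj h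
  | .and φ ψ, inj, h => h.imp
      (Fml.fvr_of_free (φ := φ) (inj.mono fun _ => Or.inl))
      (Fml.fvr_of_free (φ := ψ) (inj.mono fun _ => Or.inr))
  | .or φ ψ, inj, h => h.imp
      (Fml.fvr_of_free (φ := φ) (inj.mono fun _ => Or.inl))
      (Fml.fvr_of_free (φ := ψ) (inj.mono fun _ => Or.inr))
  | .imp φ ψ, inj, h => h.imp
      (Fml.fvr_of_free (φ := φ) (inj.mono fun _ => Or.inl))
      (Fml.fvr_of_free (φ := ψ) (inj.mono fun _ => Or.inr))
  | .iff φ ψ, inj, h => h.imp
      (Fml.fvr_of_free (φ := φ) (inj.mono fun _ => Or.inl))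
      (Fml.fvr_of_free (φ := ψ) (inj.mono fun _ => Or.inr))
  | .all j φ, inj, h => ⟨fun he => h.1 (inj (Or.inr (Fml.occurs_of_free h.2)) (Or.inl rfl) he),
      Fml.fvr_of_free (φ := φ) (inj.mono fun _ => Or.inr) h.2⟩
  | .ex j φ, inj, h => ⟨fun he => h.1 (inj (Or.inr (Fml.occurs_of_free h.2)) (Or.inl rfl) he),
      Fml.fvr_of_free (φ := φ) (inj.mono fun _ => Or.inr) h.2⟩

theorem Fml.free_of_fvr {ρ : ℕ → ℕ} {j : ℕ} : ∀ {φ : Fml}, φ.fvr ρ j → ∃ i, φ.Free i ∧ ρ i = j
  | .eq s t, h => by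
    rcases h with h | h
    · obtain ⟨i, h1, h2⟩ := Term.occurs_of_fvr (t := s) h
      exact ⟨i, Or.inl h1, h2⟩
    · obtain ⟨i, h1, h2⟩ := Term.occurs_of_fvr (t := t) h
      exact ⟨i, Or.inr h1, h2⟩
  | .not φ, h => Fml.free_of_fvr (φ := φ) h
  | .and φ ψ, h => by
    rcases h with h | h
    · obtain ⟨i, h1, h2⟩ := Fml.free_of_fvr (φ := φ) h
      exact ⟨i, Or.inl h1, h2⟩
    · obtain ⟨i, h1, h2⟩ := Fml.free_of_fvr (φ := ψ) h
      exact ⟨i, Or.inr h1, h2⟩
  | .or φ ψ, h => by
    rcases h with h | h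
    · obtain ⟨i, h1, h2⟩ := Fml.free_of_fvr (φ := φ) h
      exact ⟨i, Or.inl h1, h2⟩
    · obtain ⟨i, h1, h2⟩ := Fml.free_of_fvr (φ := ψ) h
      exact ⟨i, Or.inr h1, h2⟩
  | .imp φ ψ, h => by
    rcases h with h | h
    · obtain ⟨i, h1, h2⟩ := Fml.free_of_fvr (φ := φ) h
      exact ⟨i, Or.inl h1, h2⟩
    · obtain ⟨i, h1, h2⟩ := Fml.free_of_fvr (φ := ψ) h
      exact ⟨i, Or.inr h1, h2⟩
  | .iff φ ψ, h => by
    rcases h with h | h
    · obtain ⟨i, h1, h2⟩ := Fml.free_of_fvr (φ := φ) h
      exact ⟨i, Or.inl h1, h2⟩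
    · obtain ⟨i, h1, h2⟩ := Fml.free_of_fvr (φ := ψ) h
      exact ⟨i, Or.inr h1, h2⟩
  | .all k φ, h => by
    obtain ⟨i, h1, h2⟩ := Fml.free_of_fvr (φ := φ) h.2
    refine ⟨i, ⟨fun he => ?_, h1⟩, h2⟩
    rw [he] at h2
    exact h.1 h2.symm
  | .ex k φ, h => by
    obtain ⟨i, h1, h2⟩ := Fml.free_of_fvr (φ := φ) h.2
    refine ⟨i, ⟨fun he => ?_, h1⟩, h2⟩
    rw [he] at h2
    exact h.1 h2.symm

theorem isSentence_iff (φ : Fml) : φ.IsSentence ↔
    ∀ c < 2 ^ mX φ.code, ¬ φ.fvr (rhoX φ.code) c := by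
  constructor
  · intro h c _ hc
    obtain ⟨i, h1, _⟩ := Fml.free_of_fvr hc
    exact h i h1
  · intro h i hi
    have h1 := rhoX_lt (Fml.occurs_of_free hi)
    exact h _ (h1.trans Nat.lt_two_pow_self) (Fml.fvr_of_free (rhoX_inj φ) hi)

theorem Term.code_pos : ∀ t : Term, 0 < t.code.length
  | .var _ => Nat.succ_pos _
  | .zero => Nat.succ_pos _
  | .one => Nat.succ_pos _
  | .compl _ => Nat.succ_pos _
  | .inf _ _ => Nat.succ_pos _
  | .sup _ _ => Nat.succ_pos _

theorem Fml.qd_lt : ∀ φ : Fml, φ.qd < φ.code.length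
  | .eq s t => Nat.succ_pos _
  | .not φ => by
    have := Fml.qd_lt φ
    simp only [Fml.qd, Fml.code, List.length_cons]; omega
  | .and φ ψ => by
    have := Fml.qd_lt φ
    have := Fml.qd_lt ψ
    simp only [Fml.qd, Fml.code, List.length_cons, List.length_append]; omega
  | .or φ ψ => by
    have := Fml.qd_lt φ
    have := Fml.qd_lt ψ
    simp only [Fml.qd, Fml.code, List.length_cons, List.length_append]; omega
  | .imp φ ψ => by
    have := Fml.qd_lt φ
    have := Fml.qd_lt ψ
    simp only [Fml.qd, Fml.code, List.length_cons, List.length_append]; omega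
  | .iff φ ψ => by
    have := Fml.qd_lt φ
    have := Fml.qd_lt ψ
    simp only [Fml.qd, Fml.code, List.length_cons, List.length_append]; omega
  | .all i φ => by
    have := Fml.qd_lt φ
    simp only [Fml.qd, Fml.code, List.length_cons, List.length_append]; omega
  | .ex i φ => by
    have := Fml.qd_lt φ
    simp only [Fml.qd, Fml.code, List.length_cons, List.length_append]; omega

theorem qd_le_Q (φ : Fml) : 2 ^ φ.qd ≤ QQ φ.code - 1 := by
  unfold QQ
  have h1 := Fml.qd_lt φ
  have h2 : 2 ^ (φ.qd + 1) ≤ 2 ^ φ.code.length := Nat.pow_le_pow_right (by norm_num) h1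
  have h3 : 0 < 2 ^ φ.qd := by positivity
  rw [pow_succ] at h2
  omega

theorem mem_TFin_code (φ : Fml) (x : List Sym) (hx : x = φ.code) :
    (φ.IsSentence ∧ ∀ (B : Type) [BooleanAlgebra B] [Finite B] (v : ℕ → B), φ.Holds v) ↔
      (∀ N < QQ x, φ.tr (rhoX x) (mX x) (QQ x) N) ∧ ∀ c < CC x, ¬ φ.fvr (rhoX x) c := by
  subst hx
  constructor
  · rintro ⟨h1, h2⟩
    exact ⟨(forall_finite_iff h1 (fun i hi => rhoX_lt hi) (rhoX_inj φ) (qd_le_Q φ)).1 h2,
      (isSentence_iff φ).1 h1⟩
  · rintro ⟨h1, h2⟩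
    have h3 := (isSentence_iff φ).2 h2
    exact ⟨h3, (forall_finite_iff h3 (fun i hi => rhoX_lt hi) (rhoX_inj φ) (qd_le_Q φ)).2 h1⟩

theorem mem_TFin'_code (φ : Fml) (x : List Sym) (hx : x = φ.code) :
    (φ.IsSentence ∧
      ∀ (B : Type) [BooleanAlgebra B] [Finite B] [Nontrivial B] (v : ℕ → B), φ.Holds v) ↔
      (∀ N < QQ x, 0 < N → φ.tr (rhoX x) (mX x) (QQ x) N) ∧ ∀ c < CC x, ¬ φ.fvr (rhoX x) c := by
  subst hx
  constructor
  · rintro ⟨h1, h2⟩
    exact ⟨(forall_finite_iff' h1 (fun i hi => rhoX_lt hi) (rhoX_inj φ) (qd_le_Q φ)).1 h2,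
      (isSentence_iff φ).1 h1⟩
  · rintro ⟨h1, h2⟩
    have h3 := (isSentence_iff φ).2 h2
    exact ⟨h3, (forall_finite_iff' h3 (fun i hi => rhoX_lt hi) (rhoX_inj φ) (qd_le_Q φ)).2 h1⟩

theorem QQ_le_rows {N : ℕ} (hN : N < QQ x) : N < SS x := lt_of_lt_of_le hN (QQ_le_SS x)

theorem AccW_iff (N0 : ℕ) (st : List Item) : AccW N0 (WW x 0 (SS x) st) ↔
    ∃ φ : Fml, st = [.fm φ] ∧ digs x = [] ∧
      (∀ N < QQ x, N0 ≤ N → φ.tr (rhoX x) (mX x) (QQ x) N) ∧
      ∀ c < CC x, ¬ φ.fvr (rhoX x) c := by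
  have hdig : ¬ isDig (Lx x) 0 ↔ digs x = [] := by
    rcases x with _ | ⟨a, y⟩
    · simp [isDig, Lx, digs]
    · cases hb : a.isBit with
      | true =>
        cases a <;> simp [Sym.isBit] at hb
        rename_i b
        cases b <;> simp [isDig, Lx, digs]
      | false =>
        rw [digs_not_bit hb]
        simp only [isDig, Lx, List.getElem?_cons_zero, Option.some.injEq, iff_true]
        rintro (h | h) <;> · rw [h] at hb; simp [Sym.isBit] at hb
  unfold AccW
  rw [nI_WW, nP_WW, BW_S, LW_WW, QW_S, CW_S, WW_length, hdig]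
  have h0 : (WW x 0 (SS x) st).length = x.length + SS x + st.length * BB x := WW_length
  have hlen : x.length + SS x + st.length * BB x = x.length + SS x + BB x ↔ st.length = 1 := by
    have := BB_pos x
    constructor
    · intro h
      have h' : st.length * BB x = 1 * BB x := by omega
      exact Nat.eq_of_mul_eq_mul_right this h'
    · intro h; rw [h]; omega
  rw [hlen]
  constructor
  · rintro ⟨h1, ⟨v, _, h2⟩, h3, h4, h5⟩
    obtain ⟨it, rfl⟩ := List.length_eq_one_iff.1 h1
    have h6 := read_top (x := x) (d := 0) (st := [it]) (k := 0) (by simp) (BB_pos x)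
    rw [h0] at h6
    simp only [Nat.add_zero] at h6
    rw [h6] at h2
    have h7 : it.ty = true := by
      have := Option.some.inj h2
      injection this
    rcases it with t | φ
    · simp [Item.ty] at h7
    · refine ⟨φ, rfl, h3, fun N hN hN0 => ?_, fun c hc hf => ?_⟩
      · have h8 := h4 N hN hN0
        have hr : N * CC x / CC x = N := Nat.mul_div_cancel _ (CC_pos x)
        have hk : N * CC x < BB x := by
          have := index_lt (x := x) (s := N) (c := 0) (by have := QQ_le_rows hN; omega) (CC_pos x)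
          omega
        rw [T1W_iff (by simp) hk] at h8
        simp only [List.getD_cons_zero] at h8
        rw [tab_of_row (by rw [hr]; exact QQ_le_rows hN)] at h8
        simp only [tabA, hr] at h8
        exact h8
      · apply h5 c hc
        rw [T1W_iff (by simp) (index_lt (Nat.lt_succ_self _) hc)]
        simp only [List.getD_cons_zero]
        rw [tab_of_not_row (by rw [index_div hc]; omega)]
        simp only [tabB, index_mod hc]
        exact hf
  · rintro ⟨φ, rfl, h3, h4, h5⟩
    have h6 := read_top (x := x) (d := 0) (st := [Item.fm φ]) (k := 0) (by simp) (BB_pos x)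
    rw [h0] at h6
    simp only [Nat.add_zero] at h6
    refine ⟨rfl, ⟨_, Finset.mem_univ _, h6⟩, h3, fun N hN hN0 => ?_, fun c hc => ?_⟩
    · have hr : N * CC x / CC x = N := Nat.mul_div_cancel _ (CC_pos x)
      have hk : N * CC x < BB x := by
        have := index_lt (x := x) (s := N) (c := 0) (by have := QQ_le_rows hN; omega) (CC_pos x)
        omega
      rw [T1W_iff (by simp) hk]
      simp only [List.getD_cons_zero]
      rw [tab_of_row (by rw [hr]; exact QQ_le_rows hN)]
      simp only [tabA, hr]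
      exact h4 N hN hN0
    · rw [T1W_iff (by simp) (index_lt (Nat.lt_succ_self _) hc)]
      simp only [List.getD_cons_zero]
      rw [tab_of_not_row (by rw [index_div hc]; omega)]
      simp only [tabB, index_mod hc]
      exact h5 c hc

theorem Acc_final_TFin (x : List Sym) :
    x ∈ TFin ↔ AccW 0 (((run x).map (WW x 0 (SS x))).getD []) := by
  constructor
  · rintro ⟨φ, h1, h2, h3⟩
    obtain ⟨h4, h5⟩ := (run_eq_iff x φ).2 h2
    rw [h4]
    simp only [Option.map_some, Option.getD_some]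
    rw [AccW_iff]
    obtain ⟨h6, h7⟩ := (mem_TFin_code φ x h2).1 ⟨h1, h3⟩
    exact ⟨φ, rfl, h5, fun N hN _ => h6 N hN, h7⟩
  · intro h
    cases hr : run x with
    | none =>
      rw [hr] at h
      exact absurd h (not_AccW_nil 0)
    | some st =>
      rw [hr] at h
      simp only [Option.map_some, Option.getD_some] at h
      obtain ⟨φ, rfl, h5, h6, h7⟩ := (AccW_iff 0 st).1 h
      have h2 := (run_eq_iff x φ).1 ⟨hr, h5⟩
      obtain ⟨h8, h9⟩ := (mem_TFin_code φ x h2).2 ⟨fun N hN => h6 N hN (Nat.zero_le _), h7⟩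
      exact ⟨φ, h8, h2, h9⟩

theorem Acc_final_TFin' (x : List Sym) :
    x ∈ TFin' ↔ AccW 1 (((run x).map (WW x 0 (SS x))).getD []) := by
  constructor
  · rintro ⟨φ, h1, h2, h3⟩
    obtain ⟨h4, h5⟩ := (run_eq_iff x φ).2 h2
    rw [h4]
    simp only [Option.map_some, Option.getD_some]
    rw [AccW_iff]
    obtain ⟨h6, h7⟩ := (mem_TFin'_code φ x h2).1 ⟨h1, h3⟩
    exact ⟨φ, rfl, h5, fun N hN hN1 => h6 N hN hN1, h7⟩
  · intro h
    cases hr : run x with
    | none =>
      rw [hr] at h
      exact absurd h (not_AccW_nil 1)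
    | some st =>
      rw [hr] at h
      simp only [Option.map_some, Option.getD_some] at h
      obtain ⟨φ, rfl, h5, h6, h7⟩ := (AccW_iff 1 st).1 h
      have h2 := (run_eq_iff x φ).1 ⟨hr, h5⟩
      obtain ⟨h8, h9⟩ := (mem_TFin'_code φ x h2).2 ⟨fun N hN h0 => h6 N hN h0, h7⟩
      exact ⟨φ, h8, h2, h9⟩

end Pool.Agent.FBA
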