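import Mathlib
import Pool.Agent.B7219d.PTIter

/-!
# Iterating word functions given by terms, with arbitrary bounds
-/

set_option autoImplicit false
set_option backward.isDefEq.respectTransparency false

namespace Pool.Agent.FBA

open Pool.Agent.PT Pool.Agent.B7219d
open Turing StateTransition Computability
open Function (update)

variable {A : Type}

/-- **A function computed by a structured program within `T` steps is computable within a
comparable time in the sense of Mathlib.** -/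
theorem timed_of_prog [Fintype A] {α β Γ₀ Γ₁ : Type} [Fintype Γ₀] (ea : α → List Γ₀)
    (eb : β → List Γ₁) (f : α → β) (p : Prog A) (g : Γ₀ → A) (d : A → Γ₁) (a₀ : A)
    (out : α → List A) (hout : ∀ x, (out x).map d = eb (f x)) (P : α → ℕ) (P' : ℕ → ℕ) (Q : ℕ)
    (hPP' : ∀ x, P x ≤ P' (ea x).length) (hlen : ∀ x, (out x).length ≤ Q)
    (h : ∀ x, Runs p (single 0 ((ea x).map g)) (single 1 (out x)) (P x)) :
    ∃ M : TM2ComputableInTime ea eb f, (∀ n, M.time n = n + 1 + ((2 * n + 1) +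
      (P' n + (2 * Q + 1)) + (Q + 1))) ∧
      ∀ x, Nonempty (TM2OutputsInTime M.tm (List.map M.inputAlphabet.invFun (ea x))
        (some (List.map M.outputAlphabet.invFun (eb (f x))))
        ((ea x).length + 1 + ((2 * (ea x).length + 1) + (P x + (2 * Q + 1)) + (Q + 1)))) := by
  obtain ⟨n, hn⟩ := p.exists_bdd
  set N := n + 3 with hN
  set p' : Prog A := Prog.seq (mv 1 0) (Prog.seq p (mv 1 2)) with hp'
  have hb : p'.Bdd (N + 2) := by
    refine ⟨⟨by omega, fun a => ?_⟩, hn.mono (by omega), ⟨by omega, fun a => ?_⟩⟩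
    · change 0 < N + 2; omega
    · change 2 < N + 2; omega
  have hrun : ∀ x, Runs p' (single 1 ((ea x).map g).reverse) (single 2 (out x).reverse)
      ((2 * (ea x).length + 1) + (P x + (2 * Q + 1))) := by
    intro x
    have h1 := runs_mv 1 0 (by decide) ((ea x).map g).reverse
      (single 1 ((ea x).map g).reverse) (by simp [single])
    have h2 := h x
    have h3 := runs_mv 1 2 (by decide) (out x) (single 1 (out x)) (by simp [single])
    have e1 : single 0 ((ea x).map g) = update (update (single 1 ((ea x).map g).reverse) 1 []) 0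
        (((ea x).map g).reverse.reverse ++ (single 1 ((ea x).map g).reverse) 0) := by
      funext i
      by_cases hi : i = 0
      · subst hi; simp [single]
      · by_cases hi1 : i = 1
        · subst hi1; simp [single]
        · simp [single, hi]
    have e2 : single 2 (out x).reverse = update (update (single 1 (out x)) 1 []) 2
        ((out x).reverse ++ (single 1 (out x)) 2) := by
      funext i
      by_cases hi : i = 2
      · subst hi; simp [single]
      · by_cases hi1 : i = 1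
        · subst hi1; simp [single]
        · simp [single, hi]
    refine (h1.conv (s'' := single 0 ((ea x).map g)) (T' := 2 * (ea x).length + 1) e1
      (by simp)).seq (h2.seq (h3.conv e2 ?_))
    have := hlen x
    omega
  have hsteps : ∀ x, ∃ m ≤ (ea x).length + 1 + ((2 * (ea x).length + 1) +
      (P x + (2 * Q + 1)) + (Q + 1)),
      (flip bind (mach N p' g d a₀).step)^[m] (some (initList (mach N p' g d a₀) (ea x))) =
      some (haltList (mach N p' g d a₀) (eb (f x))) := by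
    intro x
    rw [initList_mach, haltList_mach]
    obtain ⟨t, ht, hex⟩ := hrun x
    obtain ⟨v1, h1⟩ := phase1 (N := N) p' g d a₀ (by omega) (ea x) none (fun _ => [])
    have e1 : update (fun _ => []) 1 (((ea x).map g).reverse ++ (fun _ => [] : Store A) 1) =
      single 1 ((ea x).map g).reverse := by simp [single]
    rw [e1] at h1
    obtain ⟨v2, h2⟩ := sim (N := N) (Γ₀ := Γ₀) (Γ₁ := Γ₁) hex hb (mcode p' g d a₀)
      (fun l => some (some l)) (some none) (fun l => rfl) v1 [] []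
    have h3 := phase3 (N := N) p' g d a₀ (by omega) (out x).reverse [] v2
      (single 2 (out x).reverse) (by simp [single])
    have e3 : (stk (update (single 2 (out x).reverse) 2 []) [] (((out x).reverse.map d).reverse ++ [])
      : ∀ k : SK N, List (SΓ A Γ₀ Γ₁ N k)) = stk (fun _ => []) [] (eb (f x)) := by
      rw [← hout x]
      congr 1
      · simp [single]
      · simp
    rw [e3] at h3
    refine ⟨_, ?_, RN.trans h1 (RN.trans h2 h3)⟩
    have := hlen x
    simp only [List.length_reverse]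
    omega
  choose m hm hsteps using hsteps
  have key : ∀ x, ∀ t, (ea x).length + 1 + ((2 * (ea x).length + 1) + (P x + (2 * Q + 1)) +
      (Q + 1)) ≤ t → Nonempty (TM2OutputsInTime (mach N p' g d a₀)
      (List.map (Equiv.refl ((mach N p' g d a₀).Γ (mach N p' g d a₀).k₀)).invFun (ea x))
      (some (List.map (Equiv.refl ((mach N p' g d a₀).Γ (mach N p' g d a₀).k₁)).invFun
        (eb (f x)))) t) := by
    intro x t ht
    refine ⟨⟨⟨m x, ?_⟩, (hm x).trans ht⟩⟩
    have h := hsteps x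
    have e1 : List.map (Equiv.refl ((mach N p' g d a₀).Γ (mach N p' g d a₀).k₀)).invFun (ea x)
        = ea x := by
      simp
    have e2 : List.map (Equiv.refl ((mach N p' g d a₀).Γ (mach N p' g d a₀).k₁)).invFun
        (eb (f x)) = eb (f x) := by
      simp
    erw [e2, e1]
    exact h
  exact ⟨{
    tm := mach N p' g d a₀
    inputAlphabet := Equiv.refl _
    outputAlphabet := Equiv.refl _
    time := fun n => n + 1 + ((2 * n + 1) + (P' n + (2 * Q + 1)) + (Q + 1))
    outputsFun := fun x => (key x _ (by have := hPP' x; omega)).some },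
    fun n => rfl, fun x => key x _ le_rfl⟩

variable {Γ Δ : Type}

/-- **Iteration with arbitrary bounds.** Compute an initial word, iterate a word function while a
condition holds, and decide from the last word: the time is polynomial in the input length, the
number of rounds and the lengths of the words. -/
theorem timed_iter {Γ₀ α : Type} [Fintype Γ₀] [Fintype Γ] (ea : α → List Γ₀)
    (m₀ t₀ : Tm Γ₀) (K₀ : ℕ) (φ₀ : ℕ → Γ) (m₁ t₁ : Tm Γ) (K₁ : ℕ) (φ₁ : ℕ → Γ)
    (c : Tm Γ) (hc : ∀ x, c.eval x (fun _ => 0) ≤ 1) {R : List Γ → Prop}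
    (hR : UP (fun x _ => R x)) (f : α → Bool) (S L : α → ℕ) (S' L' : ℕ → ℕ)
    (hS : ∀ a, S a ≤ S' (ea a).length) (hL : ∀ a, L a ≤ L' (ea a).length)
    (hrun : ∀ a, ∃ s ≤ S a,
      (∀ i < s, c.eval ((wf m₁ t₁ K₁ φ₁)^[i] (wf m₀ t₀ K₀ φ₀ (ea a))) (fun _ => 0) ≠ 0) ∧
      c.eval ((wf m₁ t₁ K₁ φ₁)^[s] (wf m₀ t₀ K₀ φ₀ (ea a))) (fun _ => 0) = 0 ∧
      (∀ i ≤ s, ((wf m₁ t₁ K₁ φ₁)^[i] (wf m₀ t₀ K₀ φ₀ (ea a))).length ≤ L a) ∧
      (f a = true ↔ R ((wf m₁ t₁ K₁ φ₁)^[s] (wf m₀ t₀ K₀ φ₀ (ea a))))) :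
    ∃ (P : Polynomial ℕ) (M : TM2ComputableInTime ea encodeBool f),
      (∀ n, M.time n ≤ P.eval (n + S' n + L' n)) ∧
      ∀ a, ∃ t ≤ P.eval ((ea a).length + S a + L a),
        Nonempty (TM2OutputsInTime M.tm (List.map M.inputAlphabet.invFun (ea a))
        (some (List.map M.outputAlphabet.invFun (encodeBool (f a)))) t) := by
  classical
  obtain ⟨r, hr⟩ := hR
  let AA : Type := Γ₀ ⊕ (Γ ⊕ Bool)
  let g₀ : Γ₀ → AA := Sum.inl
  let g : Γ → AA := fun x => Sum.inr (Sum.inl x)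
  let gb : Bool → AA := fun x => Sum.inr (Sum.inr x)
  have hg₀ : Function.Injective g₀ := Sum.inl_injective
  have hg : Function.Injective g := fun a b h => Sum.inl_injective (Sum.inr_injective h)
  let u : AA := gb true
  obtain ⟨T₀, hT₀, h₀⟩ := runs_step g₀ hg₀ u m₀ t₀ K₀ φ₀ g
  obtain ⟨T₁, hT₁, h₁⟩ := runs_step g hg u m₁ t₁ K₁ φ₁ g
  obtain ⟨T₂, hT₂, h₂⟩ := runs_flag g hg u c
  obtain ⟨T₃, hT₃, h₃⟩ := runs_outP g hg u (Tm.const 1) r 1 (fun v => gb (decide (v ≠ 0)))
  set F := wf m₁ t₁ K₁ φ₁ with hF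
  let prog : Prog AA := Prog.seq (stepP g₀ u m₀ t₀ K₀ (fun n => g (φ₀ n)))
    (Prog.seq (c.comp g u (fun _ => 3) 4)
      (Prog.seq (Prog.loop 4 (fun _ => Prog.seq (stepP g u m₁ t₁ K₁ (fun n => g (φ₁ n)))
        (c.comp g u (fun _ => 3) 4)))
      (outP g u (Tm.const 1) r 1 (fun v => gb (decide (v ≠ 0))))))
  let BB : ℕ → ℕ → ℕ → ℕ := fun N s l => T₀ N + (T₂ l + ((s * (T₁ l + T₂ l + 1) + 1) + T₃ l))
  have hBB : ∀ N s l N' s' l', N ≤ N' → s ≤ s' → l ≤ l' → BB N s l ≤ BB N' s' l' := by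
    intro N s l N' s' l' h1 h2 h3
    have i0 := hT₀.1 h1
    have i1 := hT₁.1 h3
    have i2 := hT₂.1 h3
    have i3 := hT₃.1 h3
    have i4 : s * (T₁ l + T₂ l + 1) ≤ s' * (T₁ l' + T₂ l' + 1) := Nat.mul_le_mul h2 (by omega)
    simp only [BB]
    omega
  let B' : ℕ → ℕ := fun N => T₀ N + (T₂ N + ((N * (T₁ N + T₂ N + 1) + 1) + T₃ N))
  have hB' : PB B' := hT₀.add (hT₂.add (((PB.id.mul ((hT₁.add hT₂).add (PB.const 1))).add
    (PB.const 1)).add hT₃))
  have hB'' : PB (fun N => N + 1 + ((2 * N + 1) + (B' N + (2 * 1 + 1)) + (1 + 1))) :=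
    (PB.id.add (PB.const 1)).add (((((PB.const 2).mul PB.id).add (PB.const 1)).add
      (hB'.add (PB.const (2 * 1 + 1)))).add (PB.const (1 + 1)))
  obtain ⟨P, hP⟩ := hB''.toPoly
  let d : AA → Bool := Sum.elim (fun _ => true) (Sum.elim (fun _ => true) id)
  obtain ⟨M, hM⟩ := timed_of_prog ea encodeBool f prog g₀ d u
    (fun a => [gb (f a)]) (fun a => by simp [d, gb, encodeBool])
    (fun a => BB (ea a).length (S a) (L a)) (fun n => BB n (S' n) (L' n)) 1
    (fun a => hBB _ _ _ _ _ _ le_rfl (hS a) (hL a))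
    (fun a => by simp) (fun a => by
      obtain ⟨s, hs, hs1, hs0, hsL, hfin⟩ := hrun a
      set x := wf m₀ t₀ K₀ φ₀ (ea a) with hx
      have hone : ∀ i < s, c.eval (F^[i] x) (fun _ => 0) = 1 := fun i hi => by
        have := hc (F^[i] x)
        have := hs1 i hi
        omega
      have g0 := h₀ (ea a)
      have g2 := h₂ x
      have g3 := runs_iter g u F c _ T₁ T₂ hT₁ hT₂ h₁ h₂ (L a) s x hsL hone hs0
      have g4 := (h₃ (F^[s] x)).2
      have e1 : (Tm.const 1 : Tm Γ).eval (F^[s] x) (fun _ => 0) = 1 := rfl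
      rw [e1] at g4
      have e2 : (List.range 1).map (fun i => (fun v => gb (decide (v ≠ 0)))
          (min (r.eval (F^[s] x) (cons i (fun _ => 0))) 1)) = [gb (f a)] := by
        have h5 : r.eval (F^[s] x) (cons 0 (fun _ => 0)) = if R (F^[s] x) then 1 else 0 := hr _ _
        simp only [List.range_one, List.map_cons, List.map_nil, h5]
        by_cases h6 : R (F^[s] x)
        · rw [if_pos h6, hfin.2 h6]; simp
        · have h7 : f a = false := by
            rw [← Bool.not_eq_true]; exact fun h => h6 (hfin.1 h)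
          rw [if_neg h6, h7]; simp
      rw [e2] at g4
      refine (g0.seq (g2.seq (g3.seq g4))).mono ?_
      have i1 : T₂ x.length ≤ T₂ (L a) := hT₂.1 (hsL 0 (by omega))
      have i2 : T₃ (F^[s] x).length ≤ T₃ (L a) := hT₃.1 (hsL s le_rfl)
      have i3 : s * (T₁ (L a) + T₂ (L a) + 1) ≤ S a * (T₁ (L a) + T₂ (L a) + 1) :=
        Nat.mul_le_mul_right _ hs
      simp only [BB]
      omega)
  obtain ⟨hM1, hM2⟩ := hM
  have hfin : ∀ n s l, n + 1 + ((2 * n + 1) + (BB n s l + (2 * 1 + 1)) + (1 + 1)) ≤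
      P.eval (n + s + l) := by
    intro n s l
    refine le_trans ?_ (hP _)
    have h1 := hBB n s l (n + s + l) (n + s + l) (n + s + l) (by omega) (by omega) (by omega)
    have h2 : BB (n + s + l) (n + s + l) (n + s + l) = B' (n + s + l) := rfl
    rw [h2] at h1
    omega
  exact ⟨P, M, fun n => (hM1 n).le.trans (hfin _ _ _), fun a => ⟨_, hfin _ _ _, hM2 a⟩⟩

/-- Iteration, with functions and predicates in the classes `UF` and `UP`. -/
theorem timed_iterate {Γ₀ α : Type} [Fintype Γ₀] [Fintype Γ] (ea : α → List Γ₀)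
    {M₀ : List Γ₀ → ℕ} {G₀ : List Γ₀ → ℕ → Γ} (hM₀ : UF (fun x _ => M₀ x))
    (hG₀ : ∀ a : Γ, UP (fun x e => G₀ x (e 0) = a))
    {M₁ : List Γ → ℕ} {G₁ : List Γ → ℕ → Γ} (hM₁ : UF (fun x _ => M₁ x))
    (hG₁ : ∀ a : Γ, UP (fun x e => G₁ x (e 0) = a))
    {Q R : List Γ → Prop} (hQ : UP (fun x _ => Q x)) (hR : UP (fun x _ => R x)) (f : α → Bool)
    (F₀ : List Γ₀ → List Γ) (hF₀ : ∀ x, F₀ x = (List.range (M₀ x)).map (G₀ x))
    (F₁ : List Γ → List Γ) (hF₁ : ∀ x, F₁ x = (List.range (M₁ x)).map (G₁ x))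
    (S L : α → ℕ) (S' L' : ℕ → ℕ)
    (hS : ∀ a, S a ≤ S' (ea a).length) (hL : ∀ a, L a ≤ L' (ea a).length)
    (hrun : ∀ a, ∃ s ≤ S a, (∀ i < s, Q (F₁^[i] (F₀ (ea a)))) ∧
      ¬ Q (F₁^[s] (F₀ (ea a))) ∧ (∀ i ≤ s, (F₁^[i] (F₀ (ea a))).length ≤ L a) ∧
      (f a = true ↔ R (F₁^[s] (F₀ (ea a))))) :
    ∃ (P : Polynomial ℕ) (M : TM2ComputableInTime ea encodeBool f),
      (∀ n, M.time n ≤ P.eval (n + S' n + L' n)) ∧
      ∀ a, ∃ t ≤ P.eval ((ea a).length + S a + L a),
        Nonempty (TM2OutputsInTime M.tm (List.map M.inputAlphabet.invFun (ea a))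
        (some (List.map M.outputAlphabet.invFun (encodeBool (f a)))) t) := by
  classical
  obtain ⟨m₀, hm₀⟩ := hM₀
  obtain ⟨m₁, hm₁⟩ := hM₁
  obtain ⟨t₀, K₀, φ₀, h₀⟩ := exists_letter hG₀
  obtain ⟨t₁, K₁, φ₁, h₁⟩ := exists_letter hG₁
  obtain ⟨c, hc⟩ := hQ
  have e₀ : wf m₀ t₀ K₀ φ₀ = F₀ := by
    funext x
    rw [hF₀, wf, hm₀]
    exact List.map_congr_left fun i _ => h₀ x i
  have e₁ : wf m₁ t₁ K₁ φ₁ = F₁ := by
    funext x
    rw [hF₁, wf, hm₁]
    exact List.map_congr_left fun i _ => h₁ x i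
  have hcv : ∀ x, c.eval x (fun _ => 0) = if Q x then 1 else 0 := fun x => hc x _
  refine timed_iter ea m₀ t₀ K₀ φ₀ m₁ t₁ K₁ φ₁ c (fun x => by rw [hcv]; split_ifs <;> omega)
    hR f S L S' L' hS hL fun a => ?_
  rw [e₀, e₁]
  obtain ⟨s, g1, g2, g3, g4, g5⟩ := hrun a
  refine ⟨s, g1, fun i hi => ?_, ?_, g4, g5⟩
  · rw [hcv, if_pos (g2 i hi)]; norm_num
  · rw [hcv, if_neg g3]

end Pool.Agent.FBA
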