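import Mathlib
import Pool.Agent.FBA.Run
import Pool.Agent.FBA.Time
import Pool.Agent.FBA.Bound

/-!
# The machine
-/

set_option autoImplicit false

namespace Pool.Agent.FBA

open Pool.Agent.PT
open Turing Computability

/-- **The machine**, with its running time on words of length `n` and on single inputs. -/
theorem exists_machine (N0 : ℕ) (T : Set (List Sym))
    (hT : ∀ x, x ∈ T ↔ AccW N0 (((run x).map (WW x 0 (SS x))).getD [])) :
    ∃ (d : List Sym → Bool) (M : TM2ComputableInTime (fun w : List Sym => w) encodeBool d) (k : ℕ),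
      (∀ w, d w = true ↔ w ∈ T) ∧
      (∀ n, M.time n ≤ 2 ^ (4 * k * (n * 2 ^ mu n + 1))) ∧
      ∀ x, ∃ t ≤ 2 ^ (4 * k * (x.length * 2 ^ mX x + 1)),
        Nonempty (TM2OutputsInTime M.tm (x.map M.inputAlphabet.invFun)
          (some ((encodeBool (d x)).map M.outputAlphabet.invFun)) t) := by
  classical
  let d : List Sym → Bool := fun x => decide (x ∈ T)
  have hd : ∀ w, d w = true ↔ w ∈ T := fun w => by simp [d]
  let S : List Sym → ℕ := fun x => TT x + x.length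
  let L : List Sym → ℕ := fun x => x.length + SS x + x.length * BB x
  let S' : ℕ → ℕ := fun n => n * 2 ^ mu n + n
  let L' : ℕ → ℕ := fun n => n + 2 ^ (n * 2 ^ mu n) + n * ((2 ^ (n * 2 ^ mu n) + 1) * 2 ^ mu n)
  have hm : ∀ x : List Sym, 2 ^ mX x ≤ 2 ^ mu x.length := fun x =>
    Nat.pow_le_pow_right (by norm_num) (mX_le_mu x)
  have hE : ∀ x : List Sym, x.length * 2 ^ mX x ≤ x.length * 2 ^ mu x.length := fun x =>
    Nat.mul_le_mul_left _ (hm x)
  have hSL : ∀ x, S x ≤ S' x.length := fun x => Nat.add_le_add_right (hE x) _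
  have hSS : ∀ x, SS x ≤ 2 ^ (x.length * 2 ^ mu x.length) := fun x => by
    rw [SS_eq]; exact Nat.pow_le_pow_right (by norm_num) (hE x)
  have hLL : ∀ x, L x ≤ L' x.length := fun x => by
    have h1 : x.length * BB x ≤
        x.length * ((2 ^ (x.length * 2 ^ mu x.length) + 1) * 2 ^ mu x.length) := by
      apply Nat.mul_le_mul_left
      exact Nat.mul_le_mul (Nat.add_le_add_right (hSS x) 1) (hm x)
    exact Nat.add_le_add (Nat.add_le_add_left (hSS x) _) h1
  obtain ⟨P, M, hM1, hM2⟩ := timed_iterate (α := List Sym) (fun w : List Sym => w)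
    (M₀ := fun x => x.length + 1) (G₀ := G0) (UF.len.add (UF.const 1)) UP_G0
    (M₁ := M1) (G₁ := G1) UF_M1 UP_G1 UP_ContW (UP_AccW N0) d
    F0 (fun _ => rfl) F1 (fun _ => rfl) S L S' L' hSL hLL (fun x => by
      obtain ⟨s, h1, h2, h3, h4, h5⟩ := exists_run x
      refine ⟨s, h1, h2, h3, h4, ?_⟩
      rw [h5, hd, hT])
  obtain ⟨k, hk⟩ := poly_two_pow P
  have hfin : ∀ n m : ℕ, P.eval (n + (n * 2 ^ m + n) +
      (n + 2 ^ (n * 2 ^ m) + n * ((2 ^ (n * 2 ^ m) + 1) * 2 ^ m))) ≤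
      2 ^ (8 * k * (n * 2 ^ m + 1)) := by
    intro n m
    refine (poly_mono P (sum_bound rfl rfl rfl)).trans ((hk _).trans ?_)
    refine Nat.pow_le_pow_right (by norm_num) ?_
    nlinarith [Nat.zero_le k, Nat.zero_le (k * (n * 2 ^ m))]
  refine ⟨d, M, 2 * k, hd, fun n => ?_, fun x => ?_⟩
  · refine (hM1 n).trans ((hfin n (mu n)).trans (le_of_eq ?_))
    ring_nf
  · obtain ⟨t, ht1, ht2⟩ := hM2 x
    refine ⟨t, ht1.trans (le_trans (le_of_eq ?_) ((hfin x.length (mX x)).trans (le_of_eq ?_))), ht2⟩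
    · have e1 : S x = x.length * 2 ^ mX x + x.length := rfl
      have e2 : L x = x.length + 2 ^ (x.length * 2 ^ mX x) +
          x.length * ((2 ^ (x.length * 2 ^ mX x) + 1) * 2 ^ mX x) := by
        change x.length + SS x + x.length * ((SS x + 1) * CC x) = _
        rw [SS_eq]; rfl
      rw [e1, e2]
    · ring_nf

theorem fastDecision_of (N0 : ℕ) (T : Set (List Sym))
    (hT : ∀ x, x ∈ T ↔ AccW N0 (((run x).map (WW x 0 (SS x))).getD [])) : FastDecision T := by
  obtain ⟨d, M, k, h1, h2, h3⟩ := exists_machine N0 T hT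
  refine ⟨d, M, 14 + 8 * k, h1, fun n => ?_, fun φ => ?_⟩
  · have h4 : (M.time n : ℝ) ≤ ((2 ^ (4 * k * (n * 2 ^ mu n + 1)) : ℕ) : ℝ) := by
      exact_mod_cast h2 n
    have h5 : ((2 ^ (4 * k * (n * 2 ^ mu n + 1)) : ℕ) : ℝ) =
        (2 : ℝ) ^ ((4 * k * (n * 2 ^ mu n + 1) : ℕ) : ℝ) := by
      rw [Real.rpow_natCast, Nat.cast_pow]; rfl
    rw [h5] at h4
    refine h4.trans (Real.rpow_le_rpow_of_exponent_le (by norm_num) ((E_bound k n).trans ?_))
    apply Real.rpow_le_rpow_of_exponent_le (by norm_num)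
    unfold RR
    push_cast
    rw [mul_div_assoc']
  · obtain ⟨t, ht1, ht2⟩ := h3 φ.code
    refine ⟨t, ht1.trans (Nat.pow_le_pow_right (by norm_num) ?_), ht2⟩
    have h4 : 2 ^ mX φ.code ≤ 2 ^ φ.numVars :=
      Nat.pow_le_pow_right (by norm_num) (mX_le_numVars φ)
    have h5 : 0 < φ.code.length := lt_of_le_of_lt (Nat.zero_le _) (Fml.qd_lt φ)
    have h6 : 0 < 2 ^ φ.numVars := by positivity
    have h7 : φ.code.length * 2 ^ mX φ.code ≤ φ.code.length * 2 ^ φ.numVars :=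
      Nat.mul_le_mul_left _ h4
    have h8 : 1 ≤ φ.code.length * 2 ^ φ.numVars := Nat.mul_pos h5 h6
    calc 4 * k * (φ.code.length * 2 ^ mX φ.code + 1)
        ≤ 4 * k * (2 * (φ.code.length * 2 ^ φ.numVars)) := Nat.mul_le_mul_left _ (by omega)
      _ = 8 * k * (φ.code.length * 2 ^ φ.numVars) := by ring
      _ ≤ (14 + 8 * k) * (φ.code.length * 2 ^ φ.numVars) := Nat.mul_le_mul_right _ (by omega)
      _ = (14 + 8 * k) * φ.code.length * 2 ^ φ.numVars := by ring

theorem inDTIME_of_fast {T : Set (List Sym)} (h : FastDecision T) (c : ℝ) (hc : 0 < c) :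
    InDTIME T (fun n => 2 ^ ((2 : ℝ) ^ (c * n))) := by
  obtain ⟨d, M, K, h1, h2, _⟩ := h
  obtain ⟨C, hC⟩ := exp_exp_le K c (Nat.cast_nonneg K) hc
  refine ⟨d, M, C, h1, fun n => (h2 n).trans ?_⟩
  have := hC n
  rw [mul_div_assoc'] at this
  exact this

end Pool.Agent.FBA
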